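import Pool.Agent.WSatCount.CountDef
import Pool.Agent.WSatChain.Forward
import Pool.Agent.WSatChain.Brute

/-! The reductions that exist. -/

namespace Pool.Agent.WSatCount

open Pool.Agent.WSatChain

theorem count_of_sub {A B : CClass} (h : ∀ U C, A U C → B U C) (hB : IsoInv B) :
    ReducesCount (fun _ => 2) A B := by
  refine ⟨fun k => k + 1, fun _ _ => 0, fun k _ => idInterp k, ?_, ?_⟩
  · intro k n
    refine ⟨Nat.le_succ k, ?_⟩
    show 1 ≤ (k + 1) * (n + 1) ^ (k + 1)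
    exact Nat.succ_le_of_lt (Nat.mul_pos (Nat.succ_pos _) (Nat.pow_pos (Nat.succ_pos _)))
  · intro k U _ C hC
    refine ⟨hB _ _ _ _ _ (id_iso k C) (h U C hC), ?_⟩
    rw [id_param]
    exact ⟨iso_wsat (id_iso k C), iso_wsat (id_iso k C).symm⟩

theorem count_sub_left {c : ℕ → ℕ} {A A' B : CClass} (h : ∀ U C, A' U C → A U C)
    (hr : ReducesCount c A B) : ReducesCount c A' B := by
  obtain ⟨e, N, F, h1, h2⟩ := hr
  exact ⟨e, N, F, h1, fun k U _ C hC => h2 k U C (h U C hC)⟩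

theorem count_brute : ReducesCount (fun k => k + 2) CIRC (GAMMA 1 1) := by
  refine ⟨fun _ => 1, fun _ _ => 1, fun k _ => Brute.bruteInterp k, ?_, ?_⟩
  · intro k n
    refine ⟨le_refl _, ?_⟩
    show 1 ≤ 1 * (n + 1) ^ 1
    rw [one_mul, pow_one]
    exact Nat.succ_le_succ (Nat.zero_le _)
  · intro k U _ C hC
    exact Brute.brute C hC

end Pool.Agent.WSatCount
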