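import Pool.Agent.WSatCount.Src

/-! Construction of the codes. -/

namespace Pool.Agent.WSatCount

open Pool.Agent.WSatChain Pool.Agent.ParityAC Finset

section code

variable {ρ s c D : ℕ}

/-- the alphabet -/
abbrev BB (ρ : ℕ) : Type := Fin ρ → Bool

/-- a coordinate of a list -/
def cbit (y : List (BB ρ)) (q : Fin (s + 1) × Fin ρ) : Bool := (y.getD q.1.1 (fun _ => false)) q.2

/-- generators -/
abbrev Gen (ρ s c D : ℕ) : Type :=
  (Fin c → (Fin (s + 1) × Fin ρ) × Bool) ⊕ (BB ρ ⊕ Fin (D + 1))

/-- the distinguished letter -/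
def z0 : BB ρ := fun _ => false

/-- the designated position of a block -/
def dsg (s : ℕ) (j : BB ρ) : List (BB ρ) := List.replicate s z0 ++ [j]

/-- the value of a generator -/
def genv : Gen ρ s c D → List (BB ρ) → ZMod 2
  | .inl π, y => if ∀ i, cbit y (π i).1 = (π i).2 then 1 else 0
  | .inr (.inl j), y => (if y = dsg s j then 1 else 0) + (if y = dsg s z0 then 1 else 0)
  | .inr (.inr _), _ => 0

theorem dsg_length (j : BB ρ) : (dsg s j).length = s + 1 := by
  simp [dsg]

theorem genv_even (hρ : c < ρ) (g : Gen ρ s c D) : bp (genv g) (s + 1) [] = 0 := by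
  rcases g with π | j | i
  · -- a coordinate that is not used
    obtain ⟨l, hl⟩ : ∃ l : Fin ρ, ∀ i, (π i).1.2 ≠ l := by
      by_contra hcon
      push Not at hcon
      have h1 : Function.Surjective (fun i : Fin c => (π i).1.2) := hcon
      have h2 := Fintype.card_le_of_surjective _ h1
      rw [Fintype.card_fin, Fintype.card_fin] at h2
      omega
    rw [bp_inner]
    have h0 : ∀ Q : List (BB ρ), ∑ j, genv (D := D) (Sum.inl π : Gen ρ s c D) (j :: Q) = 0 := by
      intro Q
      have hinv : ∀ j : BB ρ, genv (D := D) (Sum.inl π : Gen ρ s c D)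
          (Function.update j l (!j l) :: Q) = genv (D := D) (Sum.inl π : Gen ρ s c D) (j :: Q) := by
        intro j
        have h1 : ∀ i, cbit (Function.update j l (!j l) :: Q) (π i).1 =
            cbit (j :: Q) (π i).1 := by
          intro i
          unfold cbit
          rcases Nat.eq_zero_or_pos (π i).1.1.1 with h2 | h2
          · rw [h2]
            simp only [List.getD_cons_zero]
            rw [Function.update_of_ne (hl i)]
          · obtain ⟨m, hm⟩ := Nat.exists_eq_add_of_le' h2
            rw [hm]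
            simp only [List.getD_cons_succ]
        simp only [genv, h1]
      apply Finset.sum_involution (fun j _ => Function.update j l (!j l))
      · intro j _
        rw [hinv]
        exact CharTwo.add_self_eq_zero _
      · intro j _ _ h
        have h2 := congrFun h l
        rw [Function.update_self] at h2
        cases hj : j l <;> simp [hj] at h2
      · intro j _
        funext i
        by_cases hi : i = l
        · subst hi
          simp
        · rw [Function.update_of_ne hi, Function.update_of_ne hi]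
      · intro j _
        exact Finset.mem_univ _
    have h1 : (fun Q : List (BB ρ) => ∑ j, genv (D := D) (Sum.inl π : Gen ρ s c D) (j :: Q)) =
        fun _ => 0 := funext h0
    rw [h1, bp_zero]
  · have h1 : bp (genv (Sum.inr (Sum.inl j) : Gen ρ s c D)) (s + 1) [] =
        bp (fun Q : List (BB ρ) => if Q = dsg s j then 1 else 0) (s + 1) [] +
        bp (fun Q : List (BB ρ) => if Q = dsg s z0 then 1 else 0) (s + 1) [] := by
      rw [← bp_add]
      rfl
    rw [h1, bp_single, bp_single, if_pos ⟨dsg s j, dsg_length _, by simp⟩,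
      if_pos ⟨dsg s z0, dsg_length _, by simp⟩]
    decide
  · exact bp_zero _ _

/-- evaluation -/
def evC (a : Gen ρ s c D → ZMod 2) (y : List (BB ρ)) : ZMod 2 := ∑ g, a g * genv g y

theorem evC_bp (a : Gen ρ s c D → ZMod 2) (r : ℕ) (P : List (BB ρ)) :
    bp (evC a) r P = ∑ g, a g * bp (genv g) r P := by
  have h1 : evC a = fun Q => ∑ g, a g * genv g Q := rfl
  rw [h1, bp_sum]
  exact Finset.sum_congr rfl fun g _ => bp_mul _ _ _ _

theorem exists_coord {y y' : List (BB ρ)} (h : y.length = s + 1) (h' : y'.length = s + 1)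
    (hne : y ≠ y') : ∃ q : Fin (s + 1) × Fin ρ, cbit y' q ≠ cbit y q := by
  by_contra hcon
  push Not at hcon
  apply hne
  apply List.ext_getElem (h.trans h'.symm)
  intro p hp hp'
  funext l
  have h1 := hcon (⟨p, by omega⟩, l)
  unfold cbit at h1
  simp only at h1
  rw [List.getD_eq_getElem _ _ hp, List.getD_eq_getElem _ _ hp'] at h1
  exact h1.symm

/-- the separating generator -/
theorem exists_gen (hρ : 0 < ρ) (Y : List (List (BB ρ))) (hY : Y.length ≤ c)
    (hl : ∀ y ∈ Y, y.length = s + 1) (y0 : List (BB ρ)) (hy0 : y0.length = s + 1) :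
    ∃ g : Gen ρ s c D, genv g y0 = 1 ∧ ∀ y ∈ Y, y ≠ y0 → genv g y = 0 := by
  classical
  let q0 : Fin (s + 1) × Fin ρ := (⟨0, by omega⟩, ⟨0, hρ⟩)
  let co : Option (List (BB ρ)) → Fin (s + 1) × Fin ρ := fun o =>
    match o with
    | some y => if h : ∃ q : Fin (s + 1) × Fin ρ, cbit y q ≠ cbit y0 q then h.choose else q0
    | none => q0
  let π : Fin c → (Fin (s + 1) × Fin ρ) × Bool := fun i => (co Y[i.1]?, cbit y0 (co Y[i.1]?))
  refine ⟨Sum.inl π, ?_, ?_⟩
  · show (if ∀ i, cbit y0 (π i).1 = (π i).2 then (1 : ZMod 2) else 0) = 1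
    rw [if_pos]
    intro i
    rfl
  · intro y hy hne
    show (if ∀ i, cbit y (π i).1 = (π i).2 then (1 : ZMod 2) else 0) = 0
    rw [if_neg]
    intro hall
    obtain ⟨i, hi, hiy⟩ := List.getElem_of_mem hy
    have h1 := hall ⟨i, lt_of_lt_of_le hi hY⟩
    have h2 : Y[i]? = some y := by rw [List.getElem?_eq_getElem hi, hiy]
    have h3 : ∃ q : Fin (s + 1) × Fin ρ, cbit y q ≠ cbit y0 q :=
      exists_coord hy0 (hl y hy) (Ne.symm hne)
    have h4 : co Y[i]? = h3.choose := by
      rw [h2]
      simp only [co, dif_pos h3]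
    have h5 : cbit y (co Y[i]?) = cbit y0 (co Y[i]?) := h1
    rw [h4] at h5
    exact h3.choose_spec h5

theorem evC_indep (hρ : 0 < ρ) (Y : List (List (BB ρ))) (hY : Y.length ≤ c)
    (hl : ∀ y ∈ Y, y.length = s + 1) (τ : List (BB ρ) → ZMod 2) :
    ∃ a : Gen ρ s c D → ZMod 2, ∀ y ∈ Y, evC a y = τ y := by
  classical
  have hg : ∀ y0 : List (BB ρ), ∃ g : Gen ρ s c D, y0.length = s + 1 →
      (genv g y0 = 1 ∧ ∀ y ∈ Y, y ≠ y0 → genv g y = 0) := by
    intro y0
    by_cases h : y0.length = s + 1
    · obtain ⟨g, hg⟩ := exists_gen (D := D) hρ Y hY hl y0 h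
      exact ⟨g, fun _ => hg⟩
    · exact ⟨Sum.inr (Sum.inr ⟨0, Nat.succ_pos _⟩), fun h' => absurd h' h⟩
  choose gg hgg using hg
  refine ⟨fun g => ∑ y0 ∈ Y.toFinset, if g = gg y0 then τ y0 else 0, ?_⟩
  intro y hy
  unfold evC
  have h1 : ∀ g : Gen ρ s c D, (∑ y0 ∈ Y.toFinset, if g = gg y0 then τ y0 else 0) * genv g y =
      ∑ y0 ∈ Y.toFinset, if g = gg y0 then τ y0 * genv (gg y0) y else 0 := by
    intro g
    rw [Finset.sum_mul]
    apply Finset.sum_congr rfl
    intro y0 _
    by_cases h : g = gg y0
    · rw [if_pos h, if_pos h, h]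
    · rw [if_neg h, if_neg h, zero_mul]
  simp only [h1]
  rw [Finset.sum_comm]
  simp only [Finset.sum_ite_eq', Finset.mem_univ, if_true]
  rw [Finset.sum_eq_single y]
  · rw [(hgg y (hl y hy)).1, mul_one]
  · intro y0 hy0 hne
    rw [(hgg y0 (hl y0 (List.mem_toFinset.1 hy0))).2 y hy (Ne.symm hne), mul_zero]
  · intro h
    exact absurd (List.mem_toFinset.2 hy) h

theorem evC_reach (ε : BB ρ → ZMod 2) (hε : ∑ j, ε j = 0) :
    ∃ a : Gen ρ s c D → ZMod 2, ∀ j, bp (evC a) s [j] = ε j := by
  classical
  refine ⟨fun g => match g with | .inr (.inl j) => ε j | _ => 0, ?_⟩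
  intro j'
  rw [evC_bp, Fintype.sum_sum_type, Fintype.sum_sum_type]
  simp only [zero_mul, Finset.sum_const_zero, zero_add, add_zero]
  have h1 : ∀ j : BB ρ, bp (genv (Sum.inr (Sum.inl j) : Gen ρ s c D)) s [j'] =
      (if j = j' then 1 else 0) + (if z0 = j' then 1 else 0) := by
    intro j
    have h2 : bp (genv (Sum.inr (Sum.inl j) : Gen ρ s c D)) s [j'] =
        bp (fun Q => if Q = dsg s j then 1 else 0) s [j'] +
        bp (fun Q => if Q = dsg s z0 then 1 else 0) s [j'] := by
      rw [← bp_add]
      rfl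
    have h3 : ∀ i : BB ρ, (∃ l : List (BB ρ), l.length = s ∧ dsg s i = l ++ [j']) ↔ i = j' := by
      intro i
      constructor
      · rintro ⟨l, hl, h⟩
        have h4 := List.append_inj h (by simp [hl])
        simpa using h4.2
      · rintro rfl
        exact ⟨List.replicate s z0, by simp, rfl⟩
    rw [h2, bp_single, bp_single]
    simp only [h3]
  simp only [h1, mul_add, mul_ite, mul_one, mul_zero, Finset.sum_add_distrib,
    Finset.sum_ite_eq', Finset.mem_univ, if_true]
  by_cases hz : (z0 : BB ρ) = j'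
  · simp only [hz, if_true, hε, add_zero]
  · simp only [hz, if_false, Finset.sum_const_zero, add_zero]

/-- the code -/
def mkCode (ρ s c D : ℕ) (hρ : c < ρ) : Code (BB ρ) s c D where
  A := Gen ρ s c D → ZMod 2
  ev := evC
  char2 a := by
    funext g
    exact CharTwo.add_self_eq_zero _
  ev_add a b y := by
    unfold evC
    rw [← Finset.sum_add_distrib]
    apply Finset.sum_congr rfl
    intro g _
    rw [Pi.add_apply, add_mul]
  indep Y hY hl τ := evC_indep (by omega) Y hY hl τ
  even a := by
    rw [evC_bp]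
    apply Finset.sum_eq_zero
    intro g _
    rw [genv_even hρ, mul_zero]
  reach := evC_reach
  null := by
    classical
    refine ⟨fun i g => if g = Sum.inr (Sum.inr i) then 1 else 0, ?_, ?_⟩
    · intro i i' h
      have h1 := congrFun h (Sum.inr (Sum.inr i))
      simp only [if_true] at h1
      by_contra hne
      rw [if_neg] at h1
      · exact absurd h1 (by decide)
      · intro h2
        simp only [Sum.inr.injEq] at h2
        exact hne h2
    · intro i y
      unfold evC
      apply Finset.sum_eq_zero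
      intro g _
      rcases g with π | j | i'
      · show (if (Sum.inl π : Gen ρ s c D) = Sum.inr (Sum.inr i) then (1 : ZMod 2) else 0) *
          genv (Sum.inl π : Gen ρ s c D) y = 0
        rw [if_neg (by simp), zero_mul]
      · show (if (Sum.inr (Sum.inl j) : Gen ρ s c D) = Sum.inr (Sum.inr i) then (1 : ZMod 2)
          else 0) * genv (Sum.inr (Sum.inl j) : Gen ρ s c D) y = 0
        rw [if_neg (by simp), zero_mul]
      · show _ * (0 : ZMod 2) = 0
        rw [mul_zero]

theorem card_gen : Fintype.card (Gen ρ s c D) =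
    (2 * ((s + 1) * ρ)) ^ c + (2 ^ ρ + (D + 1)) := by
  rw [Fintype.card_sum, Fintype.card_sum, Fintype.card_fun, Fintype.card_prod, Fintype.card_prod,
    Fintype.card_fun, Fintype.card_fin, Fintype.card_fin, Fintype.card_fin, Fintype.card_fin,
    Fintype.card_bool]
  ring

theorem card_A (hρ : c < ρ) : Nat.card (mkCode ρ s c D hρ).A =
    2 ^ ((2 * ((s + 1) * ρ)) ^ c + (2 ^ ρ + (D + 1))) := by
  show Nat.card (Gen ρ s c D → ZMod 2) = _
  rw [Nat.card_eq_fintype_card, Fintype.card_fun, card_gen, ZMod.card]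

end code

end Pool.Agent.WSatCount
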