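import Pool.Agent.WSatChain.Defs

/-! Reductions definable in infinitary logic with full counting. -/

namespace Pool.Agent.WSatCount

open Pool.Agent.WSatChain

/-- `p-WSAT(A)` reduces to `p-WSAT(B)` by reductions that are definable, slice by slice, in
infinitary logic with counting: for every parameter `k` and every size `n` there is an
interpretation `F k n` in the infinitary logic with `c k` variables and counting quantifiers with
arbitrary thresholds, with at most `e k * (n + 1) ^ e k` copies and at most `e k` parameter
sentences, such that for every circuit `C ∈ A` with `n` nodes the interpreted circuit is in `B`,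
and `C` is `k`-satisfiable exactly if the interpreted circuit is satisfiable by an assignment
whose weight is the new parameter (the number of true parameter sentences). No linear order of the
nodes is available, and nothing is required about how `F k n` depends on `k` and `n`. -/
def ReducesCount (c : ℕ → ℕ) (A B : CClass) : Prop :=
  ∃ (e : ℕ → ℕ) (N : ℕ → ℕ → ℕ) (F : ∀ k n : ℕ, Interp (c k) (N k n)),
    (∀ k n, (F k n).K ≤ e k ∧ (F k n).M ≤ e k * (n + 1) ^ e k) ∧
    ∀ (k : ℕ) (U : Type) [Finite U] (C : Circ U), A U C →
      B _ ((F k (Nat.card U)).apply C) ∧
      (C.WSat k ↔ ((F k (Nat.card U)).apply C).WSat ((F k (Nat.card U)).param C))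

end Pool.Agent.WSatCount
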