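import Pool.Agent.WSatCount.Top
import Pool.Agent.WSatCount.CodeC
import Pool.Agent.WSatCount.CountDef

/-! The links above the first one for reductions definable with full counting. -/

namespace Pool.Agent.WSatCount

open Pool.Agent.WSatChain Pool.Agent.ParityAC Finset Filter

theorem growth (a n : ℕ) : ∀ᶠ ρ : ℕ in atTop, (a * ρ) ^ n ≤ 2 ^ ρ := by
  have h := tendsto_pow_const_div_const_pow_of_one_lt n (r := (2 : ℝ)) (by norm_num)
  have hpos : (0 : ℝ) < 1 / ((a : ℝ) ^ n + 1) := by positivity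
  filter_upwards [h.eventually (gt_mem_nhds hpos)] with ρ hρ
  have h2 : (0 : ℝ) < 2 ^ ρ := by positivity
  rw [div_lt_div_iff₀ h2 (by positivity)] at hρ
  have h3 : ((a * ρ : ℕ) : ℝ) ^ n ≤ 2 ^ ρ := by
    push_cast
    rw [mul_pow]
    have h4 : (0 : ℝ) ≤ (ρ : ℝ) ^ n := by positivity
    nlinarith
  exact_mod_cast h3

theorem bnd_le (σ : ℕ) (hσ : 1 ≤ σ) : ∀ r q : ℕ, bnd σ (r + 1) q ≤ (16 * q + 1) * (16 * σ) ^ r := by
  intro r
  induction r with
  | zero =>
    intro q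
    simp only [bnd, pow_zero, mul_one]
    omega
  | succ r ih =>
    intro q
    show (16 * q + 1) * bnd σ (r + 1) (σ - 1) ≤ _
    have h1 := ih (σ - 1)
    have h2 : 16 * (σ - 1) + 1 ≤ 16 * σ := by omega
    calc (16 * q + 1) * bnd σ (r + 1) (σ - 1)
        ≤ (16 * q + 1) * ((16 * (σ - 1) + 1) * (16 * σ) ^ r) := Nat.mul_le_mul_left _ h1
      _ ≤ (16 * q + 1) * ((16 * σ) * (16 * σ) ^ r) :=
          Nat.mul_le_mul_left _ (Nat.mul_le_mul_right _ h2)
      _ = (16 * q + 1) * (16 * σ) ^ (r + 1) := by rw [pow_succ']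

section

variable {ρ s n D k : ℕ}

theorem card_CT (hρ : n < ρ) : Nat.card (CT (mkCode ρ s n D hρ) k) =
    (2 ^ ρ * 2 ^ 2 ^ ρ + 1) ^ s * ((2 ^ ρ + 1) * (2 ^ k * ((k + 1) *
      (2 ^ ((2 * ((s + 1) * ρ)) ^ n + (2 ^ ρ + (D + 1))) * 5)))) := by
  unfold CT
  rw [Nat.card_prod, Nat.card_prod, Nat.card_prod, Nat.card_prod, Nat.card_prod, card_A,
    Nat.card_fun, Nat.card_fun]
  simp only [Nat.card_eq_fintype_card, Fintype.card_option, Fintype.card_prod, Fintype.card_fin,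
    Fintype.card_fun, Fintype.card_bool, ZMod.card]

theorem card_CT_le (hρ : n < ρ) (h1 : (2 * ((s + 1) * ρ)) ^ n ≤ 2 ^ ρ) :
    Nat.card (CT (mkCode ρ s n D hρ) k) ≤ 2 ^ ((2 * s + 2 * k + D + 7) * 2 ^ ρ) := by
  rw [card_CT]
  generalize hb : 2 ^ ρ = b at h1 ⊢
  have hb1 : 1 ≤ b := by
    rw [← hb]
    exact Nat.one_le_two_pow
  have e1 : b + 1 ≤ 2 ^ b := Nat.lt_two_pow_self
  have e2 : b * 2 ^ b + 1 ≤ 2 ^ (2 * b) := by
    have h3 : 1 ≤ 2 ^ b := Nat.one_le_two_pow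
    calc b * 2 ^ b + 1 ≤ b * 2 ^ b + 2 ^ b := by omega
      _ = (b + 1) * 2 ^ b := by ring
      _ ≤ 2 ^ b * 2 ^ b := Nat.mul_le_mul_right _ e1
      _ = _ := by rw [← pow_add]; congr 1; ring
  have e3 : k + 1 ≤ 2 ^ k := Nat.lt_two_pow_self
  have e4 : 2 ^ ((2 * ((s + 1) * ρ)) ^ n + (b + (D + 1))) ≤ 2 ^ (2 * b + D + 1) :=
    Nat.pow_le_pow_right (by norm_num) (by omega)
  calc (b * 2 ^ b + 1) ^ s * ((b + 1) * (2 ^ k * ((k + 1) *
      (2 ^ ((2 * ((s + 1) * ρ)) ^ n + (b + (D + 1))) * 5))))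
      ≤ (2 ^ (2 * b)) ^ s * (2 ^ b * (2 ^ k * (2 ^ k * (2 ^ (2 * b + D + 1) * 2 ^ 3)))) := by
        gcongr
        norm_num
    _ = 2 ^ (2 * b * s + (b + (k + (k + (2 * b + D + 1 + 3))))) := by
        rw [← pow_mul, ← pow_add, ← pow_add, ← pow_add, ← pow_add, ← pow_add]
    _ ≤ _ := by
        apply Nat.pow_le_pow_right (by norm_num)
        have h5 : k ≤ k * b := Nat.le_mul_of_pos_right _ hb1
        have h6 : D ≤ D * b := Nat.le_mul_of_pos_right _ hb1
        have h7 : (2 * s + 2 * k + D + 7) * b = 2 * b * s + 2 * (k * b) + D * b + 7 * b := by ring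
        omega

end

/-- The links `Γ_{s+2,1}` versus `Γ_{s+1,d}`. -/
theorem not_reduces_count (s d : ℕ) (c : ℕ → ℕ) (hc : ∃ k, c k < k) :
    ¬ ReducesCount c (GAMMA (s + 2) 1) (GAMMA (s + 1) d) := by
  obtain ⟨k, hk⟩ := hc
  rintro ⟨e, N, F, hF, hred⟩
  generalize hn : c k = n at hk
  have hn2 : 2 ≤ n := by
    have h1 := (F k 0).a_pos
    have h2 := (F k 0).two_a
    omega
  let D := d + 1
  let E := e k
  let C1 := 2 * s + 2 * k + D + 7
  let C2 := E + (C1 + 1) * E + C1 * n + 1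
  let C3 := C2 * (E + 1)
  let q0 := (s + E + 1) * n
  let Cst := (16 * q0 + 1) * (16 * (C3 * s + 1)) ^ s
  -- choice of the size
  obtain ⟨ρ, hρ1, hρ2, hρ3⟩ : ∃ ρ, n < ρ ∧ (2 * ((s + 1) * ρ)) ^ n ≤ 2 ^ ρ ∧ Cst ≤ 2 ^ ρ := by
    have h1 := growth (2 * (s + 1)) n
    have h2 : ∀ᶠ ρ : ℕ in atTop, n < ρ := eventually_gt_atTop n
    have h3 : ∀ᶠ ρ : ℕ in atTop, Cst ≤ ρ := eventually_ge_atTop Cst
    obtain ⟨ρ, ⟨h1, h2⟩, h3⟩ := ((h1.and h2).and h3).exists
    refine ⟨ρ, h2, ?_, h3.trans Nat.lt_two_pow_self.le⟩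
    rw [← mul_assoc]
    exact h1
  let K := mkCode ρ s n D hρ1
  have hcard : ∀ z : List (BB ρ) → ZMod 2, Nat.card (UU K k z) = Nat.card (UU K k 0) :=
    fun z => card_eq_card (K := K) (k := k) (z := z) (z' := 0) (by omega) (by omega)
  generalize hn0 : Nat.card (UU K k 0) = n0 at hcard
  have hred' : ∀ z : List (BB ρ) → ZMod 2, GAMMA (s + 1) d _ ((F k n0).apply (srcC K k z)) ∧
      ((srcC K k z).WSat k ↔
        ((F k n0).apply (srcC K k z)).WSat ((F k n0).param (srcC K k z))) := by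
    intro z
    have h1 := hred k (UU K k z) (srcC K k z) src_gamma
    rw [hcard z] at h1
    exact h1
  obtain ⟨hFK, hFM⟩ := hF k n0
  generalize hb : 2 ^ ρ = b at hρ3
  have hb1 : 1 ≤ b := by
    rw [← hb]
    exact Nat.one_le_two_pow
  have hCT : Nat.card (CT K k) ≤ 2 ^ (C1 * b) := by
    rw [← hb]
    exact card_CT_le hρ1 hρ2
  have hWF : Nat.card (WF K k) ≤ 2 ^ (C1 * b) := card_WF_le.trans hCT
  have hn01 : n0 + 1 ≤ 2 ^ (C1 * b + 1) := by
    have h1 : n0 ≤ 2 ^ (C1 * b) := by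
      rw [← hn0]
      exact card_UU_le.trans hCT
    have h2 : 1 ≤ 2 ^ (C1 * b) := Nat.one_le_two_pow
    rw [pow_succ]
    omega
  have ha : (F k n0).a ≤ n := by
    have := (F k n0).two_a
    omega
  have hM : (F k n0).M ≤ 2 ^ (E + (C1 * b + 1) * E) := by
    refine hFM.trans ?_
    rw [pow_add, pow_mul]
    exact Nat.mul_le_mul Nat.lt_two_pow_self.le (Nat.pow_le_pow_left hn01 _)
  have hNX : Nat.card (NX K k (F k n0)) + 1 ≤ 2 ^ (C2 * b) := by
    have h1 : Nat.card (NX K k (F k n0)) = (F k n0).M * Nat.card (WF K k) ^ (F k n0).a := by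
      rw [Nat.card_prod, Nat.card_fun]
      simp only [Nat.card_eq_fintype_card, Fintype.card_fin]
    have h2 : Nat.card (NX K k (F k n0)) ≤ 2 ^ (E + (C1 * b + 1) * E + C1 * b * n) := by
      rw [h1, pow_add 2 (E + (C1 * b + 1) * E)]
      apply Nat.mul_le_mul hM
      calc Nat.card (WF K k) ^ (F k n0).a ≤ (2 ^ (C1 * b)) ^ (F k n0).a :=
            Nat.pow_le_pow_left hWF _
        _ ≤ (2 ^ (C1 * b)) ^ n := Nat.pow_le_pow_right Nat.one_le_two_pow ha
        _ = _ := by rw [← pow_mul]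
    have h3 : 1 ≤ 2 ^ (E + (C1 * b + 1) * E + C1 * b * n) := Nat.one_le_two_pow
    calc Nat.card (NX K k (F k n0)) + 1 ≤ 2 ^ (E + (C1 * b + 1) * E + C1 * b * n + 1) := by
          rw [pow_succ]
          omega
      _ ≤ _ := by
          apply Nat.pow_le_pow_right (by norm_num)
          have h4 : E ≤ E * b := Nat.le_mul_of_pos_right _ hb1
          have h5 : C2 * b = E * b + C1 * b * E + E * b + C1 * b * n + b := by
            show (E + (C1 + 1) * E + C1 * n + 1) * b = _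
            ring
          have h6 : (C1 * b + 1) * E = C1 * b * E + E := by ring
          omega
  have hS : (Nat.card (NX K k (F k n0)) + 1) ^ ((F k n0).K + 1) ≤ 2 ^ (C3 * b) := by
    calc (Nat.card (NX K k (F k n0)) + 1) ^ ((F k n0).K + 1)
        ≤ (2 ^ (C2 * b)) ^ ((F k n0).K + 1) := Nat.pow_le_pow_left hNX _
      _ ≤ (2 ^ (C2 * b)) ^ (E + 1) := Nat.pow_le_pow_right Nat.one_le_two_pow (by omega)
      _ = _ := by
          rw [← pow_mul]
          congr 1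
          show C2 * b * (E + 1) = C2 * (E + 1) * b
          ring
  refine contra (K := K) (k := k) (F := F k n0) (d := d) (S := 2 ^ (C3 * b))
    (σ := C3 * b * s + 1) (by omega) (by omega) (show 1 ≤ d + 1 by omega)
    (show d ≤ d + 1 by omega) (by omega) hS (fun z => (hred' z).1) (fun z => (hred' z).2) ?_ ?_
  · rw [← pow_mul]
    exact Nat.pow_lt_pow_right (by norm_num) (by omega)
  · rw [Fintype.card_fun, Fintype.card_bool, Fintype.card_fin, hb]
    refine (bnd_le _ (by omega) _ _).trans ?_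
    have h1 : (s + (F k n0).K + 1) * (F k n0).a ≤ q0 :=
      Nat.mul_le_mul (by omega) ha
    have h2 : 16 * (C3 * b * s + 1) ≤ 16 * (C3 * s + 1) * b := by
      have h3 : 16 * (C3 * s + 1) * b = 16 * (C3 * b * s) + 16 * b := by ring
      omega
    calc (16 * ((s + (F k n0).K + 1) * (F k n0).a) + 1) * (16 * (C3 * b * s + 1)) ^ s
        ≤ (16 * q0 + 1) * (16 * (C3 * s + 1) * b) ^ s :=
          Nat.mul_le_mul (by omega) (Nat.pow_le_pow_left h2 _)
      _ = Cst * b ^ s := by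
          show _ = (16 * q0 + 1) * (16 * (C3 * s + 1)) ^ s * b ^ s
          rw [mul_pow]
          ring
      _ ≤ b * b ^ s := Nat.mul_le_mul_right _ hρ3
      _ = b ^ (s + 1) := by rw [pow_succ']

end Pool.Agent.WSatCount
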