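import Pool.Agent.WSatCount.Trans

/-! Evaluation of the interpreted circuits: the two lowest levels. -/

namespace Pool.Agent.WSatCount

open Pool.Agent.WSatChain Pool.Agent.ParityAC Finset

section kinds

variable {U : Type} {C : Circ U}

theorem gate_not_lit (hC : C.IsCircuit) {b : Bool} {g : U} (h : C.gate b g) : ¬ C.IsLit g := by
  intro h1
  rcases hC.kind g with h2 | h2 | h2 | h2 <;> rcases h1 with h1 | ⟨h1, _⟩ <;> cases b <;>
    simp only [Circ.gate] at h <;> tauto

theorem gate_not_gate (hC : C.IsCircuit) {b : Bool} {g : U} (h : C.gate b g) :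
    ¬ C.gate (!b) g := by
  intro h1
  rcases hC.kind g with h2 | h2 | h2 | h2 <;> cases b <;>
    simp only [Circ.gate, Bool.not_false, Bool.not_true] at h h1 <;> tauto

theorem level_up [Finite U] {d : ℕ} : ∀ (t : ℕ) (b : Bool) (g : U), C.InLevel d b t g →
    C.InLevel d b (t + 1) g := by
  intro t
  induction t with
  | zero =>
    rintro b g (h | ⟨h1, h2, h3⟩)
    · exact Or.inl (Or.inl h)
    · refine Or.inr ⟨h1, fun y hy => Or.inl ⟨?_, h2 y hy⟩⟩
      have : Nonempty {h // C.wire g h} := ⟨⟨y, hy⟩⟩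
      have h4 : 0 < Nat.card {h // C.wire g h} := Nat.card_pos
      omega
  | succ t ih =>
    rintro b g (h | ⟨h1, h2⟩)
    · exact Or.inl (ih _ _ h)
    · exact Or.inr ⟨h1, fun y hy => ih _ _ (h2 y hy)⟩

/-- children of a gate of the right kind -/
theorem level_child [Finite U] (hC : C.IsCircuit) {d : ℕ} : ∀ (t : ℕ) (b : Bool) (g : U),
    C.InLevel d b (t + 1) g → C.gate b g → ∀ h, C.wire g h → C.InLevel d (!b) t h := by
  intro t
  induction t using Nat.strong_induction_on with
  | _ t ih =>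
    intro b g hl hg h hw
    rcases hl with hl | hl
    · -- the first clause
      cases t with
      | zero =>
        rcases hl with hl | ⟨hl, _⟩
        · exact absurd hl.2 (gate_not_lit hC hg)
        · exact absurd hl (gate_not_gate hC hg)
      | succ t =>
        rcases hl with hl | ⟨hl, _⟩
        · rw [Bool.not_not] at hl
          cases t with
          | zero =>
            rcases hl with hl | ⟨_, h2, h3⟩
            · exact absurd hl.2 (gate_not_lit hC hg)
            · have : Nonempty {h // C.wire g h} := ⟨⟨h, hw⟩⟩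
              have h4 : 0 < Nat.card {h // C.wire g h} := Nat.card_pos
              exact Or.inl (Or.inl ⟨by omega, h2 h hw⟩)
          | succ t =>
            have := ih t (by omega) b g hl hg h hw
            exact level_up _ _ _ (level_up _ _ _ this)
        · exact absurd hl (gate_not_gate hC hg)
    · exact hl.2 h hw

end kinds

section eval

variable {B : Type} [Fintype B] {s c D k : ℕ} {K : Code B s c D} {n N : ℕ}
  {z z' : List B → ZMod 2} {F : Interp n N}

/-- the shift in the group `i` -/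
def thT (z z' : List B → ZMod 2) (i : Fin k) : List B → Fin k → ZMod 2 :=
  fun y i' => if i' = i then z y + z' y else 0

omit [Fintype B] in
theorem thT_comm (i : Fin k) : thT z z' i = thT z' z i := by
  funext y i'
  simp only [thT, add_comm]

theorem con_theta {i : Fin k} {E : Nm k B K.A → Prop} (h : ∀ e, E e → tg e ≠ some i) :
    Con K z z' 0 (thT z z' i) E := by
  refine ⟨?_, ?_⟩
  · intro e y _ _
    simp [thT]
  · intro e e' i' y he _ hi _
    have h1 : i' ≠ i := by
      rintro rfl
      exact h e he hi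
    simp only [Pi.zero_apply, ev_zero, thT, if_neg h1]

theorem con_theta1 {i : Fin k} {p : NP K k F} (h : ¬ tgP p i) :
    Con K z z' 0 (thT z z' i) (cmp p) := by
  apply con_theta
  rintro e ⟨j, rfl⟩ hj
  exact h ⟨j, hj⟩

theorem con_theta2 {i : Fin k} {p r : NP K k F} (h : ¬ tgP p i) (h' : ¬ tgP r i) :
    Con K z z' 0 (thT z z' i) (fun e => cmp p e ∨ cmp r e) := by
  apply con_theta
  rintro e (⟨j, rfl⟩ | ⟨j, rfl⟩) hj
  · exact h ⟨j, hj⟩
  · exact h' ⟨j, hj⟩

theorem fix_theta {i : Fin k} {p : NP K k F} (h : ∀ y, tbP p y → z y = z' y) :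
    shP 0 (thT z z' i) p = p := by
  apply shP_id
  · intro i' _
    rfl
  · intro y hy
    funext i'
    simp only [thT, h y hy, Pi.zero_apply]
    split
    · exact CharTwo.add_self_eq_zero _
    · rfl

/-- a free group -/
theorem exists_free (hn : n < k) (p r : NP K k F) : ∃ i, ¬ tgP p i ∧ ¬ tgP r i := by
  classical
  by_contra hcon
  push Not at hcon
  have h1 : (univ : Finset (Fin k)) ⊆ (univ.biUnion fun j => (tg (p.2 j)).toFinset) ∪
      (univ.biUnion fun j => (tg (r.2 j)).toFinset) := by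
    intro i _
    rw [Finset.mem_union]
    by_cases hi : tgP p i
    · obtain ⟨j, hj⟩ := hi
      exact Or.inl (Finset.mem_biUnion.2 ⟨j, Finset.mem_univ _, by rw [Option.mem_toFinset]; exact hj⟩)
    · obtain ⟨j, hj⟩ := hcon i hi
      exact Or.inr (Finset.mem_biUnion.2 ⟨j, Finset.mem_univ _, by rw [Option.mem_toFinset]; exact hj⟩)
  have h2 := (Finset.card_le_card h1).trans (Finset.card_union_le _ _)
  have h3 : ∀ q : NP K k F, (univ.biUnion fun j => (tg (q.2 j)).toFinset).card ≤ F.a := by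
    intro q
    refine (Finset.card_biUnion_le_card_mul _ _ 1 ?_).trans ?_
    · intro j _
      rw [Option.card_toFinset]
      cases tg (q.2 j) <;> simp
    · rw [mul_one, Finset.card_univ, Fintype.card_fin]
  have h4 := h3 p
  have h5 := h3 r
  have h6 := F.two_a
  rw [Finset.card_univ, Fintype.card_fin] at h2
  omega

/-- the situation: two evaluations with the same guess -/
structure EC (z z' : List B → ZMod 2) (F : Interp n N) (g : NP K k F → Prop)
    (val : F.Univ (srcC K k z) → Prop) (val' : F.Univ (srcC K k z') → Prop) : Prop where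
  hn : n < k
  hc : n ≤ c
  C : (F.apply (srcC K k z)).IsCircuit
  C' : (F.apply (srcC K k z')).IsCircuit
  f : Finite (F.Univ (srcC K k z))
  f' : Finite (F.Univ (srcC K k z'))
  v : (F.apply (srcC K k z)).IsEval val
  v' : (F.apply (srcC K k z')).IsEval val'
  g1 : ∀ q, (F.apply (srcC K k z)).isVar q → (val q ↔ g (nm q))
  g1' : ∀ q, (F.apply (srcC K k z')).isVar q → (val' q ↔ g (nm q))
  fix : ∀ p, g p → ∀ y, tbP p y → z y = z' y

variable {g : NP K k F → Prop} {val : F.Univ (srcC K k z) → Prop}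
  {val' : F.Univ (srcC K k z') → Prop}

theorem EC.symm (E : EC z z' F g val val') : EC z' z F g val' val where
  hn := E.hn
  hc := E.hc
  C := E.C'
  C' := E.C
  f := E.f'
  f' := E.f
  v := E.v'
  v' := E.v
  g1 := E.g1'
  g1' := E.g1
  fix p hp y hy := (E.fix p hp y hy).symm

variable {q : F.Univ (srcC K k z)} {q' : F.Univ (srcC K k z')} {i : Fin k}

theorem back_eq (hq : nm q' = shP 0 (thT z z' i) (nm q)) :
    nm q = shP 0 (thT z' z i) (nm q') := by
  rw [hq, thT_comm (z := z') (z' := z), shP_shP]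

theorem EC.guess (E : EC z z' F g val val') (hq : nm q' = shP 0 (thT z z' i) (nm q)) :
    g (nm q) ↔ g (nm q') := by
  constructor
  · intro h
    rw [hq, fix_theta (E.fix _ h)]
    exact h
  · intro h
    have h1 := back_eq hq
    rw [fix_theta (fun y hy => (E.fix _ h y hy).symm)] at h1
    rw [h1]
    exact h

theorem EC.down (E : EC z z' F g val val') (hq : nm q' = shP 0 (thT z z' i) (nm q))
    (hi : ¬ tgP (nm q) i) {h : F.Univ (srcC K k z)} (hw : (F.apply (srcC K k z)).wire q h)
    (hh : ¬ tgP (nm h) i) :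
    ∃ h' : F.Univ (srcC K k z'), nm h' = shP 0 (thT z z' i) (nm h) ∧
      (F.apply (srcC K k z')).wire q' h' := by
  obtain ⟨h', hh'⟩ := lift (z' := z') E.hn E.hc h (con_theta1 (z := z) hh)
  exact ⟨h', hh', (tr_wire E.hn E.hc (con_theta2 hi hh) hq hh').1 hw⟩

theorem EC.lit_down (E : EC z z' F g val val') (hD : 1 ≤ D)
    (hq : nm q' = shP 0 (thT z z' i) (nm q)) (hi : ¬ tgP (nm q) i)
    (hl : (F.apply (srcC K k z)).IsLit q) {h : F.Univ (srcC K k z)}
    (hw : (F.apply (srcC K k z)).wire q h) :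
    ∃ h' : F.Univ (srcC K k z'), (F.apply (srcC K k z')).wire q' h' ∧ (val h ↔ val' h') := by
  have := E.f
  rcases hl with hl | ⟨hl, hl'⟩
  · exact absurd hw (E.C.var_in _ _ hl)
  · have hcard : Nat.card {r // (F.apply (srcC K k z)).wire q r} ≤ D := by
      obtain ⟨x, hx1, hx2⟩ := E.C.not_in q hl
      have : Subsingleton {r // (F.apply (srcC K k z)).wire q r} :=
        ⟨fun a b => Subtype.ext ((hx2 a.1 a.2).trans (hx2 b.1 b.2).symm)⟩
      have h2 := Finite.card_le_one_iff_subsingleton.2 this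
      omega
    have hh : ¬ tgP (nm h) i := fun h1 => hi (no_new_group E.hn E.hc hw hcard i h1)
    obtain ⟨h', h1, h2⟩ := E.down hq hi hw hh
    refine ⟨h', h2, ?_⟩
    have hv : (F.apply (srcC K k z)).isVar h := hl' h hw
    have hv' := (tr_var E.hn E.hc (con_theta1 hh) h1).1 hv
    rw [E.g1 _ hv, E.g1' _ hv', E.guess h1]

theorem EC.lit (E : EC z z' F g val val') (hD : 1 ≤ D)
    (hq : nm q' = shP 0 (thT z z' i) (nm q)) (hi : ¬ tgP (nm q) i)
    (hl : (F.apply (srcC K k z)).IsLit q) (hl' : (F.apply (srcC K k z')).IsLit q') :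
    val q ↔ val' q' := by
  have hcon := con_theta1 (z := z) (z' := z') hi
  apply gate_val E.C E.v E.v'
  · intro hv
    have hv' := (tr_var E.hn E.hc hcon hq).1 hv
    rw [E.g1 _ hv, E.g1' _ hv', E.guess hq]
  · exact (tr_and E.hn E.hc hcon hq).1
  · exact (tr_or E.hn E.hc hcon hq).1
  · exact (tr_not E.hn E.hc hcon hq).1
  · intro h hw
    exact E.lit_down hD hq hi hl hw
  · intro h' hw
    obtain ⟨h, h1, h2⟩ := E.symm.lit_down hD (back_eq hq)
      (by rw [hq, tgP_shP]; exact hi) hl' hw
    exact ⟨h, h1, h2.symm⟩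

theorem EC.lev0_down (E : EC z z' F g val val') (hD : 1 ≤ D) {d : ℕ} (hd : d ≤ D) {b : Bool}
    (hq : nm q' = shP 0 (thT z z' i) (nm q)) (hi : ¬ tgP (nm q) i)
    (hl : (F.apply (srcC K k z)).InLevel d b 0 q) (hl' : (F.apply (srcC K k z')).InLevel d b 0 q')
    {h : F.Univ (srcC K k z)} (hw : (F.apply (srcC K k z)).wire q h) :
    ∃ h' : F.Univ (srcC K k z'), (F.apply (srcC K k z')).wire q' h' ∧ (val h ↔ val' h') := by
  have := E.f
  rcases hl with hl | ⟨hl1, hl2, hl3⟩
  · exact E.lit_down hD hq hi hl.2 hw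
  · have hcon := con_theta1 (z := z) (z' := z') hi
    have hg' := (tr_gate E.hn E.hc hcon hq b).1 hl1
    have hh : ¬ tgP (nm h) i := fun h1 =>
      hi (no_new_group E.hn E.hc hw (hl3.trans hd) i h1)
    obtain ⟨h', h1, h2⟩ := E.down hq hi hw hh
    refine ⟨h', h2, ?_⟩
    rcases hl' with hl' | ⟨_, hl2', _⟩
    · exact absurd hl'.2 (gate_not_lit E.C' hg')
    · exact E.lit hD h1 hh (hl2 h hw) (hl2' h' h2)

theorem EC.lev0 (E : EC z z' F g val val') (hD : 1 ≤ D) {d : ℕ} (hd : d ≤ D) {b : Bool}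
    (hq : nm q' = shP 0 (thT z z' i) (nm q)) (hi : ¬ tgP (nm q) i)
    (hl : (F.apply (srcC K k z)).InLevel d b 0 q) (hl' : (F.apply (srcC K k z')).InLevel d b 0 q') :
    val q ↔ val' q' := by
  have hcon := con_theta1 (z := z) (z' := z') hi
  apply gate_val E.C E.v E.v'
  · intro hv
    have hv' := (tr_var E.hn E.hc hcon hq).1 hv
    rw [E.g1 _ hv, E.g1' _ hv', E.guess hq]
  · exact (tr_and E.hn E.hc hcon hq).1
  · exact (tr_or E.hn E.hc hcon hq).1
  · exact (tr_not E.hn E.hc hcon hq).1
  · intro h hw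
    exact E.lev0_down hD hd hq hi hl hl' hw
  · intro h' hw
    obtain ⟨h, h1, h2⟩ := E.symm.lev0_down hD hd (back_eq hq)
      (by rw [hq, tgP_shP]; exact hi) hl' hl hw
    exact ⟨h, h1, h2.symm⟩

/-- the first clause of level one is inherited -/
theorem EC.lev1_a (E : EC z z' F g val val') {d : ℕ} {b : Bool}
    (hq : nm q' = shP 0 (thT z z' i) (nm q)) (hi : ¬ tgP (nm q) i)
    (hl : (F.apply (srcC K k z)).InLevel d (!b) 0 q)
    (hl' : (F.apply (srcC K k z')).InLevel d b 1 q') :
    (F.apply (srcC K k z')).InLevel d (!b) 0 q' := by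
  rcases hl' with hl' | ⟨hl', _⟩
  · exact hl'
  · exfalso
    have hg := (tr_gate E.hn E.hc (con_theta1 hi) hq b).2 hl'
    rcases hl with hl | ⟨hl, _⟩
    · exact gate_not_lit E.C hg hl.2
    · exact gate_not_gate E.C hg hl

theorem EC.lev1_down (E : EC z z' F g val val') (hD : 1 ≤ D) {d : ℕ} (hd : d ≤ D) {b : Bool}
    (hb : ∀ y, tbP (nm q) y → z y = z' y) (hq : nm q' = nm q)
    (hl : ∀ h, (F.apply (srcC K k z)).wire q h → (F.apply (srcC K k z)).InLevel d (!b) 0 h)
    (hl' : ∀ h, (F.apply (srcC K k z')).wire q' h → (F.apply (srcC K k z')).InLevel d (!b) 0 h)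
    {h : F.Univ (srcC K k z)} (hw : (F.apply (srcC K k z)).wire q h) :
    ∃ h' : F.Univ (srcC K k z'), (F.apply (srcC K k z')).wire q' h' ∧ (val h ↔ val' h') := by
  obtain ⟨i, hi1, hi2⟩ := exists_free E.hn (nm q) (nm h)
  have hq' : nm q' = shP 0 (thT z z' i) (nm q) := by rw [fix_theta hb, hq]
  obtain ⟨h', h1, h2⟩ := E.down hq' hi1 hw hi2
  exact ⟨h', h2, E.lev0 hD hd h1 hi2 (hl h hw) (hl' h' h2)⟩

/-- **collapse**: the value of a node of level one is determined by the bases it touches -/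
theorem EC.lev1 (E : EC z z' F g val val') (hD : 1 ≤ D) {d : ℕ} (hd : d ≤ D) {b : Bool}
    (hb : ∀ y, tbP (nm q) y → z y = z' y) (hq : nm q' = nm q)
    (hl : (F.apply (srcC K k z)).InLevel d b 1 q)
    (hl' : (F.apply (srcC K k z')).InLevel d b 1 q') : val q ↔ val' q' := by
  obtain ⟨i, hi, _⟩ := exists_free E.hn (nm q) (nm q)
  have hq' : nm q' = shP 0 (thT z z' i) (nm q) := by rw [fix_theta hb, hq]
  have hcon := con_theta1 (z := z) (z' := z') hi
  rcases hl with hl | ⟨hl1, hl2⟩
  · exact E.lev0 hD hd hq' hi hl (E.lev1_a hq' hi hl hl')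
  · have hg' := (tr_gate E.hn E.hc hcon hq' b).1 hl1
    have hl2' : ∀ h, (F.apply (srcC K k z')).wire q' h →
        (F.apply (srcC K k z')).InLevel d (!b) 0 h := by
      rcases hl' with hl' | ⟨_, hl'⟩
      · exfalso
        rcases hl' with hl' | ⟨hl', _⟩
        · exact gate_not_lit E.C' hg' hl'.2
        · exact gate_not_gate E.C' hg' hl'
      · exact hl'
    apply gate_val E.C E.v E.v'
    · intro hv
      have hv' := (tr_var E.hn E.hc hcon hq').1 hv
      rw [E.g1 _ hv, E.g1' _ hv', E.guess hq']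
    · exact (tr_and E.hn E.hc hcon hq').1
    · exact (tr_or E.hn E.hc hcon hq').1
    · exact (tr_not E.hn E.hc hcon hq').1
    · intro h hw
      exact E.lev1_down hD hd hb hq hl2 hl2' hw
    · intro h' hw
      obtain ⟨h, h1, h2⟩ := E.symm.lev1_down hD hd (by
        intro y hy
        rw [hq] at hy
        exact (hb y hy).symm) hq.symm hl2' hl2 hw
      exact ⟨h, h1, h2.symm⟩

end eval

end Pool.Agent.WSatCount
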