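import Pool.Agent.WSatCount.Bij
import Pool.Agent.WSatChain.Forced
import Pool.Agent.WSatCount.Eval

/-! `Γ_{1,1}` formulas in the bijective game. -/

namespace Pool.Agent.WSatCount

open Pool.Agent.WSatChain

section char

variable {U : Type} {C : Circ U}

theorem gamma11_level [Finite U] (hC : GAMMA 1 1 U C) (g : U) :
    C.InLevel 1 true 1 g ∨ C.InLevel 1 false 0 g ∨ C.IsLit g := by
  obtain ⟨hF, hlev⟩ := hC
  obtain ⟨r, hr, _⟩ := hF.out
  induction reach_all hF hr g with
  | refl => exact Or.inl (hlev r hr)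
  | @tail p g _ hw ih =>
    have hpv : ¬ C.isVar p := fun h => hF.var_in p g h hw
    have hlit : C.IsLit p → C.IsLit g := by
      rintro (h | ⟨h, h'⟩)
      · exact absurd h hpv
      · exact Or.inl (h' g hw)
    rcases ih with ((⟨_, h⟩ | ⟨hor, hch, hcard⟩) | ⟨hand, hch⟩) | (⟨_, h⟩ | ⟨hor, hch, hcard⟩) | h
    · exact Or.inr (Or.inr (hlit h))
    · exact Or.inr (Or.inr (hch g hw))
    · exact Or.inr (Or.inl (hch g hw))
    · exact Or.inr (Or.inr (hlit h))
    · exact Or.inr (Or.inr (hch g hw))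
    · exact Or.inr (Or.inr (hlit h))

theorem gamma11_or [Finite U] (hC : GAMMA 1 1 U C) {g h h' : U} (hg : C.isOr g) (hw : C.wire g h)
    (hw' : C.wire g h') : h = h' := by
  have hcirc := hC.1.toIsCircuit
  have hgate : C.gate false g := hg
  have key : Nat.card {h // C.wire g h} ≤ 1 := by
    rcases gamma11_level hC g with ((⟨_, h⟩ | ⟨_, _, h⟩) | ⟨h, _⟩) | (⟨_, h⟩ | ⟨_, _, h⟩) | h
    · exact absurd h (gate_not_lit hcirc hgate)
    · exact h
    · exact absurd h (gate_not_gate hcirc hgate)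
    · exact absurd h (gate_not_lit hcirc hgate)
    · exact h
    · exact absurd h (gate_not_lit hcirc hgate)
  have hs : Subsingleton {h // C.wire g h} := Finite.card_le_one_iff_subsingleton.1 key
  exact congrArg Subtype.val (hs.elim ⟨h, hw⟩ ⟨h', hw'⟩)

theorem gamma11_not [Finite U] (hC : GAMMA 1 1 U C) {g h : U} (hg : C.isNot g)
    (hw : C.wire g h) : C.isVar h := by
  have hcirc := hC.1.toIsCircuit
  have hno : ∀ b, ¬ C.gate b g := by
    intro b hb
    rcases hcirc.kind g with h2 | h2 | h2 | h2 <;> cases b <;> simp only [Circ.gate] at hb <;> tauto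
  have hlit : C.IsLit g := by
    rcases gamma11_level hC g with ((⟨_, h⟩ | ⟨h, _, _⟩) | ⟨h, _⟩) | (⟨_, h⟩ | ⟨h, _, _⟩) | h
    · exact h
    · exact absurd h (hno _)
    · exact absurd h (hno _)
    · exact h
    · exact absurd h (hno _)
    · exact h
  rcases hlit with h1 | ⟨_, h1⟩
  · exact absurd hw (hcirc.var_in g h h1)
  · exact h1 h hw

/-- forced to be false -/
def NF (C : Circ U) (g : U) : Prop := ∃ p, Forced C p ∧ C.isNot p ∧ C.wire p g

/-- a forced gate that is false -/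
def Dead (C : Circ U) (g : U) : Prop := Forced C g ∧ C.isOr g ∧ ∀ h, ¬ C.wire g h

theorem wsat11 [Finite U] (hC : GAMMA 1 1 U C) (κ : ℕ) : C.WSat κ ↔
    ∃ T : U → Prop, (∀ g, T g → C.isVar g) ∧ Nat.card {g // T g} = κ ∧
      (∀ g, C.isVar g → Forced C g → T g) ∧ (∀ g, C.isVar g → NF C g → ¬ T g) ∧
      ∀ g, ¬ Dead C g := by
  have hcirc := hC.1.toIsCircuit
  constructor
  · rintro ⟨val, hv, hout, hcard⟩
    refine ⟨fun g => C.isVar g ∧ val g, fun g h => h.1, hcard, ?_, ?_, ?_⟩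
    · intro g hg hf
      exact ⟨hg, forced_val hv hout hf⟩
    · rintro g hg ⟨p, hp, hn, hw⟩ ⟨_, h⟩
      exact (hv.not p hn).1 (forced_val hv hout hp) g hw h
    · rintro g ⟨hf, ho, hn⟩
      obtain ⟨h, hw, _⟩ := (hv.or g ho).1 (forced_val hv hout hf)
      exact hn h hw
  · rintro ⟨T, hT, hcard, h1, h2, h3⟩
    have hforced : ∀ g, ¬ C.isVar g → Forced C g := by
      intro g hg
      rcases gamma11_forced hC g with h | h
      · exact h
      · exact absurd h.1 hg
    refine ⟨fun g => C.isVar g → T g, ⟨?_, ?_, ?_⟩, ?_, ?_⟩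
    · intro g hg
      have hgv : ¬ C.isVar g := by
        rcases hcirc.kind g with h | h | h | h <;> tauto
      refine ⟨fun _ h hw hv => h1 h hv (Forced.and g h (hforced g hgv) hg hw),
        fun _ hv => absurd hv hgv⟩
    · intro g hg
      have hgv : ¬ C.isVar g := by
        rcases hcirc.kind g with h | h | h | h <;> tauto
      refine ⟨fun _ => ?_, fun _ hv => absurd hv hgv⟩
      have h4 : ∃ h, C.wire g h := by
        by_contra hcon
        push Not at hcon
        exact h3 g ⟨hforced g hgv, hg, hcon⟩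
      obtain ⟨h, hw⟩ := h4
      refine ⟨h, hw, fun hv => h1 h hv (Forced.or g h (hforced g hgv) hg hw ?_)⟩
      intro h' hw'
      exact gamma11_or hC hg hw' hw
    · intro g hg
      have hgv : ¬ C.isVar g := by
        rcases hcirc.kind g with h | h | h | h <;> tauto
      refine ⟨fun _ h hw hcon => ?_, fun _ hv => absurd hv hgv⟩
      have hv := gamma11_not hC hg hw
      exact h2 h hv ⟨g, hforced g hgv, hg, hw⟩ (hcon hv)
    · intro g hg hv
      exact h1 g hv (Forced.out g hg)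
    · rw [← hcard]
      apply Nat.card_congr
      apply Equiv.subtypeEquivRight
      intro g
      exact ⟨fun h => h.2 h.1, fun h => ⟨hT g h, fun _ => h⟩⟩

end char

section game

variable {U U' : Type} {C : Circ U} {C' : Circ U'} {n N : ℕ}
  {R : (Fin n → U) → (Fin n → U') → Prop} {F : Interp n N}

theorem forced_tr (G : GameSys C C' n R)
    (hcomp : ∀ v v', R v v' → ∀ φ : Fin n → Fin n, R (v ∘ φ) (v' ∘ φ))
    {g : F.Univ C} (hg : Forced (F.apply C) g) :
    ∀ g' : F.Univ C', Mt R F g g' → Forced (F.apply C') g' := by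
  induction hg with
  | out g hg =>
    intro g' h
    exact Forced.out g' ((h.sat G F.isOut).1 hg)
  | and p g _ hp hw ih =>
    intro g' h
    obtain ⟨Ψ, hΨ⟩ := h.bij G hcomp
    have h1 := hΨ p
    have h2 := h1.snd hcomp
    exact Forced.and _ g' (ih _ h2) ((h2.sat G F.isAnd).1 hp) (((h1.swap hcomp).wire G).1 hw)
  | or p g _ hp hw hu ih =>
    intro g' h
    obtain ⟨Ψ, hΨ⟩ := h.bij G hcomp
    have h1 := hΨ p
    have h2 := h1.snd hcomp
    refine Forced.or _ g' (ih _ h2) ((h2.sat G F.isOr).1 hp) (((h1.swap hcomp).wire G).1 hw) ?_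
    -- uniqueness of the child
    obtain ⟨Θ, hΘ⟩ := h2.bij G hcomp
    have h3 : ∀ h', (F.apply C').wire (Ψ p) h' → h' = Θ g := by
      intro h' hw'
      obtain ⟨x, rfl⟩ := Θ.surjective h'
      rw [hu x (((hΘ x).wire G).2 hw')]
    intro h' hw'
    rw [h3 h' hw', h3 g' (((h1.swap hcomp).wire G).1 hw)]

theorem nf_tr (G : GameSys C C' n R)
    (hcomp : ∀ v v', R v v' → ∀ φ : Fin n → Fin n, R (v ∘ φ) (v' ∘ φ))
    {g : F.Univ C} (hg : NF (F.apply C) g) {g' : F.Univ C'} (h : Mt R F g g') :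
    NF (F.apply C') g' := by
  obtain ⟨p, hp, hn, hw⟩ := hg
  obtain ⟨Ψ, hΨ⟩ := h.bij G hcomp
  have h1 := hΨ p
  have h2 := h1.snd hcomp
  exact ⟨_, forced_tr G hcomp hp _ h2, (h2.sat G F.isNot).1 hn, ((h1.swap hcomp).wire G).1 hw⟩

theorem dead_tr (G : GameSys C C' n R)
    (hcomp : ∀ v v', R v v' → ∀ φ : Fin n → Fin n, R (v ∘ φ) (v' ∘ φ))
    {g : F.Univ C} (hg : Dead (F.apply C) g) {g' : F.Univ C'} (h : Mt R F g g') :
    Dead (F.apply C') g' := by
  obtain ⟨hp, hn, hw⟩ := hg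
  refine ⟨forced_tr G hcomp hp _ h, (h.sat G F.isOr).1 hn, ?_⟩
  intro x hx
  obtain ⟨Ψ, hΨ⟩ := h.bij G hcomp
  obtain ⟨y, rfl⟩ := Ψ.surjective x
  exact hw y (((hΨ y).wire G).2 hx)

/-- the inverse system -/
theorem GameSys.symm (G : GameSys C C' n R) : GameSys C' C n (fun v' v => R v v') where
  eq v v' h i j := (G.eq v' v h i j).symm
  isVar v v' h i := (G.isVar v' v h i).symm
  isAnd v v' h i := (G.isAnd v' v h i).symm
  isOr v v' h i := (G.isOr v' v h i).symm
  isNot v v' h i := (G.isNot v' v h i).symm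
  isOut v v' h i := (G.isOut v' v h i).symm
  wire v v' h i j := (G.wire v' v h i j).symm
  ext v v' h i := by
    obtain ⟨f, hf⟩ := G.ext v' v h i
    refine ⟨f.symm, ?_⟩
    intro x
    have := hf (f.symm x)
    rw [Equiv.apply_symm_apply] at this
    exact this

theorem univ_fin' {U : Type} [Finite U] {c N : ℕ} (F : Interp c N) (C : Circ U) :
    Finite (F.Univ C) := by
  unfold Interp.Univ
  infer_instance

theorem wsat11_tr (G : GameSys C C' n R)
    (hcomp : ∀ v v', R v v' → ∀ φ : Fin n → Fin n, R (v ∘ φ) (v' ∘ φ))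
    {v0 : Fin n → U} {v0' : Fin n → U'} (h0 : R v0 v0')
    [Finite (F.Univ C)] [Finite (F.Univ C')]
    (hC : GAMMA 1 1 _ (F.apply C)) (hC' : GAMMA 1 1 _ (F.apply C')) {κ : ℕ}
    (h : (F.apply C).WSat κ) : (F.apply C').WSat κ := by
  rw [wsat11 hC] at h
  rw [wsat11 hC']
  obtain ⟨T, hT1, hT2, hT3, hT4, hT5⟩ := h
  obtain ⟨Ψ, hΨ⟩ := bij0 (F := F) G hcomp h0
  have hsymm : ∀ x : F.Univ C', Mt (fun v' v => R v v') F x (Ψ.symm x) := by
    intro x
    have h1 := hΨ (Ψ.symm x)
    rw [Equiv.apply_symm_apply] at h1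
    exact ⟨h1.1.symm, h1.2⟩
  have G' := G.symm
  have hcomp' : ∀ (v : Fin n → U') (v' : Fin n → U), R v' v → ∀ φ : Fin n → Fin n,
      R (v' ∘ φ) (v ∘ φ) := fun v v' h φ => hcomp v' v h φ
  refine ⟨fun g => T (Ψ.symm g), ?_, ?_, ?_, ?_, ?_⟩
  · intro g hg
    exact ((hsymm g).sat G' F.isVar).2 (hT1 _ hg)
  · rw [← hT2]
    apply Nat.card_congr
    refine ⟨fun x => ⟨Ψ.symm x.1, x.2⟩, fun x => ⟨Ψ x.1, by
      show T (Ψ.symm (Ψ x.1))
      rw [Equiv.symm_apply_apply]
      exact x.2⟩, ?_, ?_⟩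
    · intro x
      apply Subtype.ext
      simp
    · intro x
      apply Subtype.ext
      simp
  · intro g hg hf
    exact hT3 _ (((hsymm g).sat G' F.isVar).1 hg) (forced_tr G' hcomp' hf _ (hsymm g))
  · intro g hg hf
    exact hT4 _ (((hsymm g).sat G' F.isVar).1 hg) (nf_tr G' hcomp' hf (hsymm g))
  · intro g hg
    exact hT5 _ (dead_tr G' hcomp' hg (hsymm g))

theorem param_tr (G : GameSys C C' n R) {v0 : Fin n → U} {v0' : Fin n → U'} (h0 : R v0 v0') :
    F.param C = F.param C' := by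
  unfold Interp.param
  have h : ∀ j, (∀ v, C.Sat (F.par j) v) ↔ ∀ v, C'.Sat (F.par j) v :=
    fun j => G.sentence h0 (F.par j)
  exact Nat.card_congr (Equiv.subtypeEquivRight h)

end game

end Pool.Agent.WSatCount
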