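import Pool.Agent.WSatCount.KClique
import Pool.Agent.WSatCount.Match11
import Pool.Agent.WSatCount.CountDef

/-! The game on the 2-CNF instances, and the first link. -/

namespace Pool.Agent.WSatCount

open Pool.Agent.WSatChain Finset

section kgame

variable {k : ℕ}

/-- shift of a point -/
def sp (β : Fin k → Fin k → ZMod 2) (p : Pt k) : Pt k := (p.1, fun j => p.2 j + β p.1 j)

/-- shift of a name -/
def sh1 (β : Fin k → Fin k → ZMod 2) : N1 k → N1 k
  | .root => .root
  | .var p => .var (sp β p)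
  | .cl p q => .cl (sp β p) (sp β q)
  | .n1 p q => .n1 (sp β p) (sp β q)
  | .n2 p q => .n2 (sp β p) (sp β q)

/-- touched groups -/
def tg1 : N1 k → Finset (Fin k)
  | .root => ∅
  | .var p => {p.1}
  | .cl p q => {p.1, q.1}
  | .n1 p q => {p.1, q.1}
  | .n2 p q => {p.1, q.1}

theorem tg1_card (e : N1 k) : (tg1 e).card ≤ 2 := by
  cases e with
  | root => simp [tg1]
  | var p => simp [tg1]
  | cl p q => exact Finset.card_le_two
  | n1 p q => exact Finset.card_le_two
  | n2 p q => exact Finset.card_le_two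

variable {β β' : Fin k → Fin k → ZMod 2}

theorem sp_sp (p : Pt k) : sp β (sp β p) = p := by
  apply Prod.ext
  · rfl
  · funext j
    show p.2 j + β p.1 j + β p.1 j = p.2 j
    rw [add_assoc, CharTwo.add_self_eq_zero, add_zero]

theorem sh1_sh1 (e : N1 k) : sh1 β (sh1 β e) = e := by
  cases e <;> simp only [sh1, sp_sp]

theorem tg1_sh1 (e : N1 k) : tg1 (sh1 β e) = tg1 e := by
  cases e <;> rfl

theorem sh1_congr (e : N1 k) (h : ∀ i ∈ tg1 e, β i = β' i) : sh1 β e = sh1 β' e := by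
  cases e with
  | root => rfl
  | var p =>
    have h1 := h p.1 (by simp [tg1])
    simp only [sh1, sp, h1]
  | cl p q =>
    have h1 := h p.1 (by simp [tg1])
    have h2 := h q.1 (by simp [tg1])
    simp only [sh1, sp, h1, h2]
  | n1 p q =>
    have h1 := h p.1 (by simp [tg1])
    have h2 := h q.1 (by simp [tg1])
    simp only [sh1, sp, h1, h2]
  | n2 p q =>
    have h1 := h p.1 (by simp [tg1])
    have h2 := h q.1 (by simp [tg1])
    simp only [sh1, sp, h1, h2]

/-- the shift with the defect at `r` -/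
structure Ps (β : Fin k → Fin k → ZMod 2) (r : Fin k) : Prop where
  sym : ∀ i j, β i j = β j i
  dia : ∀ i, β i i = 0
  row : ∀ i, ∑ j, β i j = tgt 1 i + if i = r then 1 else 0

variable {r : Fin k} {ε : ZMod 2}

theorem tgt_add (i : Fin k) : tgt (ε + 1) i = tgt ε i + tgt 1 i := by
  unfold tgt
  split <;> simp

theorem vp_sp (h : Ps β r) {p : Pt k} (hp : r ≠ p.1) : vp ε p ↔ vp (ε + 1) (sp β p) := by
  have h1 : ∑ j, β p.1 j = tgt 1 p.1 := by
    rw [h.row, if_neg (Ne.symm hp), add_zero]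
  unfold vp
  show (p.2 p.1 = 0 ∧ ∑ j, p.2 j = tgt ε p.1) ↔
    (p.2 p.1 + β p.1 p.1 = 0 ∧ ∑ j, (p.2 j + β p.1 j) = tgt (ε + 1) p.1)
  rw [h.dia, add_zero, Finset.sum_add_distrib, h1, tgt_add, add_left_inj]

theorem cf_sp (h : Ps β r) (p q : Pt k) : cf p q ↔ cf (sp β p) (sp β q) := by
  have h1 : sp β p = sp β q ↔ p = q := by
    constructor
    · intro h
      rw [← sp_sp (β := β) p, h, sp_sp]
    · rintro rfl
      rfl
  show (p ≠ q ∧ (p.1 ≠ q.1 → p.2 q.1 ≠ q.2 p.1)) ↔
    (sp β p ≠ sp β q ∧ (p.1 ≠ q.1 → p.2 q.1 + β p.1 q.1 ≠ q.2 p.1 + β q.1 p.1))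
  rw [h.sym q.1 p.1]
  simp only [ne_eq, add_left_inj, h1]

theorem v1_sh1 (h : Ps β r) {e : N1 k} (he : r ∉ tg1 e) : v1 ε e ↔ v1 (ε + 1) (sh1 β e) := by
  cases e with
  | root => exact Iff.rfl
  | var p =>
    simp only [tg1, Finset.mem_singleton] at he
    exact vp_sp h he
  | cl p q =>
    simp only [tg1, Finset.mem_insert, Finset.mem_singleton, not_or] at he
    simp only [v1, sh1]
    rw [vp_sp (ε := ε) h he.1, vp_sp (ε := ε) h he.2, cf_sp h]
  | n1 p q =>
    simp only [tg1, Finset.mem_insert, Finset.mem_singleton, not_or] at he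
    simp only [v1, sh1]
    rw [vp_sp (ε := ε) h he.1, vp_sp (ε := ε) h he.2, cf_sp h]
  | n2 p q =>
    simp only [tg1, Finset.mem_insert, Finset.mem_singleton, not_or] at he
    simp only [v1, sh1]
    rw [vp_sp (ε := ε) h he.1, vp_sp (ε := ε) h he.2, cf_sp h]

theorem sp_inj {p q : Pt k} : sp β p = sp β q ↔ p = q := by
  constructor
  · intro h
    rw [← sp_sp (β := β) p, h, sp_sp]
  · rintro rfl
    rfl

theorem w1_sh1 (e e' : N1 k) : w1 e e' ↔ w1 (sh1 β e) (sh1 β e') := by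
  cases e <;> cases e' <;> simp only [w1, sh1, sp_inj]

/-- move the defect -/
def mv (β : Fin k → Fin k → ZMod 2) (r r' : Fin k) : Fin k → Fin k → ZMod 2 := fun i j =>
  β i j + ((if i = r ∧ j = r' then 1 else 0) + (if i = r' ∧ j = r then 1 else 0))

theorem mv_ps (h : Ps β r) {r' : Fin k} (hr : r ≠ r') : Ps (mv β r r') r' where
  sym i j := by
    unfold mv
    rw [h.sym i j, add_comm (if i = r ∧ j = r' then (1 : ZMod 2) else 0)]
    simp only [and_comm]
  dia i := by
    unfold mv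
    rw [h.dia, zero_add, if_neg, if_neg, add_zero]
    · rintro ⟨h1, h2⟩
      exact hr (h2.symm.trans h1)
    · rintro ⟨h1, h2⟩
      exact hr (h1.symm.trans h2)
  row i := by
    unfold mv
    rw [Finset.sum_add_distrib, Finset.sum_add_distrib, h.row]
    have h1 : ∑ j, (if i = r ∧ j = r' then (1 : ZMod 2) else 0) = if i = r then 1 else 0 := by
      by_cases hi : i = r
      · simp [hi]
      · simp [hi]
    have h2 : ∑ j, (if i = r' ∧ j = r then (1 : ZMod 2) else 0) = if i = r' then 1 else 0 := by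
      by_cases hi : i = r'
      · simp [hi]
      · simp [hi]
    rw [h1, h2]
    generalize (if i = r then (1 : ZMod 2) else 0) = a
    generalize (if i = r' then (1 : ZMod 2) else 0) = b
    generalize tgt 1 i = c
    revert a b c
    decide

theorem mv_eq {r' i : Fin k} (h1 : i ≠ r) (h2 : i ≠ r') : mv β r r' i = β i := by
  funext j
  unfold mv
  rw [if_neg (fun h => h1 h.1), if_neg (fun h => h2 h.1), add_zero, add_zero]

/-- positions -/
def R1 (k n : ℕ) (v : Fin n → U1 k 0) (v' : Fin n → U1 k 1) : Prop :=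
  ∃ β r, Ps β r ∧ (∀ j, r ∉ tg1 (v j).1) ∧ ∀ j, (v' j).1 = sh1 β (v j).1

theorem R1_ext {n : ℕ} (hn : 2 * n < k) {v : Fin n → U1 k 0} {v' : Fin n → U1 k 1}
    (h : R1 k n v v') (i0 : Fin n) : ∃ f : U1 k 0 ≃ U1 k 1, ∀ x,
      R1 k n (Function.update v i0 x) (Function.update v' i0 (f x)) := by
  classical
  obtain ⟨β, r, hβ, hr, hv'⟩ := h
  let T : Finset (Fin k) := (univ.erase i0).biUnion fun j => tg1 (v j).1
  have hT : T.card ≤ (n - 1) * 2 := by
    refine (Finset.card_biUnion_le_card_mul _ _ 2 fun j _ => tg1_card _).trans ?_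
    rw [Finset.card_erase_of_mem (Finset.mem_univ _), Finset.card_univ, Fintype.card_fin]
  have hTm : ∀ j, j ≠ i0 → ∀ i ∈ tg1 (v j).1, i ∈ T := fun j hj i hi =>
    Finset.mem_biUnion.2 ⟨j, Finset.mem_erase.2 ⟨hj, Finset.mem_univ _⟩, hi⟩
  have hrT : r ∉ T := by
    intro h
    obtain ⟨j, _, hj⟩ := Finset.mem_biUnion.1 h
    exact hr j hj
  have hfr : ∀ W : Finset (Fin k), ∃ i, W.card ≤ 2 → (i ∉ T ∧ i ∉ W) := by
    intro W
    by_cases hW : W.card ≤ 2
    · by_contra hcon
      push Not at hcon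
      have h1 : (univ : Finset (Fin k)) ⊆ T ∪ W := by
        intro i _
        rw [Finset.mem_union]
        by_cases hi : i ∈ T
        · exact Or.inl hi
        · exact Or.inr ((hcon i).2 hi)
      have h2 := (Finset.card_le_card h1).trans (Finset.card_union_le _ _)
      rw [Finset.card_univ, Fintype.card_fin] at h2
      have h4 : 0 < n := i0.pos
      omega
    · exact ⟨r, fun h => absurd h hW⟩
  choose fr hfr using hfr
  let b : Finset (Fin k) → Fin k → Fin k → ZMod 2 := fun W => if r ∈ W then mv β r (fr W) else β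
  let q : Finset (Fin k) → Fin k := fun W => if r ∈ W then fr W else r
  have hps : ∀ e : N1 k, Ps (b (tg1 e)) (q (tg1 e)) := by
    intro e
    by_cases h : r ∈ tg1 e
    · simp only [b, q, if_pos h]
      apply mv_ps hβ
      rintro h1
      exact (hfr _ (tg1_card e)).2 (h1 ▸ h)
    · simp only [b, q, if_neg h]
      exact hβ
  have hq : ∀ e : N1 k, q (tg1 e) ∉ tg1 e ∧ q (tg1 e) ∉ T := by
    intro e
    by_cases h : r ∈ tg1 e
    · simp only [q, if_pos h]
      exact ⟨(hfr _ (tg1_card e)).2, (hfr _ (tg1_card e)).1⟩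
    · simp only [q, if_neg h]
      exact ⟨h, hrT⟩
  have hbT : ∀ e : N1 k, ∀ i ∈ T, b (tg1 e) i = β i := by
    intro e i hi
    by_cases h : r ∈ tg1 e
    · simp only [b, if_pos h]
      apply mv_eq
      · rintro rfl
        exact hrT hi
      · rintro rfl
        exact (hfr _ (tg1_card e)).1 hi
    · simp only [b, if_neg h]
  let f : U1 k 0 → U1 k 1 := fun x => ⟨sh1 (b (tg1 x.1)) x.1, by
    have h1 := (v1_sh1 (ε := 0) (hps x.1) (hq x.1).1).1 x.2
    rwa [zero_add] at h1⟩
  let g : U1 k 1 → U1 k 0 := fun x => ⟨sh1 (b (tg1 x.1)) x.1, by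
    have h1 := (v1_sh1 (ε := 1) (hps x.1) (hq x.1).1).1 x.2
    rwa [CharTwo.add_self_eq_zero] at h1⟩
  refine ⟨⟨f, g, ?_, ?_⟩, ?_⟩
  · intro x
    apply Subtype.ext
    show sh1 (b (tg1 (sh1 (b (tg1 x.1)) x.1))) (sh1 (b (tg1 x.1)) x.1) = x.1
    rw [tg1_sh1, sh1_sh1]
  · intro x
    apply Subtype.ext
    show sh1 (b (tg1 (sh1 (b (tg1 x.1)) x.1))) (sh1 (b (tg1 x.1)) x.1) = x.1
    rw [tg1_sh1, sh1_sh1]
  · intro x
    refine ⟨b (tg1 x.1), q (tg1 x.1), hps x.1, ?_, ?_⟩
    · intro j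
      by_cases hji : j = i0
      · subst hji
        rw [Function.update_self]
        exact (hq x.1).1
      · rw [Function.update_of_ne hji]
        intro h
        exact (hq x.1).2 (hTm j hji _ h)
    · intro j
      by_cases hji : j = i0
      · subst hji
        rw [Function.update_self, Function.update_self]
        rfl
      · rw [Function.update_of_ne hji, Function.update_of_ne hji, hv' j]
        apply sh1_congr
        intro i hi
        exact (hbT x.1 i (hTm j hji i hi)).symm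

theorem game1 {n : ℕ} (hn : 2 * n < k) : GameSys (C1 k 0) (C1 k 1) n (R1 k n) where
  eq v v' h i j := by
    obtain ⟨β, r, hβ, hr, hv'⟩ := h
    constructor
    · intro h1
      apply Subtype.ext
      rw [hv' i, hv' j, h1]
    · intro h1
      apply Subtype.ext
      have h2 : (v' i).1 = (v' j).1 := by rw [h1]
      rw [hv' i, hv' j] at h2
      rw [← sh1_sh1 (β := β) (v i).1, h2, sh1_sh1]
  isVar v v' h i := by
    obtain ⟨β, r, hβ, hr, hv'⟩ := h
    show var1 (v i).1 ↔ var1 (v' i).1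
    rw [hv' i]
    cases (v i).1 <;> exact Iff.rfl
  isAnd v v' h i := by
    obtain ⟨β, r, hβ, hr, hv'⟩ := h
    show and1 (v i).1 ↔ and1 (v' i).1
    rw [hv' i]
    cases (v i).1 <;> exact Iff.rfl
  isOr v v' h i := by
    obtain ⟨β, r, hβ, hr, hv'⟩ := h
    show or1 (v i).1 ↔ or1 (v' i).1
    rw [hv' i]
    cases (v i).1 <;> exact Iff.rfl
  isNot v v' h i := by
    obtain ⟨β, r, hβ, hr, hv'⟩ := h
    show not1 (v i).1 ↔ not1 (v' i).1
    rw [hv' i]
    cases (v i).1 <;> exact Iff.rfl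
  isOut v v' h i := by
    obtain ⟨β, r, hβ, hr, hv'⟩ := h
    show and1 (v i).1 ↔ and1 (v' i).1
    rw [hv' i]
    cases (v i).1 <;> exact Iff.rfl
  wire v v' h i j := by
    obtain ⟨β, r, hβ, hr, hv'⟩ := h
    show w1 (v i).1 (v j).1 ↔ w1 (v' i).1 (v' j).1
    rw [hv' i, hv' j]
    exact w1_sh1 _ _
  ext _ _ h i := R1_ext hn h i

theorem R1_start {n : ℕ} (hk : 0 < k) :
    R1 k n (fun _ => ⟨.root, trivial⟩) (fun _ => ⟨.root, trivial⟩) := by
  refine ⟨fun _ _ => 0, ⟨0, hk⟩, ⟨fun _ _ => rfl, fun _ => rfl, ?_⟩, ?_, fun _ => rfl⟩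
  · intro i
    simp only [Finset.sum_const_zero, tgt]
    by_cases h : i.1 = 0
    · rw [if_pos h, if_pos (Fin.ext h)]
      decide
    · rw [if_neg h, if_neg (fun h' => h (congrArg Fin.val h'))]
      decide
  · intro j
    simp [tg1]

theorem R1_comp {n : ℕ} (v : Fin n → U1 k 0) (v' : Fin n → U1 k 1) (h : R1 k n v v')
    (φ : Fin n → Fin n) : R1 k n (v ∘ φ) (v' ∘ φ) := by
  obtain ⟨β, r, hβ, hr, hv'⟩ := h
  exact ⟨β, r, hβ, fun j => hr (φ j), fun j => hv' (φ j)⟩

end kgame

/-- **The first link for reductions definable with counting.** -/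
theorem not_reduces_count_first (c : ℕ → ℕ) (hc : ∃ k, 2 * c k < k) :
    ¬ ReducesCount c (GAMMA 1 2) (GAMMA 1 1) := by
  obtain ⟨k, hk⟩ := hc
  rintro ⟨e, N, F, hF, hred⟩
  have hc2 : 2 ≤ c k := by
    have h1 := (F k 0).a_pos
    have h2 := (F k 0).two_a
    omega
  have hcard : Nat.card (U1 k 0) = Nat.card (U1 k 1) := by
    obtain ⟨f, _⟩ := (game1 (k := k) (n := c k) hk).ext _ _ (R1_start (by omega)) ⟨0, by omega⟩
    exact Nat.card_congr f
  have hA := hred k (U1 k 0) (C1 k 0) (c1_gamma (by omega))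
  have hB := hred k (U1 k 1) (C1 k 1) (c1_gamma (by omega))
  rw [hcard] at hA
  have f0 : Finite ((F k (Nat.card (U1 k 1))).Univ (C1 k 0)) := univ_fin' _ _
  have f1 : Finite ((F k (Nat.card (U1 k 1))).Univ (C1 k 1)) := univ_fin' _ _
  have h1 := hA.2.1 c1_sat
  have h2 := wsat11_tr (F := F k (Nat.card (U1 k 1))) (game1 (k := k) (n := c k) hk) R1_comp
    (R1_start (by omega)) hA.1 hB.1 h1
  rw [param_tr (F := F k (Nat.card (U1 k 1))) (game1 (k := k) (n := c k) hk)
    (R1_start (by omega))] at h2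
  exact c1_unsat (by omega) (hB.2.2 h2)

end Pool.Agent.WSatCount
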