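import Pool.Agent.WSatCount.PathEval
import Pool.Agent.WSatCount.CountDef

/-!
The last link: circuits versus formulas, for reductions definable with full counting.
-/

namespace Pool.Agent.WSatCount.Path

open Pool.Agent.WSatChain Finset

variable {k m n N : ℕ} {s s' : Fin m → ZMod 2} {F : Interp n N}

theorem finite_univ : Finite (F.Univ (srcC k s)) :=
  inferInstanceAs (Finite {p : Fin F.M × (Fin F.a → UU k s) //
    (srcC k s).Sat (F.dom p.1) (F.one p.2)})

/-- weighted satisfiability of the interpreted formula does not depend on the twists -/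
theorem transfer (hk : n ≤ k) (hm : n < m) (hF : (F.apply (srcC k s)).IsFormula)
    (hF' : (F.apply (srcC k s')).IsFormula) {w : ℕ}
    (hm2 : ((w + 1) * (2 * F.a) + 2) * 2 ^ (4 * F.a) < m)
    (h : (F.apply (srcC k s)).WSat w) : (F.apply (srcC k s')).WSat w := by
  classical
  have hfin : Finite (F.Univ (srcC k s)) := finite_univ
  have hfin' : Finite (F.Univ (srcC k s')) := finite_univ
  obtain ⟨val, hv, hout, hcard⟩ := h
  obtain ⟨g0, hg0, hg0u⟩ := hF.out
  have hPf : Fintype {g // (F.apply (srcC k s)).isVar g ∧ val g} := Fintype.ofFinite _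
  let JP : Finset (Fin (m + 1)) := {0, Fin.last m} ∪ (levP (nm g0) ∪
    univ.biUnion fun p : {g // (F.apply (srcC k s)).isVar g ∧ val g} => levP (nm p.1))
  have hJc : JP.card ≤ (w + 1) * (2 * F.a) + 2 := by
    have h1 : (univ.biUnion fun p : {g // (F.apply (srcC k s)).isVar g ∧ val g} =>
        levP (nm p.1)).card ≤ w * (2 * F.a) := by
      refine (Finset.card_biUnion_le_card_mul _ _ (2 * F.a) fun p _ => card_levP _).trans ?_
      rw [Finset.card_univ, ← Nat.card_eq_fintype_card, hcard]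
    have h2 := card_levP (nm g0)
    have h3 : ({0, Fin.last m} : Finset (Fin (m + 1))).card ≤ 2 := Finset.card_le_two
    refine (Finset.card_union_le _ _).trans ?_
    have h4 := Finset.card_union_le (levP (nm g0))
      (univ.biUnion fun p : {g // (F.apply (srcC k s)).isVar g ∧ val g} => levP (nm p.1))
    have h5 : (w + 1) * (2 * F.a) = w * (2 * F.a) + 2 * F.a := by ring
    omega
  obtain ⟨ψ₀, e0, el, hG⟩ := exists_potential JP (4 * F.a) (phi s s' (Fin.last m))
    (lt_of_le_of_lt (Nat.mul_le_mul_right _ hJc) hm2)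
  have h0 : (0 : Fin (m + 1)) ∈ JP :=
    Finset.mem_union_left _ (Finset.mem_insert_self _ _)
  have hl : Fin.last m ∈ JP :=
    Finset.mem_union_left _ (Finset.mem_insert_of_mem (Finset.mem_singleton_self _))
  have hg0J : levP (nm g0) ⊆ JP := fun j hj =>
    Finset.mem_union_right _ (Finset.mem_union_left _ hj)
  have hP : ∀ p : {g // (F.apply (srcC k s)).isVar g ∧ val g}, levP (nm p.1) ⊆ JP :=
    fun p j hj => Finset.mem_union_right _ (Finset.mem_union_right _
      (Finset.mem_biUnion.2 ⟨p, Finset.mem_univ _, hj⟩))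
  have hends : Ends s s' ψ₀ := ⟨e0, el⟩
  have hsub : ∀ {p : NP k m F}, levP p ⊆ JP → JP ∪ levP p ⊆ JP := fun h =>
    Finset.union_subset subset_rfl h
  have hconP : ∀ p : {g // (F.apply (srcC k s)).isVar g ∧ val g},
      ConP (TT k s s' ψ₀) s s' (nm p.1) := fun p =>
    TTP_con hends h0 hl (hG.mono le_rfl (hsub (hP p)))
  let P' : F.Univ (srcC k s') → Prop := fun q' =>
    ∃ p : {g // (F.apply (srcC k s)).isVar g ∧ val g}, nm q' = actP (TT k s s' ψ₀) (nm p.1)
  obtain ⟨val', hv', hval'⟩ := eval_exists hF'.toIsCircuit P'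
  have hvar : ∀ (q : F.Univ (srcC k s)) (q' : F.Univ (srcC k s')) (ψ : Fin (m + 1) → ZMod 2),
      (F.apply (srcC k s)).isVar q → (∀ j ∈ JP, ψ j = ψ₀ j) →
      ConP (TT k s s' ψ) s s' (nm q) → nm q' = actP (TT k s s' ψ) (nm q) →
      (val q ↔ val' q') := by
    intro q q' ψ hqv hψ hcon hq
    have hq'v : (F.apply (srcC k s')).isVar q' := (tr_sat hk hm hcon hq F.isVar).1 hqv
    rw [hval' q' hq'v]
    constructor
    · intro h
      refine ⟨⟨q, hqv, h⟩, ?_⟩
      rw [hq]
      exact TTP_congr fun j hj => hψ j (hP ⟨q, hqv, h⟩ hj)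
    · rintro ⟨p, hp⟩
      have h1 : levP (nm q) = levP (nm p.1) := by
        rw [← levP_act (T := TT k s s' ψ), ← hq, hp, levP_act]
      have h2 : actP (TT k s s' ψ) (nm q) = actP (TT k s s' ψ₀) (nm q) :=
        TTP_congr fun j hj => hψ j (hP p (h1 ▸ hj))
      have h3 : nm q = nm p.1 := by
        rw [← actP_actP (T := TT k s s' ψ₀) (nm q), ← h2, ← hq, hp, actP_actP]
      rw [nm_inj h3]
      exact p.2.2
  refine ⟨val', hv', ?_, ?_⟩
  · intro g' hg'
    have hcon : ConP (TT k s s' ψ₀) s s' (nm g0) :=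
      TTP_con hends h0 hl (hG.mono le_rfl (hsub hg0J))
    obtain ⟨g1, hg1⟩ := lift hk hm g0 hcon
    have h1 : (F.apply (srcC k s')).isOut g1 := (tr_sat hk hm hcon hg1 F.isOut).1 hg0
    have h2 : g' = g1 := hF'.out.unique hg' h1
    rw [h2]
    exact (eval_eq hk hm hF hF' hv hv' h0 hl hvar g0 g1 ψ₀ hends (fun _ _ => rfl)
      (fun _ => hG.mono (Nat.sub_le _ _) (hsub hg0J)) hcon hg1).1 (hout g0 hg0)
  · rw [← hcard]
    choose f hf using fun p : {g // (F.apply (srcC k s)).isVar g ∧ val g} =>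
      lift hk hm p.1 (hconP p)
    have hfv : ∀ p, (F.apply (srcC k s')).isVar (f p) := fun p =>
      (tr_sat hk hm (hconP p) (hf p) F.isVar).1 p.2.1
    have hft : ∀ p, val' (f p) := fun p => (hval' _ (hfv p)).2 ⟨p, hf p⟩
    refine (Nat.card_congr (Equiv.ofBijective (fun p =>
      (⟨f p, hfv p, hft p⟩ : {g // (F.apply (srcC k s')).isVar g ∧ val' g})) ⟨?_, ?_⟩)).symm
    · intro p q hpq
      have h1 : f p = f q := congrArg Subtype.val hpq
      apply Subtype.ext
      apply nm_inj
      rw [← actP_actP (T := TT k s s' ψ₀) (nm p.1), ← hf, h1, hf, actP_actP]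
    · rintro ⟨g, hg1, hg2⟩
      obtain ⟨p, hp⟩ := (hval' g hg1).1 hg2
      refine ⟨p, Subtype.ext (nm_inj ?_)⟩
      change nm (f p) = nm g
      rw [hf, hp]

/-- the last link -/
theorem not_reduces_circ_prop (c : ℕ → ℕ) (hc : ∃ k, c k ≤ k) :
    ¬ ReducesCount c CIRC PROP := by
  classical
  obtain ⟨k, hk⟩ := hc
  rintro ⟨e, N, F, hF, hred⟩
  generalize hn : c k = n at hk
  generalize hm : ((e k + 1) * n + 2) * 2 ^ (2 * n) + n + 1 = m
  have hnm : n < m := by omega
  have hm0 : 0 < m := by omega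
  let s' : Fin m → ZMod 2 := Pi.single ⟨0, hm0⟩ 1
  have hs' : ∑ j, s' j ≠ 0 := by
    have h1 : ∑ j, s' j = 1 := by
      simp only [s', Finset.sum_pi_single', Finset.mem_univ, if_true]
    rw [h1]
    decide
  have hn2 : 2 ≤ n := by
    have h1 := (F k 0).a_pos
    have h2 := (F k 0).two_a
    omega
  -- the constant position
  let r0 : UU k (0 : Fin m → ZMod 2) := ⟨.root, trivial⟩
  let r1 : UU k s' := ⟨.root, trivial⟩
  let T0 : Tr k m := ⟨fun _ _ => 0, fun _ => 0, fun _ => Finset.sum_const_zero, rfl, rfl⟩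
  have hR : RR (0 : Fin m → ZMod 2) s' n (fun _ => r0) (fun _ => r1) :=
    ⟨T0, fun _ j hj => by simp [r0, lv] at hj, fun _ => rfl⟩
  have hcard : Nat.card (UU k (0 : Fin m → ZMod 2)) = Nat.card (UU k s') := by
    obtain ⟨f, _⟩ := (game (s := (0 : Fin m → ZMod 2)) (s' := s') hk hnm).ext _ _ hR ⟨0, by omega⟩
    exact Nat.card_congr f
  have h1 := hred k (UU k (0 : Fin m → ZMod 2)) (srcC k 0) (src_isCircuit _)
  have h2 := hred k (UU k s') (srcC k s') (src_isCircuit _)
  rw [← hcard] at h2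
  obtain ⟨hFK, -⟩ := hF k (Nat.card (UU k (0 : Fin m → ZMod 2)))
  generalize F k (Nat.card (UU k (0 : Fin m → ZMod 2))) = G at h1 h2 hFK
  generalize N k (Nat.card (UU k (0 : Fin m → ZMod 2))) = N' at G h1 h2 hFK
  subst hn
  have hpar : G.param (srcC k (0 : Fin m → ZMod 2)) = G.param (srcC k s') := by
    unfold Interp.param
    refine Nat.card_congr (Equiv.subtypeEquivRight fun j => ?_)
    exact (game hk hnm).sentence hR _
  have hpe : G.param (srcC k (0 : Fin m → ZMod 2)) ≤ e k := by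
    refine le_trans ?_ hFK
    unfold Interp.param
    refine (Finite.card_subtype_le _).trans ?_
    rw [Nat.card_fin]
  apply src_unsat (k := k) hs'
  rw [h2.2, ← hpar]
  refine transfer hk hnm h1.1 h2.1 ?_ (h1.2.1 (src_sat k m))
  refine lt_of_le_of_lt ?_ (Nat.lt_of_succ_le (le_trans (Nat.succ_le_succ (Nat.le_add_right _ (c k))) hm.le))
  have ha := G.two_a
  refine Nat.mul_le_mul (Nat.add_le_add_right (Nat.mul_le_mul (by omega) ha) _)
    (Nat.pow_le_pow_right (by norm_num) (by omega))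

end Pool.Agent.WSatCount.Path
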