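import Pool.Agent.WSatCount.Eval
import Pool.Agent.ParityAC.AltR

/-! The interpreted circuits as alternating functions of the hidden bits. -/

namespace Pool.Agent.WSatCount

open Pool.Agent.WSatChain Pool.Agent.ParityAC Finset

theorem univ_fin {U : Type} [Finite U] {c N : ℕ} (F : Interp c N) (C : Circ U) :
    Finite (F.Univ C) := by
  unfold Interp.Univ
  infer_instance

section alt

variable {B : Type} [Fintype B] {s c D k : ℕ} {K : Code B s c D} {n N : ℕ}
  {F : Interp n N}

/-- the positions of the hidden bits -/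
abbrev VV (B : Type) (s : ℕ) : Type := List.Vector B (s + 1)

/-- the hidden bits -/
def bz (x : VV B s → Bool) : List B → ZMod 2 := fun y =>
  if h : y.length = s + 1 then (if x ⟨y, h⟩ then 1 else 0) else 0

/-- the bit `y` is fixed -/
def Fx (ρ : Rst (VV B s)) (y : List B) : Prop := ∀ x x', Ext ρ x → Ext ρ x' → bz x y = bz x' y

/-- the base variables of a name -/
def bl (s : ℕ) (p : NP K k F) : List (VV B s) := (List.finRange F.a).filterMap fun j =>
  match tb (p.2 j) with
  | some y => if h : y.length = s + 1 then some ⟨y, h⟩ else none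
  | none => none

theorem bl_length (p : NP K k F) : (bl s p).length ≤ F.a := by
  refine (List.length_filterMap_le _ _).trans ?_
  rw [List.length_finRange]

theorem bl_fixed {ρ : Rst (VV B s)} {p : NP K k F}
    (h : ∀ v ∈ bl s p, ∃ b, ∀ x, Ext ρ x → x v = b) : ∀ y, tbP p y → Fx ρ y := by
  rintro y ⟨j, hj⟩ x x' hx hx'
  by_cases hy : y.length = s + 1
  · have hm : (⟨y, hy⟩ : VV B s) ∈ bl s p := by
      refine List.mem_filterMap.2 ⟨j, List.mem_finRange j, ?_⟩
      rw [hj]
      simp only [dif_pos hy]
      rfl
    obtain ⟨b, hb⟩ := h _ hm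
    simp only [bz, dif_pos hy, hb x hx, hb x' hx']
  · simp only [bz, dif_neg hy]

theorem con_id {z z' : List B → ZMod 2} {E : Nm k B K.A → Prop}
    (h : ∀ e y, E e → tb e = some y → z y = z' y) : Con K z z' 0 (fun _ => 0) E := by
  refine ⟨?_, ?_⟩
  · intro e y he hy
    rw [h e y he hy]
    simp only [Pi.zero_apply, Finset.sum_const_zero]
    exact (CharTwo.add_self_eq_zero _).symm
  · intro e e' i y _ _ _ _
    simp only [Pi.zero_apply, ev_zero]

theorem shP_zero {p : NP K k F} : shP 0 (fun _ => 0) p = p :=
  shP_id (fun _ _ => rfl) (fun _ _ => rfl)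

section idt

variable {z z' : List B → ZMod 2} {q r : F.Univ (srcC K k z)} {q' r' : F.Univ (srcC K k z')}

theorem con_id1 {p : NP K k F} (h : ∀ y, tbP p y → z y = z' y) :
    Con K z z' 0 (fun _ => 0) (cmp p) := by
  apply con_id
  rintro e y ⟨j, rfl⟩ hy
  exact h y ⟨j, hy⟩

theorem lift_id (hn : n < k) (hc : n ≤ c) (q : F.Univ (srcC K k z))
    (h : ∀ y, tbP (nm q) y → z y = z' y) : ∃ q' : F.Univ (srcC K k z'), nm q' = nm q := by
  obtain ⟨q', hq'⟩ := lift (z' := z') hn hc q (con_id1 h)
  exact ⟨q', by rw [hq', shP_zero]⟩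

theorem gate_id (hn : n < k) (hc : n ≤ c) (hq : nm q' = nm q)
    (h : ∀ y, tbP (nm q) y → z y = z' y) (b : Bool) :
    (F.apply (srcC K k z)).gate b q ↔ (F.apply (srcC K k z')).gate b q' :=
  tr_gate hn hc (con_id1 h) (by rw [shP_zero, hq]) b

theorem var_id (hn : n < k) (hc : n ≤ c) (hq : nm q' = nm q)
    (h : ∀ y, tbP (nm q) y → z y = z' y) :
    (F.apply (srcC K k z)).isVar q ↔ (F.apply (srcC K k z')).isVar q' :=
  tr_var hn hc (con_id1 h) (by rw [shP_zero, hq])

theorem out_id (hn : n < k) (hc : n ≤ c) (hq : nm q' = nm q)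
    (h : ∀ y, tbP (nm q) y → z y = z' y) :
    (F.apply (srcC K k z)).isOut q ↔ (F.apply (srcC K k z')).isOut q' :=
  tr_out hn hc (con_id1 h) (by rw [shP_zero, hq])

theorem wire_id (hn : n < k) (hc : n ≤ c) (hq : nm q' = nm q) (hr : nm r' = nm r)
    (h : ∀ y, tbP (nm q) y → z y = z' y) (h' : ∀ y, tbP (nm r) y → z y = z' y) :
    (F.apply (srcC K k z)).wire q r ↔ (F.apply (srcC K k z')).wire q' r' := by
  refine tr_wire (β := 0) (τ := fun _ => 0) hn hc (con_id ?_) (by rw [shP_zero, hq])
    (by rw [shP_zero, hr])
  rintro e y (⟨j, rfl⟩ | ⟨j, rfl⟩) hy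
  · exact h y ⟨j, hy⟩
  · exact h' y ⟨j, hy⟩

end idt

/-- index type of the names -/
abbrev NX (K : Code B s c D) (k : ℕ) (F : Interp n N) : Type := Fin F.M × (Fin F.a → WF K k)

/-- forget the bound -/
def toNP (r : NX K k F) : NP K k F := (r.1, fun j => (r.2 j).1)

theorem exists_NX {z : List B → ZMod 2} (q : F.Univ (srcC K k z)) :
    ∃ r : NX K k F, toNP r = nm q := ⟨(q.1.1, fun j => toWF (q.1.2 j)), rfl⟩

instance : Finite (NX K k F) := inferInstance

variable {t' d : ℕ}

/-- the evaluation -/
noncomputable def evv (hG : ∀ z, GAMMA t' d _ (F.apply (srcC K k z))) (g : NP K k F → Prop)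
    (z : List B → ZMod 2) : F.Univ (srcC K k z) → Prop :=
  have := univ_fin F (srcC K k z)
  Classical.choose (eval_exists (hG z).1.toIsCircuit (fun q => g (nm q)))

theorem evv_spec (hG : ∀ z, GAMMA t' d _ (F.apply (srcC K k z))) (g : NP K k F → Prop)
    (z : List B → ZMod 2) : (F.apply (srcC K k z)).IsEval (evv hG g z) ∧
    ∀ q, (F.apply (srcC K k z)).isVar q → (evv hG g z q ↔ g (nm q)) :=
  have := univ_fin F (srcC K k z)
  Classical.choose_spec (eval_exists (hG z).1.toIsCircuit (fun q => g (nm q)))

theorem mkEC (hn : n < k) (hc : n ≤ c) (hG : ∀ z, GAMMA t' d _ (F.apply (srcC K k z)))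
    {g : NP K k F → Prop} {z z' : List B → ZMod 2}
    (hfix : ∀ p, g p → ∀ y, tbP p y → z y = z' y) :
    EC z z' F g (evv hG g z) (evv hG g z') where
  hn := hn
  hc := hc
  C := (hG z).1.toIsCircuit
  C' := (hG z').1.toIsCircuit
  f := univ_fin F _
  f' := univ_fin F _
  v := (evv_spec hG g z).1
  v' := (evv_spec hG g z').1
  g1 := (evv_spec hG g z).2
  g1' := (evv_spec hG g z').2
  fix := hfix

/-- the value at a name -/
def valP (hG : ∀ z, GAMMA t' d _ (F.apply (srcC K k z))) (g : NP K k F → Prop)
    (p : NP K k F) (x : VV B s → Bool) : Prop :=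
  ∃ q : F.Univ (srcC K k (bz x)), nm q = p ∧ evv hG g (bz x) q

theorem valP_iff {hG : ∀ z, GAMMA t' d _ (F.apply (srcC K k z))} {g : NP K k F → Prop}
    {p : NP K k F} {x : VV B s → Bool} {q : F.Univ (srcC K k (bz x))} (h : nm q = p) :
    valP hG g p x ↔ evv hG g (bz x) q := by
  constructor
  · rintro ⟨q', h1, h2⟩
    rw [nm_inj (h.trans h1.symm)]
    exact h2
  · intro h1
    exact ⟨q, h, h1⟩

omit [Fintype B] in
theorem ext_self (ρ : Rst (VV B s)) : Ext ρ (fun v => (ρ v).getD false) := by
  intro v b hv
  simp only [hv, Option.getD_some]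

open Classical in
theorem evR (hn : n < k) (hc : n ≤ c) (hD : 1 ≤ D) (hd : d ≤ D) {S : ℕ} (hS : 1 ≤ S)
    (hNX : Nat.card (NX K k F) ≤ S)
    (hG : ∀ z, GAMMA t' d _ (F.apply (srcC K k z))) (g : NP K k F → Prop) :
    ∀ (r : ℕ) (b : Bool) (ρ : Rst (VV B s)) (p : NP K k F),
      (∀ x, Ext ρ x → ∃ q : F.Univ (srcC K k (bz x)), nm q = p ∧
        (F.apply (srcC K k (bz x))).InLevel d b (r + 1) q) →
      (∀ y, tbP p y → Fx ρ y) → (∀ p', g p' → ∀ y, tbP p' y → Fx ρ y) →
      InR ρ S (r * F.a) r b (fun x => decide (valP hG g p x)) := by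
  intro r
  induction r with
  | zero =>
    intro b ρ p hp hpf hgf
    refine InR.const hS _ (decide (valP hG g p (fun v => (ρ v).getD false))) _ _ ?_
    intro x hx
    obtain ⟨q, hq1, hq2⟩ := hp x hx
    obtain ⟨q0, hq01, hq02⟩ := hp _ (ext_self ρ)
    have E := mkEC (z := bz x) (z' := bz fun v => (ρ v).getD false) hn hc hG (g := g)
      (fun p' hp' y hy => hgf p' hp' y hy x _ hx (ext_self ρ))
    have h1 := E.lev1 hD hd (q := q) (q' := q0) (b := b)
      (fun y hy => hpf y (by rw [← hq1]; exact hy) x _ hx (ext_self ρ))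
      (hq01.trans hq1.symm) hq2 hq02
    rw [decide_eq_decide, valP_iff hq1, valP_iff hq01]
    exact h1
  | succ r ih =>
    intro b ρ p hp hpf hgf
    obtain ⟨q0, hq01, hq02⟩ := hp _ (ext_self ρ)
    by_cases hgate : (F.apply (srcC K k (bz fun v => (ρ v).getD false))).gate b q0
    · -- a gate of the right kind
      have hgx : ∀ x, Ext ρ x → ∀ q : F.Univ (srcC K k (bz x)), nm q = p →
          (F.apply (srcC K k (bz x))).gate b q := by
        intro x hx q hq
        refine (gate_id hn hc (q := q0) (hq.trans hq01.symm) ?_ b).1 hgate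
        intro y hy
        exact hpf y (by rw [← hq01]; exact hy) _ x (ext_self ρ) hx
      have : Fintype (NX K k F) := Fintype.ofFinite _
      let u : NX K k F → (VV B s → Bool) → Bool := fun r x =>
        decide (if b then (∀ q0 q : F.Univ (srcC K k (bz x)), nm q0 = p → nm q = toNP r →
            (F.apply (srcC K k (bz x))).wire q0 q → evv hG g (bz x) q)
          else ∃ q0 q : F.Univ (srcC K k (bz x)), nm q0 = p ∧ nm q = toNP r ∧
            (F.apply (srcC K k (bz x))).wire q0 q ∧ evv hG g (bz x) q)
      refine InR.gate hS (ι := NX K k F) (by rw [← Nat.card_eq_fintype_card]; exact hNX) u ?_ ?_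
      · intro w
        have hmono : r * F.a + (bl s (toNP w)).length ≤ (r + 1) * F.a := by
          have := bl_length (s := s) (toNP w)
          have h2 : (r + 1) * F.a = r * F.a + F.a := by ring
          omega
        refine InR.mono (InR.queryL (bl s (toNP w)) ρ ?_) hmono
        intro ρ' hρ' hfix
        have hwf : ∀ y, tbP (toNP w) y → Fx ρ' y := bl_fixed hfix
        have hpf' : ∀ y, tbP p y → Fx ρ' y := fun y hy x x' hx hx' =>
          hpf y hy x x' (hρ' x hx) (hρ' x' hx')
        have hgf' : ∀ p', g p' → ∀ y, tbP p' y → Fx ρ' y := fun p' hp' y hy x x' hx hx' =>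
          hgf p' hp' y hy x x' (hρ' x hx) (hρ' x' hx')
        by_cases hwire : ∃ (q1 q2 : F.Univ (srcC K k (bz fun v => (ρ' v).getD false))),
            nm q1 = p ∧ nm q2 = toNP w ∧
            (F.apply (srcC K k (bz fun v => (ρ' v).getD false))).wire q1 q2
        · obtain ⟨q1, q2, h1, h2, h3⟩ := hwire
          have hall : ∀ x, Ext ρ' x → ∃ q1 q2 : F.Univ (srcC K k (bz x)), nm q1 = p ∧
              nm q2 = toNP w ∧ (F.apply (srcC K k (bz x))).wire q1 q2 := by
            intro x hx
            have e1 : ∀ y, tbP (nm q1) y → bz (fun v => (ρ' v).getD false) y = bz x y :=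
              fun y hy => hpf' y (by rw [← h1]; exact hy) _ _ (ext_self ρ') hx
            have e2 : ∀ y, tbP (nm q2) y → bz (fun v => (ρ' v).getD false) y = bz x y :=
              fun y hy => hwf y (by rw [← h2]; exact hy) _ _ (ext_self ρ') hx
            obtain ⟨q1', h1'⟩ := lift_id hn hc q1 e1
            obtain ⟨q2', h2'⟩ := lift_id hn hc q2 e2
            exact ⟨q1', q2', h1'.trans h1, h2'.trans h2, (wire_id hn hc h1' h2' e1 e2).1 h3⟩
          have hIH := ih (!b) ρ' (toNP w) ?_ hwf hgf'
          · refine hIH.congr ?_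
            intro x hx
            obtain ⟨q1', q2', h1', h2', h3'⟩ := hall x hx
            show decide _ = decide _
            rw [decide_eq_decide, valP_iff h2']
            cases b
            · simp only [Bool.false_eq_true, if_false]
              constructor
              · intro hv
                exact ⟨q1', q2', h1', h2', h3', hv⟩
              · rintro ⟨_, q, _, hq, _, hv⟩
                rw [nm_inj (h2'.trans hq.symm)]
                exact hv
            · simp only [if_true]
              constructor
              · intro hv _ q _ hq _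
                rw [nm_inj (hq.trans h2'.symm)]
                exact hv
              · intro hv
                exact hv q1' q2' h1' h2' h3'
          · intro x hx
            obtain ⟨q1', q2', h1', h2', h3'⟩ := hall x hx
            refine ⟨q2', h2', ?_⟩
            obtain ⟨q3, h4, h5⟩ := hp x (hρ' x hx)
            have h6 : q3 = q1' := nm_inj (h4.trans h1'.symm)
            subst h6
            have := univ_fin F (srcC K k (bz x))
            exact level_child (hG _).1.toIsCircuit _ _ _ h5 (hgx x (hρ' x hx) q3 h4) q2' h3'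
        · -- no wire
          have hnone : ∀ x, Ext ρ' x → ¬ ∃ q1 q2 : F.Univ (srcC K k (bz x)), nm q1 = p ∧
              nm q2 = toNP w ∧ (F.apply (srcC K k (bz x))).wire q1 q2 := by
            rintro x hx ⟨q1, q2, h1, h2, h3⟩
            apply hwire
            have e1 : ∀ y, tbP (nm q1) y → bz x y = bz (fun v => (ρ' v).getD false) y :=
              fun y hy => hpf' y (by rw [← h1]; exact hy) _ _ hx (ext_self ρ')
            have e2 : ∀ y, tbP (nm q2) y → bz x y = bz (fun v => (ρ' v).getD false) y :=
              fun y hy => hwf y (by rw [← h2]; exact hy) _ _ hx (ext_self ρ')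
            obtain ⟨q1', h1'⟩ := lift_id hn hc q1 e1
            obtain ⟨q2', h2'⟩ := lift_id hn hc q2 e2
            exact ⟨q1', q2', h1'.trans h1, h2'.trans h2, (wire_id hn hc h1' h2' e1 e2).1 h3⟩
          refine InR.const hS _ b _ _ ?_
          intro x hx
          have h1 := hnone x hx
          show decide _ = b
          cases b
          · simp only [Bool.false_eq_true, if_false, decide_eq_false_iff_not]
            rintro ⟨q1, q2, h2, h3, h4, _⟩
            exact h1 ⟨q1, q2, h2, h3, h4⟩
          · simp only [if_true, decide_eq_true_eq]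
            intro q1 q2 h2 h3 h4
            exact absurd ⟨q1, q2, h2, h3, h4⟩ h1
      · intro x hx
        obtain ⟨q, hq1, _⟩ := hp x hx
        have hg := hgx x hx q hq1
        have hev := (evv_spec hG g (bz x)).1
        rw [decide_eq_true_eq, valP_iff hq1]
        cases b
        · simp only [Bool.false_eq_true, if_false]
          rw [hev.or q hg]
          constructor
          · rintro ⟨h, hw, hv⟩
            obtain ⟨w, hw'⟩ := exists_NX h
            refine ⟨w, ?_⟩
            simp only [u, Bool.false_eq_true, if_false, decide_eq_true_eq]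
            exact ⟨q, h, hq1, hw'.symm, hw, hv⟩
          · rintro ⟨w, hw⟩
            simp only [u, Bool.false_eq_true, if_false, decide_eq_true_eq] at hw
            obtain ⟨q1, q2, h1, h2, h3, h4⟩ := hw
            refine ⟨q2, ?_, h4⟩
            rw [nm_inj (hq1.trans h1.symm)]
            exact h3
        · simp only [if_true]
          rw [hev.and q hg]
          constructor
          · intro h w
            simp only [u, if_true, decide_eq_true_eq]
            intro q1 q2 h1 h2 h3
            apply h
            rw [nm_inj (hq1.trans h1.symm)]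
            exact h3
          · intro h q2 h2
            obtain ⟨w, hw⟩ := exists_NX q2
            have h3 := h w
            simp only [u, if_true, decide_eq_true_eq] at h3
            exact h3 q q2 hq1 hw.symm h2
    · -- a node of the other kind
      have h1 := ih (!b) ρ p ?_ hpf hgf
      · refine (h1.raise hS).mono ?_
        exact Nat.mul_le_mul_right _ (Nat.le_succ _)
      · intro x hx
        obtain ⟨q, hq1, hq2⟩ := hp x hx
        refine ⟨q, hq1, ?_⟩
        rcases hq2 with h | ⟨h, _⟩
        · exact h
        · exfalso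
          apply hgate
          refine (gate_id hn hc (q := q) (hq01.trans hq1.symm) ?_ b).1 h
          intro y hy
          exact hpf y (by rw [← hq1]; exact hy) x _ hx (ext_self ρ)

end alt

end Pool.Agent.WSatCount
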