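import Pool.Agent.WSatCount.AltEval

/-! The whole reduction as an alternating function of the hidden bits. -/

namespace Pool.Agent.WSatCount

open Pool.Agent.WSatChain Pool.Agent.ParityAC Finset

section top

variable {B : Type} [Fintype B] {s c D k : ℕ} {K : Code B s c D} {n N : ℕ}
  {F : Interp n N} {t' d κ : ℕ}

/-- the guess as a set of names -/
def gp (g : Fin κ → NX K k F) : NP K k F → Prop := fun p => ∃ j, p = toNP (g j)

/-- the guess is correct -/
def stat (i : (Fin κ → NX K k F) × NX K k F) (z : List B → ZMod 2) : Prop :=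
  Function.Injective (fun j => toNP (i.1 j)) ∧
  (∀ j, ∃ q : F.Univ (srcC K k z), nm q = toNP (i.1 j) ∧ (F.apply (srcC K k z)).isVar q) ∧
  ∃ q : F.Univ (srcC K k z), nm q = toNP i.2 ∧ (F.apply (srcC K k z)).isOut q

theorem stat_tr (hn : n < k) (hc : n ≤ c) {i : (Fin κ → NX K k F) × NX K k F}
    {z z' : List B → ZMod 2} (h1 : ∀ j y, tbP (toNP (i.1 j)) y → z y = z' y)
    (h2 : ∀ y, tbP (toNP i.2) y → z y = z' y) (h : stat i z) : stat i z' := by
  obtain ⟨ha, hb, q, hq1, hq2⟩ := h
  refine ⟨ha, ?_, ?_⟩
  · intro j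
    obtain ⟨q, hq1, hq2⟩ := hb j
    have e : ∀ y, tbP (nm q) y → z y = z' y := fun y hy => h1 j y (by rw [← hq1]; exact hy)
    obtain ⟨q', hq'⟩ := lift_id (z' := z') hn hc q e
    exact ⟨q', hq'.trans hq1, (var_id hn hc hq' e).1 hq2⟩
  · have e : ∀ y, tbP (nm q) y → z y = z' y := fun y hy => h2 y (by rw [← hq1]; exact hy)
    obtain ⟨q', hq'⟩ := lift_id (z' := z') hn hc q e
    exact ⟨q', hq'.trans hq1, (out_id hn hc hq' e).1 hq2⟩

theorem wsat_iff (hG : ∀ z, GAMMA t' d _ (F.apply (srcC K k z))) (x : VV B s → Bool) :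
    (F.apply (srcC K k (bz x))).WSat κ ↔ ∃ i : (Fin κ → NX K k F) × NX K k F,
      stat i (bz x) ∧ valP hG (gp i.1) (toNP i.2) x := by
  have hfin := univ_fin F (srcC K k (bz x))
  have hC := (hG (bz x)).1.toIsCircuit
  constructor
  · rintro ⟨val, hv, hout, hcard⟩
    let e : Fin κ ≃ {q // (F.apply (srcC K k (bz x))).isVar q ∧ val q} :=
      (Finite.equivFinOfCardEq hcard).symm
    choose g hg using fun j => exists_NX (e j).1
    obtain ⟨o, ho, _⟩ := hC.out
    obtain ⟨o', ho'⟩ := exists_NX o
    refine ⟨(g, o'), ⟨?_, ?_, o, ho'.symm, ho⟩, ?_⟩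
    · intro j j' h
      have h1 : nm (e j).1 = nm (e j').1 := by
        rw [← hg, ← hg]
        exact h
      exact e.injective (Subtype.ext (nm_inj h1))
    · intro j
      exact ⟨(e j).1, (hg j).symm, (e j).2.1⟩
    · rw [valP_iff ho'.symm]
      have hev := evv_spec hG (gp g) (bz x)
      have h1 := eval_unique hC hev.1 hv ?_ o
      · exact h1.2 (hout o ho)
      · intro q hq
        rw [hev.2 q hq]
        constructor
        · rintro ⟨j, hj⟩
          have h2 : q = (e j).1 := nm_inj (hj.trans (hg j))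
          rw [h2]
          exact (e j).2.2
        · intro h2
          refine ⟨e.symm ⟨q, hq, h2⟩, ?_⟩
          rw [hg, Equiv.apply_symm_apply]
  · rintro ⟨⟨g, o⟩, ⟨hinj, hvar, q0, hq0, hout⟩, hval⟩
    have hev := evv_spec hG (gp g) (bz x)
    refine ⟨evv hG (gp g) (bz x), hev.1, ?_, ?_⟩
    · intro q hq
      have : q = q0 := hC.out.unique hq hout
      rw [this]
      exact (valP_iff hq0).1 hval
    · choose q hq1 hq2 using hvar
      let φ : Fin κ → {q // (F.apply (srcC K k (bz x))).isVar q ∧ evv hG (gp g) (bz x) q} :=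
        fun j => ⟨q j, hq2 j, (hev.2 _ (hq2 j)).2 ⟨j, hq1 j⟩⟩
      have hφ : Function.Bijective φ := by
        constructor
        · intro j j' h
          have h1 : q j = q j' := congrArg Subtype.val h
          apply hinj
          show toNP (g j) = toNP (g j')
          rw [← hq1, ← hq1, h1]
        · rintro ⟨r, hr1, hr2⟩
          obtain ⟨j, hj⟩ := (hev.2 _ hr1).1 hr2
          refine ⟨j, Subtype.ext ?_⟩
          exact nm_inj ((hq1 j).trans hj.symm)
      rw [← Nat.card_congr (Equiv.ofBijective φ hφ), Nat.card_fin]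

theorem flatMap_len {ι α : Type} {a : ℕ} (f : ι → List α) (l : List ι) (h : ∀ i, (f i).length ≤ a) :
    (l.flatMap f).length ≤ l.length * a := by
  induction l with
  | nil => simp
  | cons i l ih =>
    rw [List.flatMap_cons, List.length_append, List.length_cons]
    have := h i
    have h2 : (l.length + 1) * a = l.length * a + a := by ring
    omega

open Classical in
/-- the reduction as an alternating function -/
theorem top_alt (hn : n < k) (hc : n ≤ c) (hD : 1 ≤ D) (hd : d ≤ D) {S : ℕ} (hS : 1 ≤ S)
    (hNX : Nat.card (NX K k F) ≤ S) (hNX2 : Nat.card (NX K k F) ^ (κ + 1) ≤ S) {r : ℕ}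
    (hG : ∀ z, GAMMA (r + 1) d _ (F.apply (srcC K k z))) :
    InAlt S ((r + κ + 1) * F.a) (r + 1) false
      (fun x : VV B s → Bool => decide ((F.apply (srcC K k (bz x))).WSat κ)) := by
  apply InR.toAlt
  have : Fintype (NX K k F) := Fintype.ofFinite _
  let u : (Fin κ → NX K k F) × NX K k F → (VV B s → Bool) → Bool := fun i x =>
    decide (stat i (bz x) ∧ valP hG (gp i.1) (toNP i.2) x)
  refine InR.gate hS (ι := (Fin κ → NX K k F) × NX K k F) ?_ u ?_ ?_
  · rw [Fintype.card_prod, Fintype.card_fun, Fintype.card_fin, ← Nat.card_eq_fintype_card,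
      ← pow_succ]
    exact hNX2
  · intro i
    let A : List (VV B s) := bl s (toNP i.2) ++
      (List.finRange κ).flatMap (fun j => bl s (toNP (i.1 j)))
    have hA : r * F.a + A.length ≤ (r + κ + 1) * F.a := by
      have h1 := bl_length (s := s) (toNP i.2)
      have h2 := flatMap_len (a := F.a) (fun j => bl s (toNP (i.1 j))) (List.finRange κ)
        (fun j => bl_length _)
      rw [List.length_finRange] at h2
      have h3 : (r + κ + 1) * F.a = r * F.a + κ * F.a + F.a := by ring
      have h4 : A.length = (bl s (toNP i.2)).length +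
        ((List.finRange κ).flatMap (fun j => bl s (toNP (i.1 j)))).length := List.length_append
      omega
    refine InR.mono (InR.queryL A _ ?_) hA
    intro ρ hρ hfix
    have hf1 : ∀ y, tbP (toNP i.2) y → Fx ρ y :=
      bl_fixed fun v hv => hfix v (List.mem_append_left _ hv)
    have hf2 : ∀ j y, tbP (toNP (i.1 j)) y → Fx ρ y := fun j =>
      bl_fixed fun v hv => hfix v (List.mem_append_right _
        (List.mem_flatMap.2 ⟨j, List.mem_finRange j, hv⟩))
    by_cases hst : stat i (bz fun v => (ρ v).getD false)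
    · have hall : ∀ x, Ext ρ x → stat i (bz x) := by
        intro x hx
        refine stat_tr hn hc ?_ ?_ hst
        · intro j y hy
          exact hf2 j y hy _ x (ext_self ρ) hx
        · intro y hy
          exact hf1 y hy _ x (ext_self ρ) hx
      refine InR.congr (evR hn hc hD hd hS hNX hG (gp i.1) r true ρ (toNP i.2) ?_ hf1 ?_) ?_
      · intro x hx
        obtain ⟨_, _, q, hq1, hq2⟩ := hall x hx
        exact ⟨q, hq1, (hG _).2 q hq2⟩
      · rintro p' ⟨j, rfl⟩ y hy
        exact hf2 j y hy
      · intro x hx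
        show decide _ = decide _
        rw [decide_eq_decide]
        exact ⟨fun h => ⟨hall x hx, h⟩, fun h => h.2⟩
    · refine InR.const hS _ false _ _ ?_
      intro x hx
      show decide _ = false
      rw [decide_eq_false_iff_not]
      rintro ⟨h, _⟩
      apply hst
      refine stat_tr hn hc ?_ ?_ h
      · intro j y hy
        exact hf2 j y hy x _ hx (ext_self ρ)
      · intro y hy
        exact hf1 y hy x _ hx (ext_self ρ)
  · intro x _
    simp only [u, decide_eq_true_eq, Bool.false_eq_true, if_false]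
    exact wsat_iff hG x

theorem bz_update [DecidableEq B] (x : VV B s → Bool) (v : VV B s) :
    bz (Function.update x v (!x v)) = fun y => bz x y + (if y = v.1 then 1 else 0) := by
  funext y
  by_cases hy : y.length = s + 1
  · simp only [bz, dif_pos hy]
    by_cases hv : y = v.1
    · subst hv
      rw [if_pos rfl]
      have h1 : (⟨v.1, hy⟩ : VV B s) = v := rfl
      rw [h1, Function.update_self]
      cases x v
      · decide
      · decide
    · have h1 : (⟨y, hy⟩ : VV B s) ≠ v := fun h => hv (congrArg Subtype.val h)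
      have h2 : Function.update x v (!x v) (⟨y, hy⟩ : VV B s) = x ⟨y, hy⟩ :=
        Function.update_of_ne h1 _ _
      rw [if_neg hv, add_zero]
      exact congrArg (fun b : Bool => if b = true then (1 : ZMod 2) else 0) h2
  · have hv : y ≠ v.1 := by
      rintro rfl
      exact hy v.2
    simp only [bz, dif_neg hy, if_neg hv, add_zero]

open Classical in
theorem flip_parity : Flip (fun x : VV B s → Bool => decide (bp (bz x) (s + 1) [] = 0)) := by
  intro x v
  show decide (bp (bz (Function.update x v (!x v))) (s + 1) [] = 0) =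
    !(decide (bp (bz x) (s + 1) [] = 0))
  have h1 : bp (bz (Function.update x v (!x v))) (s + 1) [] = bp (bz x) (s + 1) [] + 1 := by
    rw [bz_update, bp_add, bp_single, if_pos]
    exact ⟨v.1, v.2, by simp⟩
  rw [h1]
  generalize bp (bz x) (s + 1) [] = a
  revert a
  decide

/-- the parameter does not depend on the hidden bits -/
theorem param_const (hn : n < k) (hc : n ≤ c) (z z' : List B → ZMod 2) :
    F.param (srcC K k z) = F.param (srcC K k z') := by
  unfold Interp.param
  have h : ∀ j, (∀ v, (srcC K k z).Sat (F.par j) v) ↔ ∀ v, (srcC K k z').Sat (F.par j) v :=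
    fun j => (game K hn hc z z').sentence RR_start (F.par j)
  exact Nat.card_congr (Equiv.subtypeEquivRight h)

/-- the contradiction -/
theorem contra (hn : n < k) (hc : n ≤ c) (hD : 1 ≤ D) (hd : d ≤ D) {S σ : ℕ} (hσ : 1 ≤ σ)
    (hNX : (Nat.card (NX K k F) + 1) ^ (F.K + 1) ≤ S)
    (hG : ∀ z, GAMMA (s + 1) d _ (F.apply (srcC K k z)))
    (hred : ∀ z, (srcC K k z).WSat k ↔ (F.apply (srcC K k z)).WSat (F.param (srcC K k z)))
    (hSσ : S ^ s < 2 ^ σ)
    (hbnd : bnd σ (s + 1) ((s + F.K + 1) * F.a) ≤ Fintype.card B ^ (s + 1)) : False := by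
  classical
  have hκ : F.param (srcC K k 0) ≤ F.K := by
    unfold Interp.param
    refine (Finite.card_subtype_le _).trans ?_
    rw [Nat.card_fin]
  have hS : 1 ≤ S := (Nat.one_le_pow _ _ (Nat.succ_pos _)).trans hNX
  have hNX1 : Nat.card (NX K k F) ≤ S := by
    refine le_trans ?_ hNX
    rw [pow_succ]
    calc Nat.card (NX K k F) ≤ 1 * (Nat.card (NX K k F) + 1) := by omega
      _ ≤ _ := Nat.mul_le_mul_right _ (Nat.one_le_pow _ _ (Nat.succ_pos _))
  have hNX2 : Nat.card (NX K k F) ^ (F.param (srcC K k 0) + 1) ≤ S := by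
    refine le_trans ?_ hNX
    calc Nat.card (NX K k F) ^ (F.param (srcC K k 0) + 1)
        ≤ (Nat.card (NX K k F) + 1) ^ (F.param (srcC K k 0) + 1) :=
          Nat.pow_le_pow_left (Nat.le_succ _) _
      _ ≤ _ := Nat.pow_le_pow_right (Nat.succ_pos _) (by omega)
  have h1 := top_alt (κ := F.param (srcC K k 0)) hn hc hD hd hS hNX1 hNX2 hG
  have h2 : (fun x : VV B s → Bool => decide ((F.apply (srcC K k (bz x))).WSat
      (F.param (srcC K k 0)))) = fun x => decide (bp (bz x) (s + 1) [] = 0) := by
    funext x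
    rw [decide_eq_decide, ← src_wsat_parity (K := K) (k := k) (by omega), hred,
      param_const hn hc (bz x) 0]
  rw [h2] at h1
  have h3 : (s + F.param (srcC K k 0) + 1) * F.a ≤ (s + F.K + 1) * F.a :=
    Nat.mul_le_mul_right _ (by omega)
  refine no_flip S σ hσ (s + 1) (VV B s) inferInstance inferInstance ((s + F.K + 1) * F.a) false _
    (by omega) (h1.mono h3) flip_parity hSσ ?_
  rw [card_vector]
  exact hbnd

end top

end Pool.Agent.WSatCount
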