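import Pool.Agent.WSatCount.Game

/-! Bijections between tuples, and between the nodes of interpreted circuits. -/

namespace Pool.Agent.WSatCount

open Pool.Agent.WSatChain

variable {U U' : Type} {C : Circ U} {C' : Circ U'} {n : ℕ}
  {R : (Fin n → U) → (Fin n → U') → Prop}

/-- put the tuple `x` at the positions `o, …, o + j - 1` -/
def upd {U : Type} (o j : ℕ) (v : Fin n → U) (x : Fin j → U) : Fin n → U := fun i =>
  if h : o ≤ i.1 ∧ i.1 - o < j then x ⟨i.1 - o, h.2⟩ else v i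

theorem upd_zero {U : Type} (o : ℕ) (v : Fin n → U) (x : Fin 0 → U) : upd o 0 v x = v := by
  funext i
  unfold upd
  rw [dif_neg]
  rintro ⟨_, h⟩
  omega

theorem upd_succ {U : Type} (o j : ℕ) (v : Fin n → U) (x : Fin (j + 1) → U) (h : o + j < n) :
    upd o (j + 1) v x =
      Function.update (upd o j v (fun i => x i.castSucc)) ⟨o + j, h⟩ (x (Fin.last j)) := by
  funext i
  by_cases hi : i = ⟨o + j, h⟩
  · subst hi
    rw [Function.update_self]
    unfold upd
    rw [dif_pos ⟨by simp, by simp⟩]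
    congr 1
    apply Fin.ext
    simp
  · rw [Function.update_of_ne hi]
    have h1 : i.1 ≠ o + j := fun h => hi (Fin.ext h)
    unfold upd
    by_cases h2 : o ≤ i.1 ∧ i.1 - o < j
    · rw [dif_pos ⟨h2.1, by omega⟩, dif_pos h2]
      rfl
    · rw [dif_neg (by omega), dif_neg h2]

theorem GameSys.bij (G : GameSys C C' n R) (o : ℕ) {v : Fin n → U} {v' : Fin n → U'}
    (h : R v v') : ∀ j : ℕ, o + j ≤ n → ∃ Ψ : (Fin j → U) ≃ (Fin j → U'),
      ∀ x, R (upd o j v x) (upd o j v' (Ψ x)) := by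
  intro j
  induction j with
  | zero =>
    intro _
    refine ⟨Equiv.ofUnique _ _, ?_⟩
    intro x
    rw [upd_zero, upd_zero]
    exact h
  | succ j ih =>
    intro hj
    obtain ⟨Ψ, hΨ⟩ := ih (by omega)
    choose f hf using fun x => G.ext _ _ (hΨ x) ⟨o + j, hj⟩
    refine ⟨(Fin.snocEquiv fun _ => U).symm.trans
      (((Equiv.prodComm _ _).trans ((Ψ.prodShear f).trans (Equiv.prodComm _ _))).trans
        (Fin.snocEquiv fun _ => U')), ?_⟩
    intro x
    rw [upd_succ o j v x hj, upd_succ o j v' _ hj]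
    have h1 := hf (fun i => x i.castSucc) (x (Fin.last j))
    convert h1 using 2
    · congr 1
      funext i
      show Fin.snoc (α := fun _ => U') (Ψ fun i => x i.castSucc) _ i.castSucc = _
      rw [Fin.snoc_castSucc]
    · show Fin.snoc (α := fun _ => U') (Ψ fun i => x i.castSucc) _ (Fin.last j) = _
      rw [Fin.snoc_last]
      rfl

variable {N : ℕ} {F : Interp n N}

theorem upd_two {U : Type} (u w : Fin F.a → U) :
    upd F.a F.a (F.one u) w = F.two u w := by
  funext i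
  unfold upd Interp.one Interp.two
  by_cases h1 : i.1 < F.a
  · rw [dif_neg (by omega), dif_pos h1, dif_pos h1]
  · rw [dif_neg h1]
    by_cases h2 : i.1 - F.a < F.a
    · rw [dif_pos ⟨by omega, h2⟩]
      rw [dif_neg h1, dif_pos h2]
    · rw [dif_neg (by omega), dif_neg h1, dif_neg h2]

variable (F) in
theorem upd_comp :
    ∃ φ : Fin n → Fin n, ∀ (U : Type) (v : Fin n → U) (u : Fin F.a → U),
      (upd 0 F.a v u) ∘ φ = F.one u := by
  have ha := F.a_pos
  have hn : 0 < n := by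
    have := F.two_a
    omega
  refine ⟨fun i => if i.1 < F.a then i else ⟨0, hn⟩, ?_⟩
  intro U v u
  funext i
  show upd 0 F.a v u (if i.1 < F.a then i else ⟨0, hn⟩) = F.one u i
  by_cases h : i.1 < F.a
  · rw [if_pos h]
    unfold upd Interp.one
    rw [dif_pos ⟨by omega, by omega⟩, dif_pos h]
    rfl
  · rw [if_neg h]
    unfold upd Interp.one
    rw [dif_pos ⟨by omega, by simpa using ha⟩, dif_neg h]
    rfl

variable (F) in
theorem one_comp : ∃ φ : Fin n → Fin n, ∀ (U : Type) (u w : Fin F.a → U),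
    (F.two u w) ∘ φ = F.one w := by
  have ha := F.a_pos
  have h2a := F.two_a
  refine ⟨fun i => if h : i.1 < F.a then ⟨i.1 + F.a, by omega⟩ else ⟨F.a, by omega⟩, ?_⟩
  intro U u w
  funext i
  show F.two u w (if h : i.1 < F.a then ⟨i.1 + F.a, by omega⟩ else ⟨F.a, by omega⟩) = F.one w i
  by_cases h : i.1 < F.a
  · rw [dif_pos h]
    unfold Interp.one Interp.two
    simp only
    rw [dif_neg (by omega), dif_pos (by omega), dif_pos h]
    congr 1
    apply Fin.ext
    show i.1 + F.a - F.a = i.1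
    omega
  · rw [dif_neg h]
    unfold Interp.one Interp.two
    simp only
    rw [dif_neg (by omega), dif_pos (by omega), dif_neg h]
    congr 1
    apply Fin.ext
    show F.a - F.a = 0
    omega

variable (F) in
theorem swap_comp : ∃ φ : Fin n → Fin n, ∀ (U : Type) (u w : Fin F.a → U),
    (F.two u w) ∘ φ = F.two w u := by
  have ha := F.a_pos
  have h2a := F.two_a
  refine ⟨fun i => if h : i.1 < F.a then ⟨i.1 + F.a, by omega⟩ else
    if h' : i.1 - F.a < F.a then ⟨i.1 - F.a, by omega⟩ else ⟨F.a, by omega⟩, ?_⟩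
  intro U u w
  funext i
  show F.two u w (if h : i.1 < F.a then ⟨i.1 + F.a, by omega⟩ else
    if h' : i.1 - F.a < F.a then ⟨i.1 - F.a, by omega⟩ else ⟨F.a, by omega⟩) = F.two w u i
  by_cases h : i.1 < F.a
  · rw [dif_pos h]
    unfold Interp.two
    simp only
    rw [dif_neg (by omega), dif_pos (by omega), dif_pos h]
    congr 1
    apply Fin.ext
    show i.1 + F.a - F.a = i.1
    omega
  · rw [dif_neg h]
    by_cases h2 : i.1 - F.a < F.a
    · rw [dif_pos h2]
      unfold Interp.two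
      simp only
      rw [dif_pos h2, dif_neg h, dif_pos h2]
    · rw [dif_neg h2]
      unfold Interp.two
      simp only
      rw [dif_neg (by omega), dif_pos (by omega), dif_neg h, dif_neg h2]
      congr 1
      apply Fin.ext
      show F.a - F.a = 0
      omega

/-- matched nodes -/
def Mt (R : (Fin n → U) → (Fin n → U') → Prop) (F : Interp n N) (q : F.Univ C) (q' : F.Univ C') :
    Prop := q'.1.1 = q.1.1 ∧ R (F.one q.1.2) (F.one q'.1.2)

/-- matched pairs -/
def Mt2 (R : (Fin n → U) → (Fin n → U') → Prop) (F : Interp n N) (q r : F.Univ C)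
    (q' r' : F.Univ C') : Prop :=
  q'.1.1 = q.1.1 ∧ r'.1.1 = r.1.1 ∧ R (F.two q.1.2 r.1.2) (F.two q'.1.2 r'.1.2)

section mt

variable (G : GameSys C C' n R)
  (hcomp : ∀ v v', R v v' → ∀ φ : Fin n → Fin n, R (v ∘ φ) (v' ∘ φ))

include G in
theorem Mt.sat {q : F.Univ C} {q' : F.Univ C'} (h : Mt R F q q') (ψ : Fin F.M → Fml n N) :
    C.Sat (ψ q.1.1) (F.one q.1.2) ↔ C'.Sat (ψ q'.1.1) (F.one q'.1.2) := by
  rw [h.1]
  exact G.sat _ _ _ h.2

include G in
theorem Mt2.wire {q r : F.Univ C} {q' r' : F.Univ C'} (h : Mt2 R F q r q' r') :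
    (F.apply C).wire q r ↔ (F.apply C').wire q' r' := by
  show C.Sat (F.wire q.1.1 r.1.1) _ ↔ C'.Sat (F.wire q'.1.1 r'.1.1) _
  rw [h.1, h.2.1]
  exact G.sat _ _ _ h.2.2

include hcomp in
theorem Mt2.snd {q r : F.Univ C} {q' r' : F.Univ C'} (h : Mt2 R F q r q' r') : Mt R F r r' := by
  obtain ⟨φ, hφ⟩ := one_comp F
  refine ⟨h.2.1, ?_⟩
  have := hcomp _ _ h.2.2 φ
  rw [hφ, hφ] at this
  exact this

include hcomp in
theorem Mt2.swap {q r : F.Univ C} {q' r' : F.Univ C'} (h : Mt2 R F q r q' r') :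
    Mt2 R F r q r' q' := by
  obtain ⟨φ, hφ⟩ := swap_comp F
  refine ⟨h.2.1, h.1, ?_⟩
  have := hcomp _ _ h.2.2 φ
  rw [hφ, hφ] at this
  exact this

include G hcomp in
/-- matching all nodes, given a matched pair -/
theorem Mt.bij {q : F.Univ C} {q' : F.Univ C'} (h : Mt R F q q') :
    ∃ Ψ : F.Univ C ≃ F.Univ C', ∀ r, Mt2 R F q r q' (Ψ r) := by
  obtain ⟨Ψ, hΨ⟩ := G.bij F.a h.2 F.a (by have := F.two_a; omega)
  have h1 : ∀ w, R (F.two q.1.2 w) (F.two q'.1.2 (Ψ w)) := by
    intro w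
    have := hΨ w
    rw [upd_two, upd_two] at this
    exact this
  have h2 : ∀ w, R (F.one w) (F.one (Ψ w)) := by
    intro w
    obtain ⟨φ, hφ⟩ := one_comp F
    have := hcomp _ _ (h1 w) φ
    rw [hφ, hφ] at this
    exact this
  have h3 : ∀ p : Fin F.M × (Fin F.a → U), C.Sat (F.dom p.1) (F.one p.2) ↔
      C'.Sat (F.dom ((Equiv.refl (Fin F.M)).prodCongr Ψ p).1)
        (F.one ((Equiv.refl (Fin F.M)).prodCongr Ψ p).2) := by
    intro p
    exact G.sat _ _ _ (h2 p.2)
  refine ⟨Equiv.subtypeEquiv ((Equiv.refl (Fin F.M)).prodCongr Ψ) h3, ?_⟩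
  intro r
  exact ⟨h.1, rfl, h1 _⟩

include G hcomp in
/-- matching all nodes -/
theorem bij0 {v0 : Fin n → U} {v0' : Fin n → U'} (h0 : R v0 v0') :
    ∃ Ψ : F.Univ C ≃ F.Univ C', ∀ r, Mt R F r (Ψ r) := by
  obtain ⟨Ψ, hΨ⟩ := G.bij 0 h0 F.a (by have := F.two_a; omega)
  have h2 : ∀ w, R (F.one w) (F.one (Ψ w)) := by
    intro w
    obtain ⟨φ, hφ⟩ := upd_comp F
    have := hcomp _ _ (hΨ w) φ
    rw [hφ, hφ] at this
    exact this
  have h3 : ∀ p : Fin F.M × (Fin F.a → U), C.Sat (F.dom p.1) (F.one p.2) ↔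
      C'.Sat (F.dom ((Equiv.refl (Fin F.M)).prodCongr Ψ p).1)
        (F.one ((Equiv.refl (Fin F.M)).prodCongr Ψ p).2) := by
    intro p
    exact G.sat _ _ _ (h2 p.2)
  refine ⟨Equiv.subtypeEquiv ((Equiv.refl (Fin F.M)).prodCongr Ψ) h3, ?_⟩
  intro r
  exact ⟨rfl, h2 _⟩

end mt

end Pool.Agent.WSatCount
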