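import Pool.Agent.WSatChain.Circuit

/-! The bijective pebble game. -/

namespace Pool.Agent.WSatCount

open Pool.Agent.WSatChain

variable {U U' : Type}

/-- a system of positions in which the bijective pebble game can be played for ever -/
structure GameSys (C : Circ U) (C' : Circ U') (c : ℕ) (R : (Fin c → U) → (Fin c → U') → Prop) :
    Prop where
  eq : ∀ v v', R v v' → ∀ i j, v i = v j ↔ v' i = v' j
  isVar : ∀ v v', R v v' → ∀ i, C.isVar (v i) ↔ C'.isVar (v' i)
  isAnd : ∀ v v', R v v' → ∀ i, C.isAnd (v i) ↔ C'.isAnd (v' i)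
  isOr : ∀ v v', R v v' → ∀ i, C.isOr (v i) ↔ C'.isOr (v' i)
  isNot : ∀ v v', R v v' → ∀ i, C.isNot (v i) ↔ C'.isNot (v' i)
  isOut : ∀ v v', R v v' → ∀ i, C.isOut (v i) ↔ C'.isOut (v' i)
  wire : ∀ v v', R v v' → ∀ i j, C.wire (v i) (v j) ↔ C'.wire (v' i) (v' j)
  ext : ∀ v v', R v v' → ∀ i, ∃ f : U ≃ U', ∀ x,
    R (Function.update v i x) (Function.update v' i (f x))

variable {C : Circ U} {C' : Circ U'} {c : ℕ} {R : (Fin c → U) → (Fin c → U') → Prop}

theorem GameSys.sat (G : GameSys C C' c R) {N : ℕ} : ∀ (φ : Fml c N) (v : Fin c → U)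
    (v' : Fin c → U'), R v v' → (C.Sat φ v ↔ C'.Sat φ v') := by
  intro φ
  induction φ with
  | eq i j => intro v v' h; exact G.eq v v' h i j
  | isVar i => intro v v' h; exact G.isVar v v' h i
  | isAnd i => intro v v' h; exact G.isAnd v v' h i
  | isOr i => intro v v' h; exact G.isOr v v' h i
  | isNot i => intro v v' h; exact G.isNot v v' h i
  | isOut i => intro v v' h; exact G.isOut v v' h i
  | wire i j => intro v v' h; exact G.wire v v' h i j
  | neg φ ih =>
    intro v v' h
    show ¬ C.Sat φ v ↔ ¬ C'.Sat φ v'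
    rw [ih v v' h]
  | conj ι φ ih =>
    intro v v' h
    show (∀ x, C.Sat (φ x) v) ↔ ∀ x, C'.Sat (φ x) v'
    exact forall_congr' fun x => ih x v v' h
  | atLeast m i φ ih =>
    intro v v' h
    obtain ⟨f, hf⟩ := G.ext v v' h i
    show (∃ s : Finset U, s.card = m ∧ ∀ b ∈ s, C.Sat φ (Function.update v i b)) ↔
      ∃ s : Finset U', s.card = m ∧ ∀ b ∈ s, C'.Sat φ (Function.update v' i b)
    constructor
    · rintro ⟨s, hs, h1⟩
      refine ⟨s.map f.toEmbedding, by rw [Finset.card_map]; exact hs, ?_⟩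
      intro b hb
      obtain ⟨x, hx, rfl⟩ := Finset.mem_map.1 hb
      exact (ih _ _ (hf x)).1 (h1 x hx)
    · rintro ⟨s, hs, h1⟩
      refine ⟨s.map f.symm.toEmbedding, by rw [Finset.card_map]; exact hs, ?_⟩
      intro b hb
      obtain ⟨x, hx, rfl⟩ := Finset.mem_map.1 hb
      have h2 := hf (f.symm x)
      rw [Equiv.apply_symm_apply] at h2
      exact (ih _ _ h2).2 (h1 x hx)

theorem GameSys.forth (G : GameSys C C' c R) {v0 : Fin c → U} {v0' : Fin c → U'}
    (h0 : R v0 v0') (v : Fin c → U) : ∃ v', R v v' := by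
  have key : ∀ n : ℕ, n ≤ c → ∃ v', R (fun i => if i.1 < n then v i else v0 i) v' := by
    intro n
    induction n with
    | zero =>
      intro _
      exact ⟨v0', by simpa using h0⟩
    | succ n ih =>
      intro hn
      obtain ⟨v', hv'⟩ := ih (by omega)
      obtain ⟨f, hf⟩ := G.ext _ _ hv' ⟨n, hn⟩
      refine ⟨Function.update v' ⟨n, hn⟩ (f (v ⟨n, hn⟩)), ?_⟩
      · have h1 := hf (v ⟨n, hn⟩)
        have h2 : Function.update (fun i : Fin c => if i.1 < n then v i else v0 i) ⟨n, hn⟩
            (v ⟨n, hn⟩) = fun i : Fin c => if i.1 < n + 1 then v i else v0 i := by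
          funext i
          by_cases hi : i = ⟨n, hn⟩
          · subst hi
            simp
          · rw [Function.update_of_ne hi]
            have h3 : i.1 ≠ n := fun h => hi (Fin.ext h)
            by_cases h4 : i.1 < n
            · rw [if_pos h4, if_pos (by omega)]
            · rw [if_neg h4, if_neg (by omega)]
        rw [h2] at h1
        exact h1
  obtain ⟨v', hv'⟩ := key c le_rfl
  refine ⟨v', ?_⟩
  have : (fun i : Fin c => if i.1 < c then v i else v0 i) = v := by
    funext i
    rw [if_pos i.2]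
  rwa [this] at hv'

theorem GameSys.back (G : GameSys C C' c R) {v0 : Fin c → U} {v0' : Fin c → U'}
    (h0 : R v0 v0') (v' : Fin c → U') : ∃ v, R v v' := by
  have key : ∀ n : ℕ, n ≤ c → ∃ v, R v (fun i => if i.1 < n then v' i else v0' i) := by
    intro n
    induction n with
    | zero =>
      intro _
      exact ⟨v0, by simpa using h0⟩
    | succ n ih =>
      intro hn
      obtain ⟨v, hv⟩ := ih (by omega)
      obtain ⟨f, hf⟩ := G.ext _ _ hv ⟨n, hn⟩
      refine ⟨Function.update v ⟨n, hn⟩ (f.symm (v' ⟨n, hn⟩)), ?_⟩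
      · have h1 := hf (f.symm (v' ⟨n, hn⟩))
        rw [Equiv.apply_symm_apply] at h1
        have h2 : Function.update (fun i : Fin c => if i.1 < n then v' i else v0' i) ⟨n, hn⟩
            (v' ⟨n, hn⟩) = fun i : Fin c => if i.1 < n + 1 then v' i else v0' i := by
          funext i
          by_cases hi : i = ⟨n, hn⟩
          · subst hi
            simp
          · rw [Function.update_of_ne hi]
            have h3 : i.1 ≠ n := fun h => hi (Fin.ext h)
            by_cases h4 : i.1 < n
            · rw [if_pos h4, if_pos (by omega)]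
            · rw [if_neg h4, if_neg (by omega)]
        rw [h2] at h1
        exact h1
  obtain ⟨v, hv⟩ := key c le_rfl
  refine ⟨v, ?_⟩
  have : (fun i : Fin c => if i.1 < c then v' i else v0' i) = v' := by
    funext i
    rw [if_pos i.2]
  rwa [this] at hv

/-- sentences have the same truth value -/
theorem GameSys.sentence (G : GameSys C C' c R) {v0 : Fin c → U} {v0' : Fin c → U'}
    (h0 : R v0 v0') {N : ℕ} (φ : Fml c N) : (∀ v, C.Sat φ v) ↔ ∀ v', C'.Sat φ v' := by
  constructor
  · intro h v'
    obtain ⟨v, hv⟩ := G.back h0 v'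
    exact (G.sat φ v v' hv).1 (h v)
  · intro h v
    obtain ⟨v', hv⟩ := G.forth h0 v
    exact (G.sat φ v v' hv).2 (h v')

end Pool.Agent.WSatCount
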