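import Pool.Agent.WSatCount.Bij
import Pool.Agent.WSatChain.Forward

/-! The 2-CNF instances: a hidden parity on the complete graph. -/

namespace Pool.Agent.WSatCount

open Pool.Agent.WSatChain Finset

section clique

variable {k : ℕ}

/-- a point: a group and a bit towards every other group -/
abbrev Pt (k : ℕ) : Type := Fin k × (Fin k → ZMod 2)

/-- the names -/
inductive N1 (k : ℕ) : Type
  | root
  | var (p : Pt k)
  | cl (p q : Pt k)
  | n1 (p q : Pt k)
  | n2 (p q : Pt k)

/-- the target parities -/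
def tgt (ε : ZMod 2) (i : Fin k) : ZMod 2 := if i.1 = 0 then ε else 0

/-- legal points -/
def vp (ε : ZMod 2) (p : Pt k) : Prop := p.2 p.1 = 0 ∧ ∑ j, p.2 j = tgt ε p.1

/-- conflicts -/
def cf (p q : Pt k) : Prop := p ≠ q ∧ (p.1 ≠ q.1 → p.2 q.1 ≠ q.2 p.1)

/-- valid names -/
def v1 (ε : ZMod 2) : N1 k → Prop
  | .root => True
  | .var p => vp ε p
  | .cl p q => vp ε p ∧ vp ε q ∧ cf p q
  | .n1 p q => vp ε p ∧ vp ε q ∧ cf p q
  | .n2 p q => vp ε p ∧ vp ε q ∧ cf p q

/-- wires -/
def w1 : N1 k → N1 k → Prop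
  | .root, .cl _ _ => True
  | .cl p q, .n1 p' q' => p' = p ∧ q' = q
  | .cl p q, .n2 p' q' => p' = p ∧ q' = q
  | .n1 p _, .var p' => p' = p
  | .n2 _ q, .var p' => p' = q
  | _, _ => False

def var1 : N1 k → Prop
  | .var _ => True
  | _ => False

def and1 : N1 k → Prop
  | .root => True
  | _ => False

def or1 : N1 k → Prop
  | .cl _ _ => True
  | _ => False

def not1 : N1 k → Prop
  | .n1 _ _ => True
  | .n2 _ _ => True
  | _ => False

/-- the universe -/
def U1 (k : ℕ) (ε : ZMod 2) : Type := {e : N1 k // v1 ε e}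

/-- the circuit -/
def C1 (k : ℕ) (ε : ZMod 2) : Circ (U1 k ε) where
  isVar e := var1 e.1
  isAnd e := and1 e.1
  isOr e := or1 e.1
  isNot e := not1 e.1
  isOut e := and1 e.1
  wire e h := w1 e.1 h.1

variable {ε ε' : ZMod 2}

/-- the code of a name -/
def cd : N1 k → Fin 5 × Option (Pt k) × Option (Pt k)
  | .root => (0, none, none)
  | .var p => (1, some p, none)
  | .cl p q => (2, some p, some q)
  | .n1 p q => (3, some p, some q)
  | .n2 p q => (4, some p, some q)

theorem cd_inj : Function.Injective (cd (k := k)) := by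
  intro e e' h
  cases e <;> cases e' <;> simp only [cd, Prod.mk.injEq, Option.some.injEq, Fin.isValue,
    Fin.reduceEq, false_and, true_and, and_true, reduceCtorEq] at h
  · rfl
  · rw [h]
  · rw [h.1, h.2]
  · rw [h.1, h.2]
  · rw [h.1, h.2]

instance : Finite (N1 k) := Finite.of_injective _ cd_inj

instance : Finite (U1 k ε) := by
  unfold U1
  infer_instance

/-- rank -/
def rk1 : N1 k → ℕ
  | .root => 0
  | .cl _ _ => 1
  | .n1 _ _ => 2
  | .n2 _ _ => 2
  | .var _ => 3

theorem w1_rk {e h : N1 k} (hw : w1 e h) : rk1 e < rk1 h := by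
  cases e <;> cases h <;> simp only [w1, rk1] at hw ⊢ <;> omega

theorem cf_symm {p q : Pt k} (h : cf p q) : cf q p :=
  ⟨h.1.symm, fun h1 h2 => h.2 h1.symm h2.symm⟩

theorem c1_isCircuit : (C1 k ε).IsCircuit where
  kind := by
    rintro ⟨e, he⟩
    show (var1 e ∧ ¬ and1 e ∧ ¬ or1 e ∧ ¬ not1 e) ∨ (¬ var1 e ∧ and1 e ∧ ¬ or1 e ∧ ¬ not1 e) ∨
      (¬ var1 e ∧ ¬ and1 e ∧ or1 e ∧ ¬ not1 e) ∨ (¬ var1 e ∧ ¬ and1 e ∧ ¬ or1 e ∧ not1 e)
    cases e <;> simp [var1, and1, or1, not1]
  out := by
    refine ⟨⟨.root, trivial⟩, trivial, ?_⟩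
    rintro ⟨e, he⟩ h
    change and1 e at h
    apply Subtype.ext
    show e = .root
    cases e <;> simp [and1] at h ⊢
  var_in := by
    rintro ⟨e, he⟩ ⟨h, hh⟩ hv hw
    change var1 e at hv
    change w1 e h at hw
    cases e <;> simp only [var1] at hv
    cases h <;> simp only [w1] at hw
  not_in := by
    rintro ⟨e, he⟩ hv
    change not1 e at hv
    cases e <;> simp only [not1] at hv
    case n1 p q =>
      refine ⟨⟨.var p, he.1⟩, rfl, ?_⟩
      rintro ⟨h, hh⟩ hw
      change w1 _ h at hw
      apply Subtype.ext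
      show h = .var p
      cases h <;> simp only [w1] at hw
      rw [hw]
    case n2 p q =>
      refine ⟨⟨.var q, he.2.1⟩, rfl, ?_⟩
      rintro ⟨h, hh⟩ hw
      change w1 _ h at hw
      apply Subtype.ext
      show h = .var q
      cases h <;> simp only [w1] at hw
      rw [hw]
  acyclic := by
    intro g h
    have key : ∀ a b : U1 k ε, Relation.TransGen (C1 k ε).wire a b → rk1 a.1 < rk1 b.1 := by
      intro a b hab
      induction hab with
      | single h => exact w1_rk h
      | tail _ h ih => exact ih.trans (w1_rk h)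
    exact absurd (key g g h) (lt_irrefl _)

/-- every point has a conflict -/
theorem exists_cf (hk : 3 ≤ k) (p : Pt k) : ∃ q, vp ε q ∧ cf p q := by
  classical
  obtain ⟨j, hj⟩ : ∃ j : Fin k, j ≠ p.1 := by
    by_cases h : p.1 = ⟨0, by omega⟩
    · exact ⟨⟨1, by omega⟩, by rw [h]; simp⟩
    · exact ⟨⟨0, by omega⟩, Ne.symm h⟩
  obtain ⟨l, hl1, hl2⟩ : ∃ l : Fin k, l ≠ p.1 ∧ l ≠ j := by
    by_contra hcon
    push Not at hcon
    have h1 : (univ : Finset (Fin k)) ⊆ {p.1, j} := by
      intro i _
      by_cases hi : i = p.1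
      · simp [hi]
      · simp [hcon i hi]
    have h2 := (Finset.card_le_card h1).trans Finset.card_le_two
    rw [Finset.card_univ, Fintype.card_fin] at h2
    omega
  let g : Fin k → ZMod 2 := fun i => if i = p.1 then p.2 j + 1 else
    if i = l then tgt ε j + (p.2 j + 1) else 0
  refine ⟨(j, g), ⟨?_, ?_⟩, ?_, ?_⟩
  · show g j = 0
    simp only [g, if_neg hj, if_neg hl2.symm]
  · show ∑ i, g i = tgt ε j
    have h1 : ∀ i, g i = (if i = p.1 then p.2 j + 1 else 0) +
        (if i = l then tgt ε j + (p.2 j + 1) else 0) := by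
      intro i
      by_cases hi : i = p.1
      · subst hi
        simp only [g, if_true, if_neg hl1.symm, add_zero]
      · simp only [g, if_neg hi, zero_add]
    simp only [h1, Finset.sum_add_distrib, Finset.sum_ite_eq', Finset.mem_univ, if_true]
    generalize p.2 j = a
    generalize tgt ε j = b
    revert a b
    decide
  · intro h
    exact hj (by rw [h])
  · intro _
    show p.2 j ≠ g p.1
    simp only [g, if_true]
    generalize p.2 j = a
    revert a
    decide

theorem c1_isFormula (hk : 3 ≤ k) : (C1 k ε).IsFormula where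
  toIsCircuit := c1_isCircuit
  used := by
    rintro ⟨e, he⟩
    cases e with
    | root => exact Or.inl trivial
    | var p =>
      obtain ⟨q, hq, hc⟩ := exists_cf (ε := ε) hk p
      exact Or.inr ⟨⟨.n1 p q, he, hq, hc⟩, rfl⟩
    | cl p q => exact Or.inr ⟨⟨.root, trivial⟩, trivial⟩
    | n1 p q => exact Or.inr ⟨⟨.cl p q, he⟩, rfl, rfl⟩
    | n2 p q => exact Or.inr ⟨⟨.cl p q, he⟩, rfl, rfl⟩
  once := by
    rintro ⟨e, he⟩ ⟨p, hp⟩ ⟨q, hq⟩ hv hwp hwq
    change ¬ var1 e at hv
    change w1 p e at hwp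
    change w1 q e at hwq
    apply Subtype.ext
    show p = q
    cases e <;> simp only [var1, not_true_eq_false, not_false_eq_true] at hv
    case root => cases p <;> simp only [w1] at hwp
    case cl a b =>
      cases p <;> simp only [w1] at hwp
      cases q <;> simp only [w1] at hwq
      rfl
    case n1 a b =>
      cases p <;> simp only [w1] at hwp
      cases q <;> simp only [w1] at hwq
      obtain ⟨rfl, rfl⟩ := hwp
      obtain ⟨rfl, rfl⟩ := hwq
      rfl
    case n2 a b =>
      cases p <;> simp only [w1] at hwp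
      cases q <;> simp only [w1] at hwq
      obtain ⟨rfl, rfl⟩ := hwp
      obtain ⟨rfl, rfl⟩ := hwq
      rfl

theorem c1_gamma (hk : 3 ≤ k) : GAMMA 1 2 _ (C1 k ε) := by
  refine ⟨c1_isFormula hk, ?_⟩
  rintro ⟨g, hg⟩ ho
  refine Or.inr ⟨ho, ?_⟩
  rintro ⟨h, hh⟩ hw
  change and1 g at ho
  change w1 g h at hw
  cases g <;> simp only [and1] at ho
  cases h <;> simp only [w1] at hw
  case cl p q =>
    have hch : ∀ x : U1 k ε, (C1 k ε).wire ⟨.cl p q, hh⟩ x →
        x = ⟨.n1 p q, hh⟩ ∨ x = ⟨.n2 p q, hh⟩ := by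
      rintro ⟨x, hx⟩ hwx
      change w1 _ x at hwx
      cases x <;> simp only [w1] at hwx
      case n1 a b =>
        obtain ⟨rfl, rfl⟩ := hwx
        exact Or.inl rfl
      case n2 a b =>
        obtain ⟨rfl, rfl⟩ := hwx
        exact Or.inr rfl
    refine Or.inr ⟨trivial, ?_, ?_⟩
    · intro x hx
      refine Or.inr ⟨?_, ?_⟩
      · rcases hch x hx with rfl | rfl
        · exact trivial
        · exact trivial
      · rintro ⟨y, hy⟩ hwy
        show var1 y
        rcases hch x hx with rfl | rfl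
        · change w1 _ y at hwy
          cases y <;> simp only [w1] at hwy
          exact trivial
        · change w1 _ y at hwy
          cases y <;> simp only [w1] at hwy
          exact trivial
    · let φ : {x // (C1 k ε).wire ⟨.cl p q, hh⟩ x} → Bool := fun x =>
        match x.1.1 with
        | .n1 _ _ => true
        | _ => false
      have hφ : Function.Injective φ := by
        rintro ⟨x, hx⟩ ⟨y, hy⟩ h
        apply Subtype.ext
        rcases hch x hx with rfl | rfl <;> rcases hch y hy with rfl | rfl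
        · rfl
        · simp [φ] at h
        · simp [φ] at h
        · rfl
      have := Nat.card_le_card_of_injective φ hφ
      simpa using this

/-- a choice function gives an independent set -/
theorem c1_sat : (C1 k 0).WSat k := by
  obtain ⟨val, hv, hvar⟩ := eval_exists (c1_isCircuit (k := k) (ε := 0))
    (fun e => ∃ i, e.1 = N1.var (i, 0))
  have hvp : ∀ i : Fin k, vp 0 ((i, 0) : Pt k) := by
    intro i
    refine ⟨rfl, ?_⟩
    show ∑ j : Fin k, (0 : ZMod 2) = tgt 0 i
    unfold tgt
    simp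
  have hval : ∀ p (hp : vp 0 p), val ⟨.var p, hp⟩ ↔ p.2 = 0 := by
    intro p hp
    rw [hvar ⟨.var p, hp⟩ trivial]
    constructor
    · rintro ⟨i, hi⟩
      simp only [N1.var.injEq] at hi
      rw [hi]
    · intro h
      refine ⟨p.1, ?_⟩
      show N1.var p = _
      rw [← h]
  refine ⟨val, hv, ?_, ?_⟩
  · rintro ⟨g, hg⟩ ho
    change and1 g at ho
    cases g <;> simp only [and1] at ho
    rw [hv.and ⟨.root, hg⟩ trivial]
    rintro ⟨h, hh⟩ hw
    change w1 _ h at hw
    cases h <;> simp only [w1] at hw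
    case cl p q =>
      rw [hv.or ⟨.cl p q, hh⟩ trivial]
      by_cases hp : p.2 = 0
      · refine ⟨⟨.n2 p q, hh⟩, ⟨rfl, rfl⟩, ?_⟩
        rw [hv.not ⟨.n2 p q, hh⟩ trivial]
        rintro ⟨y, hy⟩ hwy
        change w1 _ y at hwy
        cases y <;> simp only [w1] at hwy
        case var q' =>
          subst hwy
          intro hvq
          have hq := (hval _ _).1 hvq
          obtain ⟨hne, hcf⟩ := hh.2.2
          by_cases h1 : p.1 = q'.1
          · exact hne (Prod.ext h1 (hp.trans hq.symm))
          · apply hcf h1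
            rw [hp, hq]
            rfl
      · refine ⟨⟨.n1 p q, hh⟩, ⟨rfl, rfl⟩, ?_⟩
        rw [hv.not ⟨.n1 p q, hh⟩ trivial]
        rintro ⟨y, hy⟩ hwy
        change w1 _ y at hwy
        cases y <;> simp only [w1] at hwy
        case var p' =>
          subst hwy
          intro hvq
          exact hp ((hval _ _).1 hvq)
  · let φ : Fin k → {g // (C1 k 0).isVar g ∧ val g} :=
      fun i => ⟨⟨.var (i, 0), hvp i⟩, trivial, (hval _ _).2 rfl⟩
    have hφ : Function.Bijective φ := by
      constructor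
      · intro i i' h
        have h2 := congrArg (fun x => x.1.1) h
        simp only [φ, N1.var.injEq, Prod.mk.injEq, and_true] at h2
        exact h2
      · rintro ⟨⟨x, hx⟩, h1, h2⟩
        change var1 x at h1
        cases x <;> simp only [var1] at h1
        case var p =>
          have h3 := (hval _ _).1 h2
          refine ⟨p.1, ?_⟩
          apply Subtype.ext
          apply Subtype.ext
          show N1.var (p.1, 0) = N1.var p
          rw [← h3]
    rw [← Nat.card_congr (Equiv.ofBijective φ hφ), Nat.card_fin]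

theorem sum_symm_zero (f : Fin k → Fin k → ZMod 2) (h : ∀ i j, f i j = f j i)
    (h0 : ∀ i, f i i = 0) : ∑ i, ∑ j, f i j = 0 := by
  rw [← Finset.sum_product']
  apply Finset.sum_involution (fun p _ => (p.2, p.1))
  · intro p _
    rw [h p.2 p.1]
    exact CharTwo.add_self_eq_zero _
  · intro p _ hp hcon
    apply hp
    have h1 : p.2 = p.1 := congrArg Prod.fst hcon
    rw [h1]
    exact h0 _
  · intro p _
    exact Finset.mem_univ _
  · intro p _
    rfl

theorem c1_unsat (hk : 0 < k) : ¬ (C1 k 1).WSat k := by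
  rintro ⟨val, hv, hout, hcard⟩
  have hroot := hout ⟨.root, trivial⟩ trivial
  rw [hv.and ⟨.root, trivial⟩ trivial] at hroot
  have hind : ∀ p q (hp : vp 1 p) (hq : vp 1 q), val ⟨.var p, hp⟩ → val ⟨.var q, hq⟩ →
      ¬ cf p q := by
    intro p q hp hq h1 h2 hc
    have h3 := hroot ⟨.cl p q, hp, hq, hc⟩ trivial
    rw [hv.or ⟨.cl p q, hp, hq, hc⟩ trivial] at h3
    obtain ⟨⟨x, hx⟩, hw, h4⟩ := h3
    change w1 _ x at hw
    cases x <;> simp only [w1] at hw
    case n1 a b =>
      obtain ⟨rfl, rfl⟩ := hw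
      rw [hv.not ⟨.n1 a b, hx⟩ trivial] at h4
      exact h4 ⟨.var a, hp⟩ rfl h1
    case n2 a b =>
      obtain ⟨rfl, rfl⟩ := hw
      rw [hv.not ⟨.n2 a b, hx⟩ trivial] at h4
      exact h4 ⟨.var b, hq⟩ rfl h2
  -- one point in every group
  let φ : {g // (C1 k 1).isVar g ∧ val g} → Fin k := fun x =>
    match x.1.1 with
    | .var p => p.1
    | _ => ⟨0, hk⟩
  have hφ : Function.Injective φ := by
    rintro ⟨⟨x, hx⟩, h1, h2⟩ ⟨⟨y, hy⟩, h3, h4⟩ h
    change var1 x at h1
    change var1 y at h3
    cases x <;> simp only [var1] at h1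
    cases y <;> simp only [var1] at h3
    case var.var p q =>
      have h5 : p.1 = q.1 := h
      have h6 := hind p q hx hy h2 h4
      have h7 : p = q := by
        by_contra hne
        exact h6 ⟨hne, fun h8 => absurd h5 h8⟩
      subst h7
      rfl
  have hfin : Fintype {g // (C1 k 1).isVar g ∧ val g} := Fintype.ofFinite _
  have hbij : Function.Bijective φ := by
    rw [Fintype.bijective_iff_injective_and_card]
    refine ⟨hφ, ?_⟩
    rw [Fintype.card_fin, ← Nat.card_eq_fintype_card, hcard]
  have hch : ∀ i : Fin k, ∃ f : Fin k → ZMod 2, ∃ hp : vp 1 (i, f), val ⟨.var (i, f), hp⟩ := by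
    intro i
    obtain ⟨⟨⟨x, hx⟩, h1, h2⟩, h⟩ := hbij.2 i
    change var1 x at h1
    cases x <;> simp only [var1] at h1
    case var p =>
      have h5 : p.1 = i := h
      subst h5
      exact ⟨p.2, hx, h2⟩
  choose f hf1 hf2 using hch
  have hsym : ∀ i j, f i j = f j i := by
    intro i j
    by_cases hij : i = j
    · rw [hij]
    · by_contra hne
      exact hind _ _ (hf1 i) (hf1 j) (hf2 i) (hf2 j)
        ⟨fun h => hij (congrArg Prod.fst h), fun _ => hne⟩
  have h0 := sum_symm_zero f hsym (fun i => (hf1 i).1)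
  have h1 : ∑ i, ∑ j, f i j = 1 := by
    have h2 : ∀ i, ∑ j, f i j = tgt 1 i := fun i => (hf1 i).2
    simp only [h2, tgt]
    rw [Finset.sum_eq_single (⟨0, hk⟩ : Fin k)]
    · simp
    · intro i _ hi
      rw [if_neg]
      intro h
      exact hi (Fin.ext h)
    · intro h
      exact absurd (Finset.mem_univ _) h
  rw [h0] at h1
  exact absurd h1 (by decide)

end clique

end Pool.Agent.WSatCount
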