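import Pool.Agent.WSatCount.PathTree

/-!
Evaluation of interpreted twisted paths: if the interpreted circuits are formulas, then weighted
satisfiability does not depend on the twists.
-/

namespace Pool.Agent.WSatCount.Path

open Pool.Agent.WSatChain Finset

section potential

variable {k m : ℕ} {s s' : Fin m → ZMod 2}

/-- partial sums of the twists -/
def phi (s s' : Fin m → ZMod 2) (j : Fin (m + 1)) : ZMod 2 :=
  ∑ l : Fin m, if l.1 < j.1 then s l + s' l else 0

theorem phi_comm : phi s s' = phi s' s := by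
  funext j
  unfold phi
  simp only [add_comm]

theorem phi_zero : phi s s' 0 = 0 := by
  unfold phi
  exact Finset.sum_eq_zero fun l _ => if_neg (by simp)

theorem phi_step (l : Fin m) : phi s s' l.castSucc + phi s s' l.succ = s l + s' l := by
  classical
  have h : phi s s' l.succ = phi s s' l.castSucc + (s l + s' l) := by
    unfold phi
    rw [← Finset.sum_erase_add _ _ (Finset.mem_univ l), if_pos (by simp)]
    rw [← Finset.sum_erase_add Finset.univ (fun l' : Fin m =>
      if l'.1 < l.castSucc.1 then s l' + s' l' else 0) (Finset.mem_univ l), if_neg (by simp),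
      add_zero]
    congr 1
    refine Finset.sum_congr rfl fun l' hl' => ?_
    have h1 : l' ≠ l := Finset.ne_of_mem_erase hl'
    have h2 : l'.1 ≠ l.1 := fun h => h1 (Fin.ext h)
    simp only [Fin.val_castSucc, Fin.val_succ]
    congr 1
    apply propext
    omega
  rw [h]
  generalize phi s s' l.castSucc = a
  generalize s l = b
  generalize s' l = c
  revert a b c
  decide

/-- the transformation given by a potential -/
def TT (k : ℕ) (s s' : Fin m → ZMod 2) (ψ : Fin (m + 1) → ZMod 2) : Tr k m where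
  δ _ _ := 0
  x j := if j = 0 ∨ j = Fin.last m then 0 else ψ j + phi s s' j
  hδ _ := Finset.sum_const_zero
  x0 := if_pos (Or.inl rfl)
  xm := if_pos (Or.inr rfl)

theorem TT_comm (ψ : Fin (m + 1) → ZMod 2) : TT k s s' ψ = TT k s' s ψ := by
  simp only [TT, phi_comm (s := s) (s' := s')]

/-- the condition on the ends -/
def Ends (s s' : Fin m → ZMod 2) (ψ : Fin (m + 1) → ZMod 2) : Prop :=
  ψ 0 = 0 ∧ ψ (Fin.last m) = phi s s' (Fin.last m)

theorem TT_x {ψ : Fin (m + 1) → ZMod 2} (h : Ends s s' ψ) (j : Fin (m + 1)) :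
    (TT k s s' ψ).x j = ψ j + phi s s' j := by
  have h2 : ∀ a : ZMod 2, a + a = 0 := by decide
  change (if j = 0 ∨ j = Fin.last m then 0 else ψ j + phi s s' j) = _
  split_ifs with hj
  · rcases hj with rfl | rfl
    · rw [h.1, phi_zero, add_zero]
    · rw [h.2, h2]
  · rfl

theorem TT_con {ψ : Fin (m + 1) → ZMod 2} (h : Ends s s' ψ) {l : Fin m}
    (hl : ψ l.castSucc = ψ l.succ) : Con (TT k s s' ψ) s s' l := by
  unfold Con
  rw [TT_x h, TT_x h, hl, ← phi_step l]
  change ∑ i : Fin k, (0 : ZMod 2) + _ + _ = _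
  rw [Finset.sum_const_zero]
  generalize phi s s' l.castSucc = a
  generalize phi s s' l.succ = b
  generalize ψ l.succ = c
  revert a b c
  decide

theorem TT_congr {ψ ψ' : Fin (m + 1) → ZMod 2} {e : Nd k m}
    (h : ∀ j ∈ lev e, j ≠ 0 → j ≠ Fin.last m → ψ' j = ψ j) :
    act (TT k s s' ψ') e = act (TT k s s' ψ) e := by
  have hx : ∀ j ∈ lev e, (TT k s s' ψ').x j = (TT k s s' ψ).x j := by
    intro j hj
    change (if j = 0 ∨ j = Fin.last m then 0 else ψ' j + phi s s' j) =
      (if j = 0 ∨ j = Fin.last m then 0 else ψ j + phi s s' j)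
    split_ifs with h1
    · rfl
    · push Not at h1
      rw [h j hj h1.1 h1.2]
  cases e with
  | gt j y =>
    simp only [act]
    rw [hx j (Finset.mem_singleton_self _)]
  | leaf l y z σ =>
    simp only [act]
    rw [hx _ (Finset.mem_insert_self _ _),
      hx _ (Finset.mem_insert_of_mem (Finset.mem_singleton_self _))]
    rfl
  | _ => rfl

/-! ### potentials -/

/-- nearby levels have the same potential -/
def Good (r : ℕ) (J : Finset (Fin (m + 1))) (ψ : Fin (m + 1) → ZMod 2) : Prop :=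
  ∀ j ∈ J, ∀ j' ∈ J, j.1 ≤ j'.1 → j'.1 ≤ j.1 + 2 ^ r → ψ j = ψ j'

theorem Good.mono {r r' : ℕ} {J J' : Finset (Fin (m + 1))} {ψ : Fin (m + 1) → ZMod 2}
    (h : Good r J ψ) (hr : r' ≤ r) (hJ : J' ⊆ J) : Good r' J' ψ := by
  intro j hj j' hj' h1 h2
  exact h j (hJ hj) j' (hJ hj') h1 (h2.trans (Nat.add_le_add_left
    (Nat.pow_le_pow_right (by norm_num) hr) _))

theorem Good.ext1 {r : ℕ} {J : Finset (Fin (m + 1))} {ψ : Fin (m + 1) → ZMod 2}
    (h : Good (r + 1) J ψ) (l : Fin (m + 1)) :
    ∃ ψ' : Fin (m + 1) → ZMod 2, (∀ j ∈ J, ψ' j = ψ j) ∧ Good r (insert l J) ψ' := by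
  classical
  have hp : 2 ^ (r + 1) = 2 ^ r + 2 ^ r := by ring
  by_cases hl : l ∈ J
  · refine ⟨ψ, fun _ _ => rfl, ?_⟩
    rw [Finset.insert_eq_of_mem hl]
    exact h.mono (Nat.le_succ _) subset_rfl
  have hv : ∃ v : ZMod 2, ∀ j ∈ J, j.1 ≤ l.1 + 2 ^ r → l.1 ≤ j.1 + 2 ^ r → ψ j = v := by
    by_cases hex : ∃ j₀ ∈ J, j₀.1 ≤ l.1 + 2 ^ r ∧ l.1 ≤ j₀.1 + 2 ^ r
    · obtain ⟨j₀, hj₀, h1, h2⟩ := hex
      refine ⟨ψ j₀, fun j hj h3 h4 => ?_⟩
      rcases le_total j.1 j₀.1 with h5 | h5
      · exact h j hj j₀ hj₀ h5 (by omega)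
      · exact (h j₀ hj₀ j hj h5 (by omega)).symm
    · refine ⟨0, fun j hj h3 h4 => ?_⟩
      exact absurd ⟨j, hj, h3, h4⟩ hex
  obtain ⟨v, hv⟩ := hv
  refine ⟨Function.update ψ l v, ?_, ?_⟩
  · intro j hj
    have h3 : j ≠ l := fun h => hl (h ▸ hj)
    exact Function.update_of_ne h3 _ _
  · intro j hj j' hj' h1 h2
    rcases Finset.mem_insert.1 hj with hjl | hj1
    · rcases Finset.mem_insert.1 hj' with hjl' | hj1'
      · rw [hjl, hjl']
      · have h3 : j' ≠ l := fun h => hl (h ▸ hj1')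
        subst hjl
        rw [Function.update_self, Function.update_of_ne h3]
        exact (hv j' hj1' h2 (by omega)).symm
    · have h3 : j ≠ l := fun h => hl (h ▸ hj1)
      rcases Finset.mem_insert.1 hj' with hjl' | hj1'
      · subst hjl'
        rw [Function.update_self, Function.update_of_ne h3]
        exact hv j hj1 (by omega) h2
      · have h4 : j' ≠ l := fun h => hl (h ▸ hj1')
        rw [Function.update_of_ne h3, Function.update_of_ne h4]
        exact h j hj1 j' hj1' h1 (by omega)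

theorem Good.ext {r : ℕ} {J : Finset (Fin (m + 1))} (H : Finset (Fin (m + 1)))
    {ψ : Fin (m + 1) → ZMod 2} (h : Good (r + (H \ J).card) J ψ) :
    ∃ ψ' : Fin (m + 1) → ZMod 2, (∀ j ∈ J, ψ' j = ψ j) ∧ Good r (J ∪ H) ψ' := by
  classical
  have key : ∀ (S : Finset (Fin (m + 1))) (r : ℕ) (J : Finset (Fin (m + 1)))
      (ψ : Fin (m + 1) → ZMod 2), Good (r + S.card) J ψ →
      ∃ ψ' : Fin (m + 1) → ZMod 2, (∀ j ∈ J, ψ' j = ψ j) ∧ Good r (J ∪ S) ψ' := by
    intro S
    induction S using Finset.induction_on with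
    | empty =>
      intro r J ψ h
      exact ⟨ψ, fun _ _ => rfl, by simpa using h⟩
    | insert a S ha ih =>
      intro r J ψ h
      rw [Finset.card_insert_of_notMem ha] at h
      obtain ⟨ψ₁, h1, h2⟩ := ih (r + 1) J ψ (by
        have : r + 1 + S.card = r + (S.card + 1) := by ring
        rw [this]
        exact h)
      obtain ⟨ψ₂, h3, h4⟩ := h2.ext1 a
      refine ⟨ψ₂, fun j hj => (h3 j (Finset.mem_union_left _ hj)).trans (h1 j hj), ?_⟩
      rw [Finset.union_insert]
      exact h4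
  obtain ⟨ψ', h1, h2⟩ := key (H \ J) r J ψ h
  refine ⟨ψ', h1, ?_⟩
  rw [Finset.union_sdiff_self_eq_union] at h2
  exact h2

/-- a potential with a jump exists if there are few levels -/
theorem exists_potential (J : Finset (Fin (m + 1))) (r : ℕ) (v : ZMod 2)
    (h : J.card * 2 ^ r < m) :
    ∃ ψ : Fin (m + 1) → ZMod 2, ψ 0 = 0 ∧ ψ (Fin.last m) = v ∧ Good r J ψ := by
  classical
  have h1 : (J.biUnion fun j => Finset.Ioc j.1 (j.1 + 2 ^ r)).card < (Finset.Icc 1 m).card := by
    refine lt_of_le_of_lt (Finset.card_biUnion_le_card_mul _ _ (2 ^ r) fun j _ => ?_) ?_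
    · rw [Nat.card_Ioc, Nat.add_sub_cancel_left]
    · rw [Nat.card_Icc]
      omega
  obtain ⟨t, ht, ht'⟩ := Finset.exists_mem_notMem_of_card_lt_card h1
  rw [Finset.mem_Icc] at ht
  refine ⟨fun j => if j.1 < t then 0 else v, ?_, ?_, ?_⟩
  · exact if_pos (by rw [Fin.val_zero]; omega)
  · exact if_neg (by rw [Fin.val_last]; omega)
  · intro j hj j' hj' h2 h3
    change (if j.1 < t then 0 else v) = (if j'.1 < t then 0 else v)
    by_cases h4 : j.1 < t
    · by_cases h5 : j'.1 < t
      · rw [if_pos h4, if_pos h5]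
      · exfalso
        apply ht'
        rw [Finset.mem_biUnion]
        exact ⟨j, hj, Finset.mem_Ioc.2 ⟨h4, by omega⟩⟩
    · rw [if_neg h4, if_neg (by omega)]

end potential

section eval

variable {k m n N : ℕ} {s s' : Fin m → ZMod 2} {F : Interp n N}
  {JP : Finset (Fin (m + 1))} {ψ ψ' : Fin (m + 1) → ZMod 2}

theorem TTP_congr {p : NP k m F} (h : ∀ j ∈ levP p, ψ' j = ψ j) :
    actP (TT k s s' ψ') p = actP (TT k s s' ψ) p := by
  apply Prod.ext
  · rfl
  · funext i
    refine TT_congr fun j hj h0 hl => h j ?_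
    rw [mem_levP h0 hl]
    exact ⟨i, hj⟩

theorem TTP_con {p : NP k m F} {r : ℕ} (he : Ends s s' ψ) (h0 : (0 : Fin (m + 1)) ∈ JP)
    (hl : Fin.last m ∈ JP) (hG : Good r (JP ∪ levP p) ψ) : ConP (TT k s s' ψ) s s' p := by
  intro i l hil
  apply TT_con he
  have hmem : ∀ j ∈ lev (p.2 i), j ∈ JP ∪ levP p := by
    intro j hj
    by_cases h1 : j = 0
    · rw [h1]
      exact Finset.mem_union_left _ h0
    · by_cases h2 : j = Fin.last m
      · rw [h2]
        exact Finset.mem_union_left _ hl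
      · exact Finset.mem_union_right _ ((mem_levP h1 h2).2 ⟨i, hj⟩)
  have h1 : l.castSucc ∈ lev (p.2 i) ∧ l.succ ∈ lev (p.2 i) := by
    revert hil
    cases p.2 i with
    | leaf l' y z σ =>
      intro hil
      have : l' = l := Option.some_injective _ hil
      subst this
      exact ⟨Finset.mem_insert_self _ _, Finset.mem_insert_of_mem (Finset.mem_singleton_self _)⟩
    | _ =>
      intro hil
      simp [lv] at hil
  refine hG _ (hmem _ h1.1) _ (hmem _ h1.2) ?_ ?_
  · simp
  · rw [Fin.val_castSucc, Fin.val_succ]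
    have := Nat.one_le_two_pow (n := r)
    omega

/-- the children of matched nodes are matched -/
theorem down (hk : n ≤ k) (hm : n < m) (hF : (F.apply (srcC k s)).IsFormula)
    (he : Ends s s' ψ) (h0 : (0 : Fin (m + 1)) ∈ JP) (hl : Fin.last m ∈ JP)
    {q h : F.Univ (srcC k s)} {q' : F.Univ (srcC k s')}
    (hG : Good (4 * F.a - (levP (nm q)).card) (JP ∪ levP (nm q)) ψ)
    (hq' : nm q' = actP (TT k s s' ψ) (nm q)) (hw : (F.apply (srcC k s)).wire q h) :
    ∃ (ψ' : Fin (m + 1) → ZMod 2) (h' : F.Univ (srcC k s')),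
      (∀ j ∈ JP, ψ' j = ψ j) ∧ Ends s s' ψ' ∧ ConP (TT k s s' ψ') s s' (nm h) ∧
      nm h' = actP (TT k s s' ψ') (nm h) ∧ (F.apply (srcC k s')).wire q' h' ∧
      (¬ (F.apply (srcC k s)).isVar h →
        Good (4 * F.a - (levP (nm h)).card) (JP ∪ levP (nm h)) ψ') := by
  classical
  have hcq := card_levP (nm q)
  have hch := card_levP (nm h)
  have hr : ∃ r, (¬ (F.apply (srcC k s)).isVar h → r = 4 * F.a - (levP (nm h)).card) ∧
      r + (levP (nm h) \ (JP ∪ levP (nm q))).card ≤ 4 * F.a - (levP (nm q)).card := by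
    by_cases hv : (F.apply (srcC k s)).isVar h
    · refine ⟨0, fun h => absurd hv h, ?_⟩
      have := Finset.card_le_card (Finset.sdiff_subset (s := levP (nm h)) (t := JP ∪ levP (nm q)))
      omega
    · refine ⟨4 * F.a - (levP (nm h)).card, fun _ => rfl, ?_⟩
      have h1 := levP_mono hk hm hF hw hv
      have h2 : (levP (nm h) \ (JP ∪ levP (nm q))).card ≤ (levP (nm h) \ levP (nm q)).card :=
        Finset.card_le_card (Finset.sdiff_subset_sdiff subset_rfl Finset.subset_union_right)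
      rw [Finset.card_sdiff_of_subset h1] at h2
      have h3 := Finset.card_le_card h1
      omega
  obtain ⟨r, hr1, hr2⟩ := hr
  obtain ⟨ψ', h1, h2⟩ := (hG.mono hr2 subset_rfl).ext (levP (nm h))
  have he' : Ends s s' ψ' := by
    refine ⟨?_, ?_⟩
    · rw [h1 _ (Finset.mem_union_left _ h0)]
      exact he.1
    · rw [h1 _ (Finset.mem_union_left _ hl)]
      exact he.2
  have hch : ConP (TT k s s' ψ') s s' (nm h) := by
    refine TTP_con (r := r) he' h0 hl (h2.mono le_rfl ?_)
    exact Finset.union_subset_union Finset.subset_union_left subset_rfl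
  have hcq : ConP (TT k s s' ψ') s s' (nm q) :=
    TTP_con (r := r) he' h0 hl (h2.mono le_rfl Finset.subset_union_left)
  obtain ⟨h', hh'⟩ := lift hk hm h hch
  have hq2 : nm q' = actP (TT k s s' ψ') (nm q) := by
    rw [hq']
    exact (TTP_congr fun j hj => h1 j (Finset.mem_union_right _ hj)).symm
  refine ⟨ψ', h', fun j hj => h1 j (Finset.mem_union_left _ hj), he', hch, hh',
    (tr_wire hk hm hcq hch hq2 hh').1 hw, ?_⟩
  intro hv
  rw [← hr1 hv]
  exact h2.mono le_rfl (Finset.union_subset_union Finset.subset_union_left subset_rfl)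

/-- **evaluation lemma** -/
theorem eval_eq (hk : n ≤ k) (hm : n < m) (hF : (F.apply (srcC k s)).IsFormula)
    (hF' : (F.apply (srcC k s')).IsFormula) [Finite (F.Univ (srcC k s))]
    {val : F.Univ (srcC k s) → Prop} {val' : F.Univ (srcC k s') → Prop}
    (hv : (F.apply (srcC k s)).IsEval val) (hv' : (F.apply (srcC k s')).IsEval val')
    {ψ₀ : Fin (m + 1) → ZMod 2} (h0 : (0 : Fin (m + 1)) ∈ JP) (hl : Fin.last m ∈ JP)
    (hvar : ∀ (q : F.Univ (srcC k s)) (q' : F.Univ (srcC k s')) (ψ : Fin (m + 1) → ZMod 2),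
      (F.apply (srcC k s)).isVar q → (∀ j ∈ JP, ψ j = ψ₀ j) →
      ConP (TT k s s' ψ) s s' (nm q) → nm q' = actP (TT k s s' ψ) (nm q) → (val q ↔ val' q')) :
    ∀ (q : F.Univ (srcC k s)) (q' : F.Univ (srcC k s')) (ψ : Fin (m + 1) → ZMod 2),
      Ends s s' ψ → (∀ j ∈ JP, ψ j = ψ₀ j) →
      (¬ (F.apply (srcC k s)).isVar q →
        Good (4 * F.a - (levP (nm q)).card) (JP ∪ levP (nm q)) ψ) →
      ConP (TT k s s' ψ) s s' (nm q) →
      nm q' = actP (TT k s s' ψ) (nm q) → (val q ↔ val' q') := by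
  intro q
  induction q using hF.toIsCircuit.wf.induction with
  | _ q ih =>
    intro q' ψ he hψ hG hcon hq
    by_cases hqv : (F.apply (srcC k s)).isVar q
    · exact hvar q q' ψ hqv hψ hcon hq
    have hG := hG hqv
    apply gate_val hF.toIsCircuit hv hv'
    · exact fun h => absurd h hqv
    · exact (tr_sat hk hm hcon hq F.isAnd).1
    · exact (tr_sat hk hm hcon hq F.isOr).1
    · exact (tr_sat hk hm hcon hq F.isNot).1
    · intro h hw
      obtain ⟨ψ', h', h1, h2, h3, h4, h5, h6⟩ := down hk hm hF he h0 hl hG hq hw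
      exact ⟨h', h5, ih h hw h' ψ' h2 (fun j hj => (h1 j hj).trans (hψ j hj)) h6 h3 h4⟩
    · intro h' hw
      have hq2 : nm q = actP (TT k s' s ψ) (nm q') := by
        rw [hq, TT_comm (s := s') (s' := s), actP_actP]
      have he2 : Ends s' s ψ := by
        unfold Ends
        rw [phi_comm]
        exact he
      have hlev : levP (nm q') = levP (nm q) := by rw [hq, levP_act]
      obtain ⟨ψ', h, h1, h2, h3, h4, h5, h6⟩ := down hk hm hF' he2 h0 hl
        (by rw [hlev]; exact hG) hq2 hw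
      have h4' : nm h' = actP (TT k s s' ψ') (nm h) := by
        rw [h4, TT_comm (s := s') (s' := s), actP_actP]
      have hlev2 : levP (nm h) = levP (nm h') := by rw [h4, levP_act]
      have h3' : ConP (TT k s s' ψ') s s' (nm h) := by
        intro i l hil
        rw [h4] at hil
        have h7 := h3 i l (by
          have : lv ((actP (TT k s' s ψ') (nm h')).2 i) = lv ((nm h').2 i) := lv_act _
          rw [← this]
          exact hil)
        rw [TT_comm]
        exact h7.symm
      refine ⟨h, h5, ih h h5 h' ψ' ?_ (fun j hj => (h1 j hj).trans (hψ j hj)) ?_ h3' h4'⟩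
      · unfold Ends
        rw [phi_comm]
        exact h2
      · intro hhv
        rw [hlev2]
        exact h6 fun hh => hhv ((tr_sat hk hm h3 h4 F.isVar).1 hh)

end eval

end Pool.Agent.WSatCount.Path
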