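import Pool.Agent.WSatCount.PathSrc
import Pool.Agent.WSatCount.Bij

/-! The bijective game on twisted paths. -/

namespace Pool.Agent.WSatCount.Path

open Pool.Agent.WSatChain Finset

variable {k m : ℕ}

/-- a transformation: shift the words of the group `i` by `δ i`, flip level `j` by `x j` -/
structure Tr (k m : ℕ) where
  δ : Fin k → Fin m → ZMod 2
  x : Fin (m + 1) → ZMod 2
  hδ : ∀ i, ∑ j, δ i j = 0
  x0 : x 0 = 0
  xm : x (Fin.last m) = 0

/-- the action on names -/
def act (T : Tr k m) : Nd k m → Nd k m
  | .root => .root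
  | .grp i => .grp i
  | .var i α => .var i (α + T.δ i)
  | .nt i α => .nt i (α + T.δ i)
  | .gt j y => .gt j (y + T.x j)
  | .leaf j y z σ => .leaf j (y + T.x j.castSucc) (z + T.x j.succ) (fun i => σ i + T.δ i j)

/-- the leaf level -/
def lv : Nd k m → Option (Fin m)
  | .leaf j _ _ _ => some j
  | _ => none

/-- the group touched -/
def tg : Nd k m → Option (Fin k)
  | .var i _ => some i
  | .nt i _ => some i
  | _ => none

/-- consistency -/
def Con (T : Tr k m) (s s' : Fin m → ZMod 2) (j : Fin m) : Prop :=
  ∑ i, T.δ i j + T.x j.castSucc + T.x j.succ = s j + s' j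

variable {T T' : Tr k m} {s s' : Fin m → ZMod 2}

theorem Con.symm {j : Fin m} (h : Con T s s' j) : Con T s' s j := by
  unfold Con at h ⊢
  rw [h, add_comm]

theorem z_add (a b : ZMod 2) : a + b + b = a := by
  revert a b
  decide

theorem f_add {ι : Type} (a b : ι → ZMod 2) : a + b + b = a := by
  funext i
  exact z_add _ _

theorem act_act (e : Nd k m) : act T (act T e) = e := by
  cases e <;> simp only [act, f_add, z_add]

theorem act_inj {e e' : Nd k m} (h : act T e = act T e') : e = e' := by
  rw [← act_act (T := T) e, h, act_act]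

theorem lv_act (e : Nd k m) : lv (act T e) = lv e := by cases e <;> rfl

theorem tg_act (e : Nd k m) : tg (act T e) = tg e := by cases e <;> rfl

theorem kVar_act (e : Nd k m) : kVar (act T e) ↔ kVar e := by cases e <;> rfl
theorem kAnd_act (e : Nd k m) : kAnd (act T e) ↔ kAnd e := by cases e <;> rfl
theorem kOr_act (e : Nd k m) : kOr (act T e) ↔ kOr e := by cases e <;> rfl
theorem kNot_act (e : Nd k m) : kNot (act T e) ↔ kNot e := by cases e <;> rfl
theorem kOut_act (e : Nd k m) : kOut (act T e) ↔ kOut e := by cases e <;> rfl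

theorem wr_act (e e' : Nd k m) : wr (act T e) (act T e') ↔ wr e e' := by
  cases e <;> cases e' <;> simp only [wr, act]
  · constructor
    · rintro ⟨rfl, h⟩
      exact ⟨rfl, add_right_cancel h⟩
    · rintro ⟨rfl, rfl⟩
      exact ⟨rfl, rfl⟩
  · constructor
    · rintro ⟨rfl, h⟩
      exact ⟨rfl, add_right_cancel h⟩
    · rintro ⟨rfl, rfl⟩
      exact ⟨rfl, rfl⟩
  · exact not_congr ⟨fun h => add_right_cancel h, fun h => by rw [Pi.add_apply, h]⟩
  · constructor
    · rintro ⟨rfl, h⟩
      exact ⟨rfl, add_right_cancel h⟩
    · rintro ⟨rfl, rfl⟩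
      exact ⟨rfl, rfl⟩

theorem valid_act {e : Nd k m} (h : valid s e) (hc : ∀ j, lv e = some j → Con T s s' j) :
    valid s' (act T e) := by
  cases e <;> simp only [valid, act] at h ⊢
  · rw [← h]
    simp only [Pi.add_apply, Finset.sum_add_distrib, T.hδ, add_zero]
  · rw [← h]
    simp only [Pi.add_apply, Finset.sum_add_distrib, T.hδ, add_zero]
  · rename_i j x
    refine ⟨?_, ?_⟩
    · rintro rfl
      rw [h.1 rfl, T.x0, add_zero]
    · rintro rfl
      rw [h.2 rfl, T.xm, add_zero]
  · rename_i j x y σ
    obtain ⟨h1, h2, h3⟩ := h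
    refine ⟨?_, ?_, ?_⟩
    · intro hj
      rw [h1 hj, hj, T.x0, add_zero]
    · intro hj
      rw [h2 hj, hj, T.xm, add_zero]
    · have h4 : ∑ i, T.δ i j + T.x j.castSucc + T.x j.succ = s j + s' j := hc j rfl
      rw [Finset.sum_add_distrib, h3]
      have h5 : ∀ a b c d e x y : ZMod 2, a + b + c = d + e →
          x + y + d + a = x + b + (y + c) + e := by decide
      exact h5 _ _ _ _ _ _ _ h4

/-- positions of the game -/
def RR (s s' : Fin m → ZMod 2) (c : ℕ) (v : Fin c → UU k s) (v' : Fin c → UU k s') : Prop :=
  ∃ T : Tr k m, (∀ i j, lv (v i).1 = some j → Con T s s' j) ∧ ∀ i, (v' i).1 = act T (v i).1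

/-- change a group -/
def md (T : Tr k m) (i₀ : Fin k) (β : Fin m → ZMod 2) (hβ : ∑ j, β j = 0) : Tr k m where
  δ := Function.update T.δ i₀ (T.δ i₀ + β)
  x := T.x
  hδ := by
    intro i
    by_cases h : i = i₀
    · subst h
      rw [Function.update_self]
      simp only [Pi.add_apply, Finset.sum_add_distrib, T.hδ, hβ, add_zero]
    · rw [Function.update_of_ne h]
      exact T.hδ i
  x0 := T.x0
  xm := T.xm

theorem md_sum (T : Tr k m) (i₀ : Fin k) (β : Fin m → ZMod 2) (hβ : ∑ j, β j = 0) (j : Fin m) :
    ∑ i, (md T i₀ β hβ).δ i j = ∑ i, T.δ i j + β j := by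
  classical
  have h1 : ∀ i, (md T i₀ β hβ).δ i j = T.δ i j + if i = i₀ then β j else 0 := by
    intro i
    change Function.update T.δ i₀ (T.δ i₀ + β) i j = _
    by_cases h : i = i₀
    · subst h
      rw [Function.update_self, if_pos rfl]
      rfl
    · rw [Function.update_of_ne h, if_neg h, add_zero]
  simp only [h1, Finset.sum_add_distrib, Finset.sum_ite_eq', Finset.mem_univ, if_true]

theorem md_act {T : Tr k m} {i₀ : Fin k} {β : Fin m → ZMod 2} {hβ : ∑ j, β j = 0} {e : Nd k m}
    (h1 : tg e ≠ some i₀) (h2 : ∀ j, lv e = some j → β j = 0) : act (md T i₀ β hβ) e = act T e := by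
  cases e <;> simp only [act]
  · rename_i i α
    have h : i ≠ i₀ := fun h => h1 (by rw [h]; rfl)
    congr 2
    exact Function.update_of_ne h _ _
  · rename_i i α
    have h : i ≠ i₀ := fun h => h1 (by rw [h]; rfl)
    congr 2
    exact Function.update_of_ne h _ _
  · rfl
  · rename_i j x y σ
    congr 1
    funext i
    congr 1
    change Function.update T.δ i₀ (T.δ i₀ + β) i j = _
    by_cases h : i = i₀
    · subst h
      rw [Function.update_self]
      change T.δ i j + β j = T.δ i j
      rw [h2 j rfl, add_zero]
    · rw [Function.update_of_ne h]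

theorem exists_free {n : ℕ} {ι : Type} (S : Finset ι) (f : ι → Option (Fin n)) (h : S.card < n) :
    ∃ a : Fin n, ∀ i ∈ S, f i ≠ some a := by
  classical
  by_contra hcon
  push Not at hcon
  have h1 : (Finset.univ : Finset (Fin n)).card ≤ (S.image f).card := by
    refine Finset.card_le_card_of_injOn some ?_ (fun a _ b _ h => Option.some_injective _ h)
    intro a _
    obtain ⟨i, hi, hia⟩ := hcon a
    exact Finset.mem_coe.2 (Finset.mem_image.2 ⟨i, hi, hia⟩)
  rw [Finset.card_univ, Fintype.card_fin] at h1
  have h2 := Finset.card_image_le (s := S) (f := f)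
  omega

theorem game {c : ℕ} (hk : c ≤ k) (hm : c < m) :
    GameSys (srcC k s) (srcC k s') c (RR s s' c) where
  eq := by
    rintro v v' ⟨T, _, h⟩ i j
    constructor
    · intro hh
      apply Subtype.ext
      rw [h, h, hh]
    · intro hh
      apply Subtype.ext
      apply act_inj (T := T)
      rw [← h, ← h, hh]
  isVar := by
    rintro v v' ⟨T, _, h⟩ i
    change kVar _ ↔ kVar _
    rw [h, kVar_act]
  isAnd := by
    rintro v v' ⟨T, _, h⟩ i
    change kAnd _ ↔ kAnd _
    rw [h, kAnd_act]
  isOr := by
    rintro v v' ⟨T, _, h⟩ i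
    change kOr _ ↔ kOr _
    rw [h, kOr_act]
  isNot := by
    rintro v v' ⟨T, _, h⟩ i
    change kNot _ ↔ kNot _
    rw [h, kNot_act]
  isOut := by
    rintro v v' ⟨T, _, h⟩ i
    change kOut _ ↔ kOut _
    rw [h, kOut_act]
  wire := by
    rintro v v' ⟨T, _, h⟩ i j
    change wr _ _ ↔ wr _ _
    rw [h, h, wr_act]
  ext := by
    classical
    rintro v v' ⟨T, hT, hv⟩ i
    have hcard : (Finset.univ.erase i).card < c := by
      rw [Finset.card_erase_of_mem (Finset.mem_univ i), Finset.card_univ, Fintype.card_fin]
      have := i.2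
      omega
    obtain ⟨i₀, hi₀⟩ := exists_free (Finset.univ.erase i) (fun i' => tg (v i').1)
      (hcard.trans_le hk)
    -- a level that is not used
    have hl : ∀ j : Fin m, ∃ l : Fin m, l ≠ j ∧ ∀ i' ∈ Finset.univ.erase i, lv (v i').1 ≠ some l := by
      intro j
      have h1 : (insert none ((Finset.univ.erase i).image some) : Finset (Option (Fin c))).card
          < m := by
        refine lt_of_le_of_lt (Finset.card_insert_le _ _) ?_
        have := Finset.card_image_le (s := Finset.univ.erase i) (f := (some : Fin c → Option (Fin c)))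
        omega
      obtain ⟨l, hl⟩ := exists_free (insert none ((Finset.univ.erase i).image some))
        (fun o : Option (Fin c) => match o with
          | none => some j
          | some i' => lv (v i').1) h1
      refine ⟨l, ?_, ?_⟩
      · rintro rfl
        exact hl none (Finset.mem_insert_self _ _) rfl
      · intro i' hi'
        exact hl (some i') (Finset.mem_insert_of_mem (Finset.mem_image_of_mem _ hi'))
    choose l hl1 hl2 using hl
    let β : Fin m → Fin m → ZMod 2 := fun j => Pi.single j 1 + Pi.single (l j) 1
    have hβ : ∀ j, ∑ j', β j j' = 0 := by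
      intro j
      simp only [β, Pi.add_apply, Finset.sum_add_distrib, Finset.sum_pi_single', Finset.mem_univ,
        if_true]
      decide
    have hβ1 : ∀ j, β j j = 1 := by
      intro j
      simp only [β, Pi.add_apply, Pi.single_eq_same, Pi.single_eq_of_ne (hl1 j).symm, add_zero]
    have hβ0 : ∀ j j', j' ≠ j → j' ≠ l j → β j j' = 0 := by
      intro j j' h1 h2
      simp only [β, Pi.add_apply, Pi.single_eq_of_ne h1, Pi.single_eq_of_ne h2, add_zero]
    let W : Option (Fin m) → Tr k m := fun o => match o with
      | none => T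
      | some j => if Con T s s' j then T else md T i₀ (β j) (hβ j)
    have hW : ∀ o, W o = T ∨ ∃ j, o = some j ∧ ¬ Con T s s' j ∧ W o = md T i₀ (β j) (hβ j) := by
      intro o
      rcases o with _ | j
      · exact Or.inl rfl
      · by_cases h : Con T s s' j
        · exact Or.inl (if_pos h)
        · exact Or.inr ⟨j, rfl, h, if_neg h⟩
    have hWc : ∀ j, Con (W (some j)) s s' j := by
      intro j
      by_cases h : Con T s s' j
      · have : W (some j) = T := if_pos h
        rw [this]
        exact h
      · have h1 : W (some j) = md T i₀ (β j) (hβ j) := if_neg h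
        rw [h1]
        unfold Con at h ⊢
        rw [md_sum, hβ1]
        change _ + T.x j.castSucc + T.x j.succ = _
        generalize ∑ i, T.δ i j = a at h ⊢
        generalize T.x j.castSucc = b at h ⊢
        generalize T.x j.succ = c at h ⊢
        generalize s j = d at h ⊢
        generalize s' j = e at h ⊢
        revert a b c d e
        decide
    -- the old names
    have hold : ∀ o, ∀ i' ∈ Finset.univ.erase i, act (W o) (v i').1 = act T (v i').1 ∧
        ∀ j, lv (v i').1 = some j → Con (W o) s s' j := by
      intro o i' hi'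
      rcases hW o with h | ⟨j, -, h1, h2⟩
      · rw [h]
        exact ⟨rfl, hT i'⟩
      · have h3 : ∀ j', lv (v i').1 = some j' → β j j' = 0 := by
          intro j' hj'
          apply hβ0
          · rintro rfl
            exact h1 (hT i' _ hj')
          · rintro rfl
            exact hl2 j i' hi' hj'
        rw [h2]
        refine ⟨md_act (hi₀ i' hi') h3, ?_⟩
        intro j' hj'
        have h4 := hT i' j' hj'
        unfold Con at h4 ⊢
        rw [md_sum, h3 j' hj', add_zero]
        exact h4
    let f : UU k s ≃ UU k s' :=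
      { toFun := fun e => ⟨act (W (lv e.1)) e.1, valid_act e.2 fun j hj => by
          rw [hj]; exact hWc j⟩
        invFun := fun e => ⟨act (W (lv e.1)) e.1, valid_act e.2 fun j hj => by
          rw [hj]; exact (hWc j).symm⟩
        left_inv := fun e => Subtype.ext (by simp only [lv_act, act_act])
        right_inv := fun e => Subtype.ext (by simp only [lv_act, act_act]) }
    refine ⟨f, ?_⟩
    intro e
    refine ⟨W (lv e.1), ?_, ?_⟩
    · intro i' j hj
      by_cases hi' : i' = i
      · subst hi'
        rw [Function.update_self] at hj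
        rw [hj]
        exact hWc j
      · rw [Function.update_of_ne hi'] at hj
        exact (hold _ i' (Finset.mem_erase.2 ⟨hi', Finset.mem_univ _⟩)).2 j hj
    · intro i'
      by_cases hi' : i' = i
      · subst hi'
        rw [Function.update_self, Function.update_self]
        rfl
      · rw [Function.update_of_ne hi', Function.update_of_ne hi', hv,
          (hold _ i' (Finset.mem_erase.2 ⟨hi', Finset.mem_univ _⟩)).1]

end Pool.Agent.WSatCount.Path
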