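import Pool.Agent.WSatCount.Game

/-!
Source circuits for the last link: a path with hidden twists.

`gt j x` (`x = 0, 1`) are the two nodes at level `j`; `leaf j x y σ` (with `∑ σ = x + y + s j`) is
the conjunction of `gt (j + 1) y` and of all `¬ var i α` with `α j ≠ σ i`; so under the assignment
which picks the words `α_i` (with even sum), `gt j x` is true exactly if
`x = ∑_{l ≥ j} (s l + ∑_i α_i l)`, and `gt 0 0` is true exactly if `∑ s = 0`.
-/

namespace Pool.Agent.WSatCount.Path

open Pool.Agent.WSatChain Finset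

/-- names of nodes -/
inductive Nd (k m : ℕ) : Type
  | root
  | grp (i : Fin k)
  | var (i : Fin k) (α : Fin m → ZMod 2)
  | nt (i : Fin k) (α : Fin m → ZMod 2)
  | gt (j : Fin (m + 1)) (x : ZMod 2)
  | leaf (j : Fin m) (x y : ZMod 2) (σ : Fin k → ZMod 2)
  deriving DecidableEq, Fintype

variable {k m : ℕ}

/-- the nodes which are present -/
def valid (s : Fin m → ZMod 2) : Nd k m → Prop
  | .root => True
  | .grp _ => True
  | .var _ α => ∑ j, α j = 0
  | .nt _ α => ∑ j, α j = 0
  | .gt j x => (j = 0 → x = 0) ∧ (j = Fin.last m → x = 0)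
  | .leaf j x y σ => (j.castSucc = 0 → x = 0) ∧ (j.succ = Fin.last m → y = 0) ∧
      ∑ i, σ i = x + y + s j

/-- wires -/
def wr : Nd k m → Nd k m → Prop
  | .root, .grp _ => True
  | .root, .gt j _ => j = 0
  | .grp i, .var i' _ => i' = i
  | .nt i α, .var i' α' => i' = i ∧ α' = α
  | .gt j x, .leaf j' x' _ _ => j'.castSucc = j ∧ x' = x
  | .leaf j _ y _, .gt j' y' => j' = j.succ ∧ y' = y
  | .leaf j _ _ σ, .nt i α => α j ≠ σ i
  | _, _ => False

/-- kinds -/
def kVar : Nd k m → Prop
  | .var _ _ => True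
  | _ => False

def kAnd : Nd k m → Prop
  | .root => True
  | .leaf _ _ _ _ => True
  | .gt j _ => j = Fin.last m
  | _ => False

def kOr : Nd k m → Prop
  | .grp _ => True
  | .gt j _ => j ≠ Fin.last m
  | _ => False

def kNot : Nd k m → Prop
  | .nt _ _ => True
  | _ => False

def kOut : Nd k m → Prop
  | .root => True
  | _ => False

/-- the nodes of the source circuit -/
abbrev UU (k : ℕ) {m : ℕ} (s : Fin m → ZMod 2) : Type := {e : Nd k m // valid s e}

/-- the source circuit -/
def srcC (k : ℕ) {m : ℕ} (s : Fin m → ZMod 2) : Circ (UU k s) where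
  isVar e := kVar e.1
  isAnd e := kAnd e.1
  isOr e := kOr e.1
  isNot e := kNot e.1
  isOut e := kOut e.1
  wire e e' := wr e.1 e'.1

/-- the rank -/
def rk : Nd k m → ℕ
  | .root => 0
  | .grp _ => 1
  | .gt j _ => 1 + 2 * j.1
  | .leaf j _ _ _ => 2 + 2 * j.1
  | .nt _ _ => 2 * m + 3
  | .var _ _ => 2 * m + 4

theorem rk_lt {e e' : Nd k m} (h : wr e e') : rk e < rk e' := by
  cases e <;> cases e' <;> simp only [wr] at h <;> simp only [rk]
  · omega
  · omega
  · omega
  · omega
  · obtain ⟨rfl, rfl⟩ := h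
    simp only [Fin.val_castSucc]
    omega
  · rename_i j x y σ i α
    have := j.2
    omega
  · obtain ⟨rfl, rfl⟩ := h
    simp only [Fin.val_succ]
    omega

theorem src_isCircuit (s : Fin m → ZMod 2) : (srcC k s).IsCircuit where
  kind := by
    rintro ⟨e, he⟩
    change (kVar e ∧ ¬ kAnd e ∧ ¬ kOr e ∧ ¬ kNot e) ∨ (¬ kVar e ∧ kAnd e ∧ ¬ kOr e ∧ ¬ kNot e) ∨
      (¬ kVar e ∧ ¬ kAnd e ∧ kOr e ∧ ¬ kNot e) ∨ (¬ kVar e ∧ ¬ kAnd e ∧ ¬ kOr e ∧ kNot e)
    cases e <;> simp only [kVar, kAnd, kOr, kNot] <;> tauto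
  out := by
    refine ⟨⟨.root, trivial⟩, trivial, ?_⟩
    rintro ⟨e, he⟩ h
    change kOut e at h
    cases e <;> simp only [kOut] at h
    rfl
  var_in := by
    rintro ⟨e, he⟩ ⟨e', he'⟩ h hw
    change kVar e at h
    change wr e e' at hw
    cases e <;> simp only [kVar] at h
    cases e' <;> simp only [wr] at hw
  not_in := by
    rintro ⟨e, he⟩ h
    change kNot e at h
    cases e <;> simp only [kNot] at h
    rename_i i α
    refine ⟨⟨.var i α, he⟩, ⟨rfl, rfl⟩, ?_⟩
    rintro ⟨e', he'⟩ hw
    change wr _ e' at hw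
    cases e' <;> simp only [wr] at hw
    obtain ⟨rfl, rfl⟩ := hw
    rfl
  acyclic := by
    have key : ∀ g h : UU k s, Relation.TransGen (srcC k s).wire g h → rk g.1 < rk h.1 := by
      intro g h hgh
      induction hgh with
      | single h => exact rk_lt h
      | tail _ h ih => exact ih.trans (rk_lt h)
    intro g h
    exact lt_irrefl _ (key g g h)

/-! ### satisfiability -/

/-- the twisted path is satisfiable if the twists are zero -/
theorem src_sat (k m : ℕ) : (srcC k (0 : Fin m → ZMod 2)).WSat k := by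
  let val : Nd k m → Prop := fun e => match e with
    | .root => True
    | .grp _ => True
    | .var _ α => α = 0
    | .nt _ α => α ≠ 0
    | .gt _ x => x = 0
    | .leaf _ _ y σ => σ = 0 ∧ y = 0
  refine ⟨fun e => val e.1, ⟨?_, ?_, ?_⟩, ?_, ?_⟩
  · rintro ⟨e, he⟩ h
    change kAnd e at h
    change val e ↔ ∀ e' : UU k (0 : Fin m → ZMod 2), wr e e'.1 → val e'.1
    cases e <;> simp only [kAnd] at h
    · refine ⟨fun _ => ?_, fun _ => trivial⟩
      rintro ⟨e', he'⟩ hw
      cases e' <;> simp only [wr] at hw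
      · trivial
      · exact he'.1 hw
    · rename_i j x
      subst h
      refine ⟨fun _ => ?_, fun _ => he.2 rfl⟩
      rintro ⟨e', he'⟩ hw
      cases e' <;> simp only [wr] at hw
      exact absurd hw.1 (Fin.castSucc_ne_last _)
    · rename_i j x y σ
      constructor
      · rintro ⟨h1, h2⟩ ⟨e', he'⟩ hw
        cases e' <;> simp only [wr] at hw
        · change _ ≠ _
          rintro rfl
          apply hw
          rw [h1]
          rfl
        · exact hw.2.trans h2
      · intro h1
        refine ⟨?_, ?_⟩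
        · funext i
          by_contra hc
          have h2 := h1 ⟨.nt i 0, by simp [valid]⟩ (fun h => hc h.symm)
          exact h2 rfl
        · refine h1 ⟨.gt j.succ y, ⟨fun h => absurd h (Fin.succ_ne_zero _), he.2.1⟩⟩ ⟨rfl, rfl⟩
  · rintro ⟨e, he⟩ h
    change kOr e at h
    change val e ↔ ∃ e' : UU k (0 : Fin m → ZMod 2), wr e e'.1 ∧ val e'.1
    cases e <;> simp only [kOr] at h
    · rename_i i
      exact ⟨fun _ => ⟨⟨.var i 0, by simp [valid]⟩, rfl, rfl⟩, fun _ => trivial⟩
    · rename_i j x
      constructor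
      · intro hx
        change x = 0 at hx
        subst hx
        obtain ⟨j', rfl⟩ := Fin.exists_castSucc_eq.2 h
        exact ⟨⟨.leaf j' 0 0 0, ⟨fun _ => rfl, fun _ => rfl, by simp⟩⟩, ⟨rfl, rfl⟩, rfl, rfl⟩
      · rintro ⟨⟨e', he'⟩, hw, hv⟩
        change wr _ e' at hw
        change val e' at hv
        cases e' <;> simp only [wr] at hw
        rename_i j' x' y' σ'
        obtain ⟨h1, h2⟩ := hv
        have h3 := he'.2.2
        rw [h1, h2] at h3
        simp only [Pi.zero_apply, sum_const_zero, add_zero] at h3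
        change x = 0
        rw [← hw.2, ← h3]
  · rintro ⟨e, he⟩ h
    change kNot e at h
    change val e ↔ ∀ e' : UU k (0 : Fin m → ZMod 2), wr e e'.1 → ¬ val e'.1
    cases e <;> simp only [kNot] at h
    rename_i i α
    constructor
    · rintro h1 ⟨e', he'⟩ hw
      cases e' <;> simp only [wr] at hw
      obtain ⟨rfl, rfl⟩ := hw
      exact h1
    · intro h1
      exact h1 ⟨.var i α, he⟩ ⟨rfl, rfl⟩
  · rintro ⟨e, he⟩ h
    change kOut e at h
    cases e <;> simp only [kOut] at h
    trivial
  · let F : Fin k → {g : UU k (0 : Fin m → ZMod 2) // (srcC k 0).isVar g ∧ val g.1} :=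
      fun i => ⟨⟨.var i 0, by simp [valid]⟩, trivial, rfl⟩
    refine (Nat.card_congr (Equiv.ofBijective F ⟨?_, ?_⟩).symm).trans (Nat.card_fin k)
    · intro i i' hh
      have h1 := congrArg (fun g => g.1.1) hh
      simp only [F] at h1
      injection h1
    · rintro ⟨⟨e, he⟩, h1, h2⟩
      cases e <;> first | exact h1.elim | skip
      rename_i i α
      change α = 0 at h2
      subst h2
      exact ⟨i, rfl⟩

/-- the twisted path is not satisfiable if the sum of the twists is not zero -/
theorem src_unsat {s : Fin m → ZMod 2} (hs : ∑ j, s j ≠ 0) : ¬ (srcC k s).WSat k := by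
  classical
  rintro ⟨val, hv, hout, hcard⟩
  have hroot := hout ⟨.root, trivial⟩ trivial
  have hr := (hv.and ⟨.root, trivial⟩ trivial).1 hroot
  -- one variable of every group
  have hgrp : ∀ i : Fin k, ∃ α : Fin m → ZMod 2, ∃ h : ∑ j, α j = 0, val ⟨.var i α, h⟩ := by
    intro i
    have h1 := hr ⟨.grp i, trivial⟩ trivial
    obtain ⟨⟨e, he⟩, hw, h2⟩ := (hv.or ⟨.grp i, trivial⟩ trivial).1 h1
    change wr _ e at hw
    cases e <;> simp only [wr] at hw
    subst hw
    exact ⟨_, he, h2⟩
  choose α hα hval using hgrp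
  -- these are all
  have hfin : Finite {g : UU k s // (srcC k s).isVar g ∧ val g} := inferInstance
  let f : Fin k → {g : UU k s // (srcC k s).isVar g ∧ val g} :=
    fun i => ⟨⟨.var i (α i), hα i⟩, trivial, hval i⟩
  have hf : Function.Injective f := by
    intro i i' h
    have h1 : (f i).1.1 = (f i').1.1 := by rw [h]
    simp only [f] at h1
    injection h1
  have hfs : Function.Surjective f := by
    have := Fintype.ofFinite {g : UU k s // (srcC k s).isVar g ∧ val g}
    refine ((Fintype.bijective_iff_injective_and_card f).2 ⟨hf, ?_⟩).2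
    rw [Fintype.card_fin, ← Nat.card_eq_fintype_card, hcard]
  have huniq : ∀ (i : Fin k) (β : Fin m → ZMod 2) (h : ∑ j, β j = 0), val ⟨.var i β, h⟩ →
      β = α i := by
    intro i β h hβ
    obtain ⟨i', hi'⟩ := hfs ⟨⟨.var i β, h⟩, trivial, hβ⟩
    have h1 := congrArg (fun g => g.1.1) hi'
    simp only [f] at h1
    injection h1 with h2 h3
    subst h2
    exact h3.symm
  -- the values along the path
  have key : ∀ (n : ℕ) (j : Fin (m + 1)), j.1 + n = m → ∀ (x : ZMod 2) (h : valid s (.gt j x)),
      val ⟨.gt j x, h⟩ → x = ∑ l : Fin m, if j.1 ≤ l.1 then s l + ∑ i, α i l else 0 := by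
    intro n
    induction n with
    | zero =>
      intro j hj x h _
      have h1 : j = Fin.last m := Fin.ext (by simpa using hj)
      rw [h.2 h1]
      symm
      refine Finset.sum_eq_zero fun l _ => ?_
      rw [if_neg]
      have := l.2
      omega
    | succ n ih =>
      intro j hj x h hx
      have hne : j ≠ Fin.last m := by
        rintro rfl
        simp at hj
      obtain ⟨⟨e, he⟩, hw, h2⟩ := (hv.or ⟨.gt j x, h⟩ hne).1 hx
      change wr _ e at hw
      cases e <;> simp only [wr] at hw
      rename_i j' x' y σ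
      obtain ⟨rfl, rfl⟩ := hw
      have h3 := (hv.and ⟨.leaf j' x' y σ, he⟩ trivial).1 h2
      have h4 := h3 ⟨.gt j'.succ y, ⟨fun h => absurd h (Fin.succ_ne_zero _), he.2.1⟩⟩ ⟨rfl, rfl⟩
      have h5 := ih j'.succ (by simp at hj ⊢; omega) y _ h4
      have h6 : ∀ i, α i j' = σ i := by
        intro i
        by_contra hc
        have h7 := h3 ⟨.nt i (α i), hα i⟩ hc
        exact (hv.not ⟨.nt i (α i), hα i⟩ trivial).1 h7 ⟨.var i (α i), hα i⟩ ⟨rfl, rfl⟩ (hval i)
      have h7 := he.2.2
      have h8 : (∑ l : Fin m, if j'.castSucc.1 ≤ l.1 then s l + ∑ i, α i l else 0) =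
          (s j' + ∑ i, α i j') + ∑ l : Fin m, if j'.succ.1 ≤ l.1 then s l + ∑ i, α i l else 0 := by
        rw [← Finset.sum_erase_add _ _ (Finset.mem_univ j'), if_pos (by simp)]
        rw [← Finset.sum_erase_add Finset.univ (fun l : Fin m =>
          if j'.succ.1 ≤ l.1 then s l + ∑ i, α i l else 0) (Finset.mem_univ j'),
          if_neg (by simp)]
        have h9 : ∀ l ∈ Finset.univ.erase j', (if j'.castSucc.1 ≤ l.1 then s l + ∑ i, α i l else 0)
            = if j'.succ.1 ≤ l.1 then s l + ∑ i, α i l else 0 := by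
          intro l hl
          have hl' : l ≠ j' := Finset.ne_of_mem_erase hl
          have hl2 : l.1 ≠ j'.1 := fun h => hl' (Fin.ext h)
          simp only [Fin.val_castSucc, Fin.val_succ]
          congr 1
          apply propext
          omega
        rw [Finset.sum_congr rfl h9]
        ring
      rw [h8, ← h5]
      have h9 : ∑ i, α i j' = ∑ i, σ i := Finset.sum_congr rfl fun i _ => h6 i
      rw [h9, h7]
      have h10 : ∀ a b c : ZMod 2, a = c + (a + b + c) + b := by decide
      exact h10 _ _ _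
  have h0 := hr ⟨.gt 0 0, ⟨fun _ => rfl, fun _ => rfl⟩⟩ rfl
  have h1 := key m 0 (by simp) 0 _ h0
  apply hs
  have h2 : ∑ l : Fin m, (if (0 : Fin (m + 1)).1 ≤ l.1 then s l + ∑ i, α i l else 0) =
      ∑ l, s l + ∑ i, ∑ l, α i l := by
    rw [Finset.sum_comm, ← Finset.sum_add_distrib]
    refine Finset.sum_congr rfl fun l _ => ?_
    rw [if_pos (by simp)]
  rw [h2] at h1
  simp only [hα, Finset.sum_const_zero, add_zero] at h1
  exact h1.symm

end Pool.Agent.WSatCount.Path
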