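import Pool.Agent.WSatCount.PathGame

/-!
Interpretations of twisted paths: transfer along transformations, and the tree lemma: in an
interpreted formula the parent of a node which is not a variable touches no new level.
-/

namespace Pool.Agent.WSatCount.Path

open Pool.Agent.WSatChain Finset

section trans

variable {k m n N : ℕ} {s s' : Fin m → ZMod 2} {F : Interp n N} {T : Tr k m}

/-- names of the nodes of the interpreted circuit -/
abbrev NP (k m : ℕ) (F : Interp n N) : Type := Fin F.M × (Fin F.a → Nd k m)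

/-- the name -/
def nm (q : F.Univ (srcC k s)) : NP k m F := (q.1.1, fun j => (q.1.2 j).1)

theorem nm_inj {q r : F.Univ (srcC k s)} (h : nm q = nm r) : q = r := by
  have h1 : (nm q).1 = (nm r).1 := by rw [h]
  have h2 : ∀ j, (nm q).2 j = (nm r).2 j := by
    intro j
    rw [h]
  apply Subtype.ext
  apply Prod.ext
  · exact h1
  · funext j
    apply Subtype.ext
    exact h2 j

/-- the action on names -/
def actP (T : Tr k m) (p : NP k m F) : NP k m F := (p.1, fun j => act T (p.2 j))

theorem actP_actP (p : NP k m F) : actP T (actP T p) = p := by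
  apply Prod.ext
  · rfl
  · funext j
    exact act_act _

/-- the transformation is consistent on a name -/
def ConP (T : Tr k m) (s s' : Fin m → ZMod 2) (p : NP k m F) : Prop :=
  ∀ i j, lv (p.2 i) = some j → Con T s s' j

theorem RR_one {u : Fin F.a → UU k s} {u' : Fin F.a → UU k s'}
    (h : ∀ i j, lv (u i).1 = some j → Con T s s' j) (hu : ∀ j, (u' j).1 = act T (u j).1) :
    RR s s' n (F.one u) (F.one u') := by
  refine ⟨T, ?_, ?_⟩
  · intro j
    unfold Interp.one
    split
    · exact h _
    · exact h _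
  · intro j
    unfold Interp.one
    split
    · exact hu _
    · exact hu _

theorem RR_two {u w : Fin F.a → UU k s} {u' w' : Fin F.a → UU k s'}
    (h : ∀ i j, lv (u i).1 = some j → Con T s s' j)
    (h' : ∀ i j, lv (w i).1 = some j → Con T s s' j)
    (hu : ∀ j, (u' j).1 = act T (u j).1) (hw : ∀ j, (w' j).1 = act T (w j).1) :
    RR s s' n (F.two u w) (F.two u' w') := by
  refine ⟨T, ?_, ?_⟩
  · intro j
    unfold Interp.two
    split
    · exact h _
    · split
      · exact h' _
      · exact h _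
  · intro j
    unfold Interp.two
    split
    · exact hu _
    · split
      · exact hw _
      · exact hu _

theorem nm_actP {q : F.Univ (srcC k s)} {q' : F.Univ (srcC k s')}
    (h : nm q' = actP T (nm q)) : q'.1.1 = q.1.1 ∧ ∀ j, (q'.1.2 j).1 = act T (q.1.2 j).1 :=
  ⟨congrArg Prod.fst h, fun j => congrFun (congrArg Prod.snd h) j⟩

/-- lifting a node -/
theorem lift (hk : n ≤ k) (hm : n < m) (q : F.Univ (srcC k s)) (h : ConP T s s' (nm q)) :
    ∃ q' : F.Univ (srcC k s'), nm q' = actP T (nm q) := by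
  obtain ⟨⟨M, u⟩, hq⟩ := q
  have hval : ∀ j, valid s' (act T (u j).1) := fun j => valid_act (u j).2 (h j)
  let u' : Fin F.a → UU k s' := fun j => ⟨act T (u j).1, hval j⟩
  have hR : RR s s' n (F.one u) (F.one u') := RR_one h fun j => rfl
  exact ⟨⟨(M, u'), ((game hk hm).sat _ _ _ hR).1 hq⟩, rfl⟩

theorem tr_sat (hk : n ≤ k) (hm : n < m) {q : F.Univ (srcC k s)} {q' : F.Univ (srcC k s')}
    (h : ConP T s s' (nm q)) (hq : nm q' = actP T (nm q)) (ψ : Fin F.M → Fml n N) :
    (srcC k s).Sat (ψ q.1.1) (F.one q.1.2) ↔ (srcC k s').Sat (ψ q'.1.1) (F.one q'.1.2) := by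
  obtain ⟨h1, h2⟩ := nm_actP hq
  have hR := RR_one (u := q.1.2) (u' := q'.1.2) h h2
  rw [h1]
  exact (game hk hm).sat _ _ _ hR

theorem tr_wire (hk : n ≤ k) (hm : n < m) {q r : F.Univ (srcC k s)}
    {q' r' : F.Univ (srcC k s')} (h : ConP T s s' (nm q)) (h' : ConP T s s' (nm r))
    (hq : nm q' = actP T (nm q)) (hr : nm r' = actP T (nm r)) :
    (F.apply (srcC k s)).wire q r ↔ (F.apply (srcC k s')).wire q' r' := by
  obtain ⟨h1, h2⟩ := nm_actP hq
  obtain ⟨h3, h4⟩ := nm_actP hr
  have hR := RR_two (u := q.1.2) (u' := q'.1.2) (w := r.1.2) (w' := r'.1.2) h h' h2 h4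
  have := (game hk hm).sat (F.wire q.1.1 r.1.1) _ _ hR
  change (srcC k s).Sat _ _ ↔ (srcC k s').Sat (F.wire q'.1.1 r'.1.1) _
  rw [h1, h3]
  exact this

/-! ### levels -/

/-- the levels touched by a name -/
def lev : Nd k m → Finset (Fin (m + 1))
  | .gt j _ => {j}
  | .leaf j _ _ _ => {j.castSucc, j.succ}
  | _ => ∅

theorem lev_act (e : Nd k m) : lev (act T e) = lev e := by cases e <;> rfl

theorem card_lev (e : Nd k m) : (lev e).card ≤ 2 := by
  cases e with
  | gt j x => simp [lev]
  | leaf j x y σ => exact (Finset.card_insert_le _ _).trans (by simp)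
  | _ => simp [lev]

/-- the inner levels touched by a tuple -/
def levP (p : NP k m F) : Finset (Fin (m + 1)) :=
  (univ.biUnion fun j => lev (p.2 j)).filter fun j => j ≠ 0 ∧ j ≠ Fin.last m

theorem levP_act (p : NP k m F) : levP (actP T p) = levP p := by
  unfold levP actP
  simp only [lev_act]

theorem card_levP (p : NP k m F) : (levP p).card ≤ 2 * F.a := by
  refine (Finset.card_filter_le _ _).trans ?_
  refine (Finset.card_biUnion_le_card_mul _ _ 2 fun j _ => card_lev _).trans ?_
  rw [Finset.card_univ, Fintype.card_fin, mul_comm]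

theorem mem_levP {p : NP k m F} {j : Fin (m + 1)} (h0 : j ≠ 0) (hl : j ≠ Fin.last m) :
    j ∈ levP p ↔ ∃ i, j ∈ lev (p.2 i) := by
  unfold levP
  rw [Finset.mem_filter, Finset.mem_biUnion]
  constructor
  · rintro ⟨⟨i, _, h⟩, _⟩
    exact ⟨i, h⟩
  · rintro ⟨i, h⟩
    exact ⟨⟨i, Finset.mem_univ _, h⟩, h0, hl⟩

/-- the indicator of an inner level, compensated in a group -/
def ind (i₀ : Fin k) (j : Fin (m + 1)) (h0 : j ≠ 0) (hl : j ≠ Fin.last m) : Tr k m where
  δ i l := if i = i₀ then (if l.castSucc = j then 1 else 0) + (if l.succ = j then 1 else 0) else 0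
  x j' := if j' = j then 1 else 0
  hδ := by
    intro i
    by_cases h : i = i₀
    · simp only [if_pos h, Finset.sum_add_distrib]
      obtain ⟨j1, rfl⟩ := Fin.exists_succ_eq.2 h0
      obtain ⟨j2, hj2⟩ := Fin.exists_castSucc_eq.2 hl
      have h1 : ∀ l : Fin m, (l.castSucc = j1.succ) ↔ l = j2 := by
        intro l
        rw [← hj2, Fin.castSucc_inj]
      have h2 : ∀ l : Fin m, (l.succ = j1.succ) ↔ l = j1 := fun l => Fin.succ_inj
      simp only [h1, h2, Finset.sum_ite_eq', Finset.mem_univ, if_true]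
      decide
    · simp only [if_neg h, Finset.sum_const_zero]
  x0 := if_neg (Ne.symm h0)
  xm := if_neg (Ne.symm hl)

theorem ind_con (i₀ : Fin k) (j : Fin (m + 1)) (h0 : j ≠ 0) (hl : j ≠ Fin.last m) (l : Fin m) :
    Con (ind i₀ j h0 hl) s s l := by
  unfold Con
  change ∑ i, (if i = i₀ then (if l.castSucc = j then (1 : ZMod 2) else 0) +
    (if l.succ = j then 1 else 0) else 0) + (if l.castSucc = j then 1 else 0) +
    (if l.succ = j then 1 else 0) = s l + s l
  rw [Finset.sum_ite_eq' univ i₀, if_pos (Finset.mem_univ _)]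
  generalize (if l.castSucc = j then (1 : ZMod 2) else 0) = a
  generalize (if l.succ = j then (1 : ZMod 2) else 0) = b
  generalize s l = c
  revert a b c
  decide

theorem ind_fix {i₀ : Fin k} {j : Fin (m + 1)} {h0 : j ≠ 0} {hl : j ≠ Fin.last m} {e : Nd k m}
    (h1 : tg e ≠ some i₀) (h2 : j ∉ lev e) : act (ind i₀ j h0 hl) e = e := by
  cases e with
  | root => rfl
  | grp i => rfl
  | var i α =>
    have h : i ≠ i₀ := fun h => h1 (by rw [h]; rfl)
    simp only [act, ind, if_neg h]
    congr 1
    funext l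
    simp
  | nt i α =>
    have h : i ≠ i₀ := fun h => h1 (by rw [h]; rfl)
    simp only [act, ind, if_neg h]
    congr 1
    funext l
    simp
  | gt j' y =>
    have h : j' ≠ j := by
      rintro rfl
      exact h2 (Finset.mem_singleton_self _)
    simp only [act, ind, if_neg h, add_zero]
  | leaf l y z σ =>
    have h3 : l.castSucc ≠ j := by
      rintro rfl
      exact h2 (Finset.mem_insert_self _ _)
    have h4 : l.succ ≠ j := by
      rintro rfl
      exact h2 (Finset.mem_insert_of_mem (Finset.mem_singleton_self _))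
    simp only [act, ind, if_neg h3, if_neg h4, add_zero, ite_self]

theorem ind_move {i₀ : Fin k} {j : Fin (m + 1)} {h0 : j ≠ 0} {hl : j ≠ Fin.last m} {e : Nd k m}
    (h : j ∈ lev e) : act (ind i₀ j h0 hl) e ≠ e := by
  have h01 : ∀ a : ZMod 2, a + 1 ≠ a := by decide
  cases e with
  | gt j' y =>
    have h1 : j = j' := Finset.mem_singleton.1 h
    subst h1
    simp only [act, ind, if_true]
    intro h2
    injection h2 with _ h3
    exact h01 _ h3
  | leaf l y z σ =>
    rcases Finset.mem_insert.1 h with h1 | h1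
    · subst h1
      simp only [act, ind, if_true]
      intro h2
      injection h2 with _ h3
      exact h01 _ h3
    · have h1 := Finset.mem_singleton.1 h1
      subst h1
      simp only [act, ind, if_true]
      intro h2
      injection h2 with _ _ h3
      exact h01 _ h3
  | _ => simp [lev] at h

/-- **tree lemma** -/
theorem levP_mono (hk : n ≤ k) (hm : n < m) (hF : (F.apply (srcC k s)).IsFormula)
    {q r : F.Univ (srcC k s)} (hw : (F.apply (srcC k s)).wire q r)
    (hr : ¬ (F.apply (srcC k s)).isVar r) : levP (nm q) ⊆ levP (nm r) := by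
  classical
  intro j hj
  have hj' := hj
  unfold levP at hj
  rw [Finset.mem_filter, Finset.mem_biUnion] at hj
  obtain ⟨⟨i₁, _, hi₁⟩, h0, hl⟩ := hj
  by_contra hcon
  rw [mem_levP h0 hl] at hcon
  push Not at hcon
  -- a free group
  have hfree : ∃ i₀ : Fin k, (∀ i, tg ((nm q).2 i) ≠ some i₀) ∧ ∀ i, tg ((nm r).2 i) ≠ some i₀ := by
    have hcard : ((Finset.univ.erase (Sum.inl i₁) : Finset (Fin F.a ⊕ Fin F.a))).card < k := by
      rw [Finset.card_erase_of_mem (Finset.mem_univ _), Finset.card_univ, Fintype.card_sum,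
        Fintype.card_fin]
      have := F.a_pos
      have := F.two_a
      omega
    obtain ⟨i₀, hi₀⟩ := exists_free (Finset.univ.erase (Sum.inl i₁))
      (Sum.elim (fun i => tg ((nm q).2 i)) fun i => tg ((nm r).2 i)) hcard
    refine ⟨i₀, ?_, ?_⟩
    · intro i
      by_cases hi : i = i₁
      · subst hi
        intro h
        revert h hi₁
        cases (nm q).2 i <;> simp [lev, tg]
      · exact hi₀ (Sum.inl i) (Finset.mem_erase.2 ⟨fun h => hi (Sum.inl_injective h),
          Finset.mem_univ _⟩)
    · intro i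
      exact hi₀ (Sum.inr i) (Finset.mem_erase.2 ⟨Sum.inr_ne_inl, Finset.mem_univ _⟩)
  obtain ⟨i₀, h1, h2⟩ := hfree
  have hcq : ConP (ind i₀ j h0 hl) s s (nm q) := fun _ l _ => ind_con i₀ j h0 hl l
  have hcr : ConP (ind i₀ j h0 hl) s s (nm r) := fun _ l _ => ind_con i₀ j h0 hl l
  obtain ⟨q', hq'⟩ := lift hk hm q hcq
  have hr' : nm r = actP (ind i₀ j h0 hl) (nm r) := by
    apply Prod.ext
    · rfl
    · funext i
      exact (ind_fix (h2 i) (hcon i)).symm
  have hw' := (tr_wire hk hm hcq hcr hq' hr').1 hw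
  have h3 := hF.once r q q' hr hw hw'
  rw [← h3] at hq'
  exact ind_move hi₁ (congrFun (congrArg Prod.snd hq') i₁).symm

end trans

end Pool.Agent.WSatCount.Path
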