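import Pool.Agent.WSatChain.Circuit
import Pool.Agent.ParityAC.Tree

/-! The source circuits with hidden bits. -/

namespace Pool.Agent.WSatCount

open Pool.Agent.WSatChain Pool.Agent.ParityAC Finset

/-- a linear code of functions on the lists of length `s + 1` -/
structure Code (B : Type) [Fintype B] (s c D : ℕ) : Type 1 where
  A : Type
  [grp : AddCommGroup A]
  [fin : Finite A]
  ev : A → List B → ZMod 2
  char2 : ∀ a : A, a + a = 0
  ev_add : ∀ a b y, ev (a + b) y = ev a y + ev b y
  indep : ∀ Y : List (List B), Y.length ≤ c → (∀ y ∈ Y, y.length = s + 1) →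
    ∀ τ : List B → ZMod 2, ∃ a, ∀ y ∈ Y, ev a y = τ y
  even : ∀ a, bp (ev a) (s + 1) [] = 0
  reach : ∀ ε : B → ZMod 2, ∑ j, ε j = 0 → ∃ a, ∀ j, bp (ev a) s [j] = ε j
  null : ∃ g : Fin (D + 1) → A, Function.Injective g ∧ ∀ i y, ev (g i) y = 0

attribute [instance] Code.grp Code.fin

/-- the names of the nodes -/
inductive Nm (k : ℕ) (B A : Type) : Type
  | var (i : Fin k) (α : A)
  | grp (i : Fin k)
  | gate (L : List (B × (B → ZMod 2)))
  | leaf (L : List (B × (B → ZMod 2))) (j : B) (σ : Fin k → ZMod 2)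
  | nt (L : List (B × (B → ZMod 2))) (j : B) (σ : Fin k → ZMod 2) (i : Fin k) (α : A)

section src

variable {B : Type} [Fintype B] {s c D k : ℕ} (K : Code B s c D)

/-- the history is legal -/
def ok : List (B × (B → ZMod 2)) → Prop
  | [] => True
  | p :: L => ok L ∧ ∑ x, p.2 x = hd 0 L p.1 + 1

/-- the nodes present for the hidden bits `z` -/
def valid (z : List B → ZMod 2) : Nm k B K.A → Prop
  | .var _ _ => True
  | .grp _ => True
  | .gate L => ok L ∧ L.length ≤ s
  | .leaf L j σ => ok L ∧ L.length = s ∧ ∑ i, σ i = z (j :: pth L) + hd 0 L j + 1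
  | .nt L j σ i α => ok L ∧ L.length = s ∧ ∑ i, σ i = z (j :: pth L) + hd 0 L j + 1 ∧ Odd s ∧
      K.ev α (j :: pth L) ≠ σ i

/-- wires -/
def wr : Nm k B K.A → Nm k B K.A → Prop
  | .gate L, .gate L' => ∃ p, L' = p :: L
  | .gate L, .leaf L' _ _ => L' = L
  | .gate L, .grp _ => L = []
  | .grp i, .var i' _ => i' = i
  | .leaf L j σ, .var i α => Even s ∧ K.ev α (j :: pth L) ≠ σ i
  | .leaf L j σ, .nt L' j' σ' _ _ => L' = L ∧ j' = j ∧ σ' = σ
  | .nt _ _ _ i α, .var i' α' => i' = i ∧ α' = α
  | _, _ => False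

/-- the universe -/
def UU (k : ℕ) (z : List B → ZMod 2) : Type := {e : Nm k B K.A // valid K z e}

def kVar : Nm k B K.A → Prop
  | .var _ _ => True
  | _ => False

def kAnd (s : ℕ) {A : Type} : Nm k B A → Prop
  | .gate L => Even L.length
  | .leaf _ _ _ => Odd s
  | _ => False

def kOr (s : ℕ) {A : Type} : Nm k B A → Prop
  | .gate L => ¬ Even L.length
  | .leaf _ _ _ => ¬ Odd s
  | .grp _ => True
  | _ => False

def kNot {A : Type} : Nm k B A → Prop
  | .nt _ _ _ _ _ => True
  | _ => False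

def kOut {A : Type} : Nm k B A → Prop
  | .gate L => L = []
  | _ => False

/-- the source circuit -/
def srcC (k : ℕ) (z : List B → ZMod 2) : Circ (UU K k z) where
  isVar e := kVar K e.1
  isAnd e := kAnd s e.1
  isOr e := kOr s e.1
  isNot e := kNot e.1
  isOut e := kOut e.1
  wire e h := wr K e.1 h.1

variable {K} {z : List B → ZMod 2}

/-- rank -/
def rk (s : ℕ) {A : Type} : Nm k B A → ℕ
  | .gate L => L.length
  | .leaf _ _ _ => s + 1
  | .grp _ => s + 1
  | .nt _ _ _ _ _ => s + 2
  | .var _ _ => s + 3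

theorem wr_rk {e h : UU K k z} (hw : (srcC K k z).wire e h) : rk s e.1 < rk s h.1 := by
  obtain ⟨e, he⟩ := e
  obtain ⟨h, hh⟩ := h
  change wr K e h at hw
  show rk s e < rk s h
  cases e <;> cases h <;> simp only [wr, rk] at hw ⊢
  case gate.gate L L' =>
    obtain ⟨p, rfl⟩ := hw
    simp
  case gate.leaf L L' j σ =>
    subst hw
    have := hh.2.1
    omega
  case gate.grp L i =>
    subst hw
    simp
  all_goals omega

theorem src_acyclic (g : UU K k z) : ¬ Relation.TransGen (srcC K k z).wire g g := by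
  intro h
  have key : ∀ a b : UU K k z, Relation.TransGen (srcC K k z).wire a b → rk s a.1 < rk s b.1 := by
    intro a b hab
    induction hab with
    | single h => exact wr_rk h
    | tail _ h ih => exact ih.trans (wr_rk h)
  exact absurd (key g g h) (lt_irrefl _)

/-- the output -/
def root : UU K k z := ⟨Nm.gate [], trivial, Nat.zero_le _⟩

theorem root_out : (srcC K k z).isOut root := rfl

theorem out_root {g : UU K k z} (h : (srcC K k z).isOut g) : g = root := by
  obtain ⟨e, he⟩ := g
  change kOut e at h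
  apply Subtype.ext
  show e = Nm.gate []
  cases e <;> simp only [kOut] at h
  rw [h]

theorem src_isCircuit : (srcC K k z).IsCircuit where
  kind := by
    rintro ⟨e, he⟩
    show (kVar K e ∧ ¬ kAnd s e ∧ ¬ kOr s e ∧ ¬ kNot e) ∨
      (¬ kVar K e ∧ kAnd s e ∧ ¬ kOr s e ∧ ¬ kNot e) ∨
      (¬ kVar K e ∧ ¬ kAnd s e ∧ kOr s e ∧ ¬ kNot e) ∨
      (¬ kVar K e ∧ ¬ kAnd s e ∧ ¬ kOr s e ∧ kNot e)
    cases e <;> simp only [kVar, kAnd, kOr, kNot] <;> tauto
  out := ⟨root, root_out, fun _ h => out_root h⟩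
  var_in := by
    rintro ⟨e, he⟩ ⟨h, hh⟩ hv hw
    change kVar K e at hv
    change wr K e h at hw
    cases e <;> simp only [kVar] at hv
    cases h <;> simp only [wr] at hw
  not_in := by
    rintro ⟨e, he⟩ hv
    change kNot e at hv
    cases e <;> simp only [kNot] at hv
    case nt L j σ i α =>
      refine ⟨⟨Nm.var i α, trivial⟩, ⟨rfl, rfl⟩, ?_⟩
      rintro ⟨h, hh⟩ hw
      change wr K _ h at hw
      apply Subtype.ext
      show h = Nm.var i α
      cases h <;> simp only [wr] at hw
      rw [hw.1, hw.2]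
  acyclic := src_acyclic

theorem src_isFormula : (srcC K k z).IsFormula where
  toIsCircuit := src_isCircuit
  used := by
    rintro ⟨e, he⟩
    cases e with
    | var i α => exact Or.inr ⟨⟨Nm.grp i, trivial⟩, rfl⟩
    | grp i => exact Or.inr ⟨root, rfl⟩
    | gate L =>
      cases L with
      | nil => exact Or.inl rfl
      | cons p L =>
        obtain ⟨⟨h1, h2⟩, h3⟩ := he
        rw [List.length_cons] at h3
        exact Or.inr ⟨⟨Nm.gate L, h1, by omega⟩, p, rfl⟩
    | leaf L j σ => exact Or.inr ⟨⟨Nm.gate L, he.1, le_of_eq he.2.1⟩, rfl⟩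
    | nt L j σ i α => exact Or.inr ⟨⟨Nm.leaf L j σ, he.1, he.2.1, he.2.2.1⟩, rfl, rfl, rfl⟩
  once := by
    rintro ⟨e, he⟩ ⟨p, hp⟩ ⟨q, hq⟩ hv hwp hwq
    change ¬ kVar K e at hv
    change wr K p e at hwp
    change wr K q e at hwq
    apply Subtype.ext
    show p = q
    cases e <;> simp only [kVar, not_true_eq_false, not_false_eq_true] at hv
    case grp i =>
      cases p <;> simp only [wr] at hwp
      cases q <;> simp only [wr] at hwq
      rw [hwp, hwq]
    case gate L =>
      cases p <;> simp only [wr] at hwp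
      cases q <;> simp only [wr] at hwq
      obtain ⟨a, ha⟩ := hwp
      obtain ⟨b, hb⟩ := hwq
      rw [ha] at hb
      simp only [List.cons.injEq] at hb
      rw [hb.2]
    case leaf L j σ =>
      cases p <;> simp only [wr] at hwp
      cases q <;> simp only [wr] at hwq
      rw [← hwp, ← hwq]
    case nt L j σ i α =>
      cases p <;> simp only [wr] at hwp
      cases q <;> simp only [wr] at hwq
      obtain ⟨rfl, rfl, rfl⟩ := hwp
      obtain ⟨rfl, rfl, rfl⟩ := hwq
      rfl

end src

end Pool.Agent.WSatCount
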