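import Pool.Agent.WSatCount.Src
import Pool.Agent.WSatChain.Forward

/-! The source circuits: their class, their size and their weighted satisfiability. -/

namespace Pool.Agent.WSatCount

open Pool.Agent.WSatChain Pool.Agent.ParityAC Finset

section src

variable {B : Type} [Fintype B] {s c D k : ℕ} {K : Code B s c D} {z : List B → ZMod 2}

theorem src_lit {e : UU K k z} (h : kVar K e.1 ∨ kNot e.1) : (srcC K k z).IsLit e := by
  rcases h with h | h
  · exact Or.inl h
  · refine Or.inr ⟨h, ?_⟩
    rintro ⟨x, hx⟩ hw
    obtain ⟨e, he⟩ := e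
    change kNot e at h
    change wr K e x at hw
    show kVar K x
    cases e <;> simp only [kNot] at h
    cases x <;> simp only [wr] at hw
    simp [kVar]

theorem lev_grp (i : Fin k) : (srcC K k z).InLevel 1 false 1 ⟨Nm.grp i, trivial⟩ := by
  refine Or.inr ⟨trivial, ?_⟩
  rintro ⟨x, hx⟩ hw
  change wr K (Nm.grp i) x at hw
  refine Or.inl ⟨le_refl _, src_lit (Or.inl ?_)⟩
  show kVar K x
  cases x <;> simp only [wr] at hw
  simp [kVar]

theorem lev_leaf {L : List (B × (B → ZMod 2))} {j : B} {σ : Fin k → ZMod 2}
    (h : valid K z (Nm.leaf L j σ)) :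
    (srcC K k z).InLevel 1 (!(decide (Even s))) 1 ⟨Nm.leaf L j σ, h⟩ := by
  refine Or.inr ⟨?_, ?_⟩
  · by_cases hs : Even s
    · simp only [hs, decide_true, Bool.not_true]
      show ¬ Odd s
      rw [Nat.not_odd_iff_even]
      exact hs
    · simp only [hs, decide_false, Bool.not_false]
      show Odd s
      rw [← Nat.not_even_iff_odd]
      exact hs
  · rintro ⟨x, hx⟩ hw
    change wr K (Nm.leaf L j σ) x at hw
    refine Or.inl ⟨le_refl _, src_lit ?_⟩
    show kVar K x ∨ kNot x
    cases x <;> simp only [wr] at hw
    · exact Or.inl trivial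
    · exact Or.inr trivial

theorem lev_grp' (i : Fin k) : ∀ r, (srcC K k z).InLevel 1 false (r + 1) ⟨Nm.grp i, trivial⟩ := by
  intro r
  induction r with
  | zero => exact lev_grp i
  | succ r ih => exact level_succ (r + 1) false _ ih

theorem lev_gate : ∀ (r : ℕ) (L : List (B × (B → ZMod 2))) (h : valid (k := k) K z (Nm.gate L)),
    L.length + r = s →
    (srcC K k z).InLevel 1 (decide (Even L.length)) (r + 2) ⟨Nm.gate L, h⟩ := by
  intro r
  induction r with
  | zero =>
    intro L h hr
    rw [Nat.add_zero] at hr
    refine Or.inr ⟨?_, ?_⟩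
    · by_cases hs : Even L.length
      · simp only [hs, decide_true]
        exact hs
      · simp only [hs, decide_false]
        exact hs
    · rintro ⟨x, hx⟩ hw
      change wr K (Nm.gate L) x at hw
      cases x <;> simp only [wr] at hw
      case grp i =>
        subst hw
        simp only [List.length_nil, Even.zero, decide_true, Bool.not_true]
        exact lev_grp i
      case gate L' =>
        obtain ⟨p, rfl⟩ := hw
        have := hx.2
        rw [List.length_cons] at this
        omega
      case leaf L' j σ =>
        subst hw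
        have h1 : L'.length = s := hr
        rw [h1]
        exact lev_leaf hx
  | succ r ih =>
    intro L h hr
    refine Or.inr ⟨?_, ?_⟩
    · by_cases hs : Even L.length
      · simp only [hs, decide_true]
        exact hs
      · simp only [hs, decide_false]
        exact hs
    · rintro ⟨x, hx⟩ hw
      change wr K (Nm.gate L) x at hw
      cases x <;> simp only [wr] at hw
      case grp i =>
        subst hw
        simp only [List.length_nil, Even.zero, decide_true, Bool.not_true]
        exact lev_grp' i (r + 1)
      case gate L' =>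
        obtain ⟨p, rfl⟩ := hw
        have h1 := ih (p :: L) hx (by rw [List.length_cons]; omega)
        have h2 : decide (Even (p :: L).length) = !(decide (Even L.length)) := by
          rw [List.length_cons]
          by_cases hs : Even L.length
          · simp [hs, Nat.even_add_one]
          · simp [hs, Nat.even_add_one]
        rw [h2] at h1
        exact h1
      case leaf L' j σ =>
        subst hw
        have := hx.2.1
        omega

theorem src_gamma : GAMMA (s + 2) 1 _ (srcC K k z) := by
  refine ⟨src_isFormula, ?_⟩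
  intro g hg
  rw [out_root hg]
  exact lev_gate (K := K) (z := z) (k := k) s [] ⟨trivial, Nat.zero_le _⟩ (by simp)

/-- the size of the history -/
def lenL {A : Type} : Nm k B A → ℕ
  | .gate L => L.length
  | .leaf L _ _ => L.length
  | .nt L _ _ _ _ => L.length
  | _ => 0

/-- all names -/
def WF (K : Code B s c D) (k : ℕ) : Type := {e : Nm k B K.A // lenL e ≤ s}

theorem valid_len {e : Nm k B K.A} (h : valid K z e) : lenL e ≤ s := by
  cases e with
  | var i α => exact Nat.zero_le _
  | grp i => exact Nat.zero_le _
  | gate L => exact h.2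
  | leaf L j σ => exact le_of_eq h.2.1
  | nt L j σ i α => exact le_of_eq h.2.1

/-- the codes of the names -/
abbrev CT (K : Code B s c D) (k : ℕ) : Type := (Fin s → Option (B × (B → ZMod 2))) × Option B × (Fin k → ZMod 2) ×
  Option (Fin k) × K.A × Fin 5

/-- the list as a function -/
def codeL (s : ℕ) (L : List (B × (B → ZMod 2))) : Fin s → Option (B × (B → ZMod 2)) := fun p => L[p.1]?

omit [Fintype B] in
theorem codeL_inj {L L' : List (B × (B → ZMod 2))} (h : L.length ≤ s) (h' : L'.length ≤ s)
    (he : codeL s L = codeL s L') : L = L' := by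
  apply List.ext_getElem?
  intro n
  by_cases hn : n < s
  · exact congrFun he ⟨n, hn⟩
  · rw [List.getElem?_eq_none (by omega), List.getElem?_eq_none (by omega)]

/-- the code of a name -/
def code : Nm k B K.A → CT K k
  | .var i α => (codeL s [], none, 0, some i, α, 0)
  | .grp i => (codeL s [], none, 0, some i, 0, 1)
  | .gate L => (codeL s L, none, 0, none, 0, 2)
  | .leaf L j σ => (codeL s L, some j, σ, none, 0, 3)
  | .nt L j σ i α => (codeL s L, some j, σ, some i, α, 4)

theorem code_inj {e e' : Nm k B K.A} (h : lenL e ≤ s) (h' : lenL e' ≤ s)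
    (he : code e = code e') : e = e' := by
  cases e <;> cases e' <;> simp only [code, Prod.mk.injEq, Option.some.injEq, Fin.isValue,
    Fin.reduceEq, and_false, and_true, reduceCtorEq] at he
  case var.var i α i' α' => rw [he.2.2.2.1, he.2.2.2.2]
  case grp.grp i i' => rw [he.2.2.2]
  case gate.gate L L' => rw [codeL_inj h h' he]
  case leaf.leaf L j σ L' j' σ' => rw [codeL_inj h h' he.1, he.2.1, he.2.2]
  case nt.nt L j σ i α L' j' σ' i' α' =>
    rw [codeL_inj h h' he.1, he.2.1, he.2.2.1, he.2.2.2.1, he.2.2.2.2]

instance : Finite (CT K k) := by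
  unfold CT
  infer_instance

theorem wf_inj : Function.Injective (fun e : WF K k => code e.1) := by
  intro e e' he
  exact Subtype.ext (code_inj e.2 e'.2 he)

instance : Finite (WF K k) := Finite.of_injective _ wf_inj

/-- forget the validity -/
def toWF (e : UU K k z) : WF K k := ⟨e.1, valid_len e.2⟩

theorem toWF_inj : Function.Injective (toWF (K := K) (k := k) (z := z)) := by
  intro e e' he
  have h1 : (toWF e).1 = (toWF e').1 := by rw [he]
  exact Subtype.ext h1

instance : Finite (UU K k z) := Finite.of_injective _ toWF_inj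

theorem card_UU_le : Nat.card (UU K k z) ≤ Nat.card (CT K k) :=
  (Nat.card_le_card_of_injective _ toWF_inj).trans (Nat.card_le_card_of_injective _ wf_inj)

theorem card_WF_le : Nat.card (WF K k) ≤ Nat.card (CT K k) :=
  Nat.card_le_card_of_injective _ wf_inj

/-! ### semantics -/

variable {val : UU K k z → Prop}

theorem leaf_val (hv : (srcC K k z).IsEval val) {α : Fin k → K.A}
    (hα : ∀ i a, val ⟨Nm.var i a, trivial⟩ ↔ a = α i)
    {L : List (B × (B → ZMod 2))} {j : B} {σ : Fin k → ZMod 2}
    (h : valid K z (Nm.leaf L j σ)) :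
    val ⟨Nm.leaf L j σ, h⟩ ↔ if Odd s then ∀ i, K.ev (α i) (j :: pth L) = σ i
      else ∃ i, K.ev (α i) (j :: pth L) ≠ σ i := by
  by_cases hs : Odd s
  · rw [if_pos hs, hv.and ⟨Nm.leaf L j σ, h⟩ hs]
    have hs' : ¬ Even s := by
      rw [Nat.not_even_iff_odd]
      exact hs
    constructor
    · intro h1 i
      by_contra hne
      have hval : valid K z (Nm.nt L j σ i (α i)) := ⟨h.1, h.2.1, h.2.2, hs, hne⟩
      have h2 := h1 ⟨Nm.nt L j σ i (α i), hval⟩ ⟨rfl, rfl, rfl⟩
      rw [hv.not ⟨Nm.nt L j σ i (α i), hval⟩ trivial] at h2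
      exact h2 ⟨Nm.var i (α i), trivial⟩ ⟨rfl, rfl⟩ ((hα i _).2 rfl)
    · rintro h1 ⟨x, hx⟩ hw
      change wr K _ x at hw
      cases x <;> simp only [wr] at hw
      case var i a => exact absurd hw.1 hs'
      case nt L' j' σ' i a =>
        obtain ⟨rfl, rfl, rfl⟩ := hw
        rw [hv.not ⟨Nm.nt L' j' σ' i a, hx⟩ trivial]
        rintro ⟨y, hy⟩ hw' hval
        change wr K _ y at hw'
        cases y <;> simp only [wr] at hw'
        obtain ⟨rfl, rfl⟩ := hw'
        have h2 := (hα _ _).1 hval
        subst h2
        exact hx.2.2.2.2 (h1 _)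
  · have hs' : Even s := by
      rw [← Nat.not_odd_iff_even]
      exact hs
    rw [if_neg hs, hv.or ⟨Nm.leaf L j σ, h⟩ hs]
    constructor
    · rintro ⟨⟨x, hx⟩, hw, h1⟩
      change wr K _ x at hw
      cases x <;> simp only [wr] at hw
      case var i a =>
        have h2 := (hα _ _).1 h1
        subst h2
        exact ⟨i, hw.2⟩
      case nt L' j' σ' i a => exact absurd hx.2.2.2.1 hs
    · rintro ⟨i, hi⟩
      exact ⟨⟨Nm.var i (α i), trivial⟩, ⟨hs', hi⟩, (hα _ _).2 rfl⟩

/-- the shifted bits -/
def shf (K : Code B s c D) (z : List B → ZMod 2) (α : Fin k → K.A) : List B → ZMod 2 :=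
  fun y => z y + ∑ i, K.ev (α i) y

theorem z2 {a b : ZMod 2} : a + b = 0 ↔ a = b := by
  revert a b
  decide

theorem z3 {a b e : ZMod 2} : a + b = e ↔ ¬ (b = a + e + 1) := by
  revert a b e
  decide

theorem gate_sem (hv : (srcC K k z).IsEval val) {α : Fin k → K.A}
    (hα : ∀ i a, val ⟨Nm.var i a, trivial⟩ ↔ a = α i) :
    ∀ (r : ℕ) (L : List (B × (B → ZMod 2))) (h : valid (k := k) K z (Nm.gate L)),
    L.length + r = s → (val ⟨Nm.gate L, h⟩ ↔ sem 0 (shf K z α) r L) := by
  have hgrp : ∀ i, val ⟨Nm.grp i, trivial⟩ := by
    intro i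
    rw [hv.or ⟨Nm.grp i, trivial⟩ trivial]
    exact ⟨⟨Nm.var i (α i), trivial⟩, rfl, (hα _ _).2 rfl⟩
  intro r
  induction r with
  | zero =>
    intro L h hr
    rw [Nat.add_zero] at hr
    by_cases hL : Even L.length
    · have hs : ¬ Odd s := by
        rw [← hr, Nat.not_odd_iff_even]
        exact hL
      rw [sem_even hL, hv.and ⟨Nm.gate L, h⟩ hL]
      constructor
      · intro h1 j
        show z (j :: pth L) + ∑ i, K.ev (α i) (j :: pth L) = hd 0 L j
        rw [z3]
        intro hcon
        have hval : valid K z (Nm.leaf L j fun i => K.ev (α i) (j :: pth L)) := ⟨h.1, hr, hcon⟩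
        have h2 := h1 ⟨_, hval⟩ rfl
        rw [leaf_val hv hα, if_neg hs] at h2
        obtain ⟨i, hi⟩ := h2
        exact hi rfl
      · rintro h1 ⟨x, hx⟩ hw
        change wr K _ x at hw
        cases x <;> simp only [wr] at hw
        case grp i => exact hgrp i
        case gate L' =>
          obtain ⟨p, rfl⟩ := hw
          have := hx.2
          rw [List.length_cons] at this
          omega
        case leaf L' j σ =>
          subst hw
          rw [leaf_val hv hα, if_neg hs]
          by_contra hcon
          push Not at hcon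
          have h2 := h1 j
          change z (j :: pth L') + ∑ i, K.ev (α i) (j :: pth L') = hd 0 L' j at h2
          rw [z3] at h2
          apply h2
          rw [← hx.2.2]
          exact Finset.sum_congr rfl fun i _ => hcon i
    · have hs : Odd s := by
        rw [← hr, ← Nat.not_even_iff_odd]
        exact hL
      rw [sem_odd hL, hv.or ⟨Nm.gate L, h⟩ hL]
      constructor
      · rintro ⟨⟨x, hx⟩, hw, h1⟩
        change wr K _ x at hw
        cases x <;> simp only [wr] at hw
        case grp i =>
          subst hw
          exact absurd Even.zero hL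
        case gate L' =>
          obtain ⟨p, rfl⟩ := hw
          have := hx.2
          rw [List.length_cons] at this
          omega
        case leaf L' j σ =>
          subst hw
          rw [leaf_val hv hα, if_pos hs] at h1
          refine ⟨j, ?_⟩
          show ¬ (z (j :: pth L') + ∑ i, K.ev (α i) (j :: pth L') = hd 0 L' j)
          rw [z3, not_not, ← hx.2.2]
          exact Finset.sum_congr rfl fun i _ => h1 i
      · rintro ⟨j, hj⟩
        change ¬ (z (j :: pth L) + ∑ i, K.ev (α i) (j :: pth L) = hd 0 L j) at hj
        rw [z3, not_not] at hj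
        have hval : valid K z (Nm.leaf L j fun i => K.ev (α i) (j :: pth L)) := ⟨h.1, hr, hj⟩
        refine ⟨⟨_, hval⟩, rfl, ?_⟩
        rw [leaf_val hv hα, if_pos hs]
        intro i
        rfl
  | succ r ih =>
    intro L h hr
    by_cases hL : Even L.length
    · rw [sem_step_even hL, hv.and ⟨Nm.gate L, h⟩ hL]
      constructor
      · intro h1 j h' hs'
        have hval : valid (k := k) K z (Nm.gate ((j, h') :: L)) :=
          ⟨⟨h.1, hs'⟩, by rw [List.length_cons]; omega⟩
        rw [← ih _ hval (by rw [List.length_cons]; omega)]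
        exact h1 ⟨_, hval⟩ ⟨_, rfl⟩
      · rintro h1 ⟨x, hx⟩ hw
        change wr K _ x at hw
        cases x <;> simp only [wr] at hw
        case grp i => exact hgrp i
        case gate L' =>
          obtain ⟨p, rfl⟩ := hw
          rw [ih _ hx (by rw [List.length_cons]; omega)]
          exact h1 p.1 p.2 hx.1.2
        case leaf L' j σ =>
          subst hw
          have := hx.2.1
          omega
    · rw [sem_step_odd hL, hv.or ⟨Nm.gate L, h⟩ hL]
      constructor
      · rintro ⟨⟨x, hx⟩, hw, h1⟩
        change wr K _ x at hw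
        cases x <;> simp only [wr] at hw
        case grp i =>
          subst hw
          exact absurd Even.zero hL
        case gate L' =>
          obtain ⟨p, rfl⟩ := hw
          rw [ih _ hx (by rw [List.length_cons]; omega)] at h1
          exact ⟨p.1, p.2, hx.1.2, h1⟩
        case leaf L' j σ =>
          subst hw
          have := hx.2.1
          omega
      · rintro ⟨j, h', hs', h1⟩
        have hval : valid (k := k) K z (Nm.gate ((j, h') :: L)) :=
          ⟨⟨h.1, hs'⟩, by rw [List.length_cons]; omega⟩
        refine ⟨⟨_, hval⟩, ⟨_, rfl⟩, ?_⟩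
        rw [ih _ hval (by rw [List.length_cons]; omega)]
        exact h1

/-- weighted satisfiability of the source circuits -/
theorem src_wsat : (srcC K k z).WSat k ↔
    ∃ α : Fin k → K.A, ∀ j, bp (shf K z α) s [j] = 0 := by
  constructor
  · rintro ⟨val, hv, hout, hcard⟩
    have hroot := hout _ root_out
    rw [hv.and root Even.zero] at hroot
    have h1 : ∀ i : Fin k, ∃ a, val ⟨Nm.var i a, trivial⟩ := by
      intro i
      have h2 := hroot ⟨Nm.grp i, trivial⟩ rfl
      rw [hv.or ⟨Nm.grp i, trivial⟩ trivial] at h2
      obtain ⟨⟨x, hx⟩, hw, h3⟩ := h2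
      change wr K _ x at hw
      cases x <;> simp only [wr] at hw
      case var i' a =>
        subst hw
        exact ⟨a, h3⟩
    choose α hα using h1
    let φ : Fin k → {g // (srcC K k z).isVar g ∧ val g} :=
      fun i => ⟨⟨Nm.var i (α i), trivial⟩, trivial, hα i⟩
    have hφ : Function.Injective φ := by
      intro i i' h
      have h2 := congrArg (fun x => x.1.1) h
      simp only [φ, Nm.var.injEq] at h2
      exact h2.1
    have hbij : Function.Bijective φ := by
      have : Fintype {g // (srcC K k z).isVar g ∧ val g} := Fintype.ofFinite _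
      rw [Fintype.bijective_iff_injective_and_card]
      refine ⟨hφ, ?_⟩
      rw [Fintype.card_fin, ← Nat.card_eq_fintype_card, hcard]
    have hα' : ∀ i a, val ⟨Nm.var i a, trivial⟩ ↔ a = α i := by
      intro i a
      constructor
      · intro h
        obtain ⟨i', hi'⟩ := hbij.2 ⟨⟨Nm.var i a, trivial⟩, trivial, h⟩
        have h2 := congrArg (fun x => x.1.1) hi'
        simp only [φ, Nm.var.injEq] at h2
        obtain ⟨rfl, rfl⟩ := h2
        rfl
      · rintro rfl
        exact hα i
    refine ⟨α, ?_⟩
    have h3 := (gate_sem hv hα' s [] ⟨trivial, Nat.zero_le _⟩ (by simp)).1 (hout _ root_out)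
    rw [sem_even (by simp)] at h3
    exact h3
  · rintro ⟨α, hα⟩
    obtain ⟨val, hv, hvar⟩ := eval_exists (src_isCircuit (K := K) (k := k) (z := z))
      (fun e => ∃ i, e.1 = Nm.var i (α i))
    have hα' : ∀ i a, val ⟨Nm.var i a, trivial⟩ ↔ a = α i := by
      intro i a
      rw [hvar ⟨Nm.var i a, trivial⟩ trivial]
      constructor
      · rintro ⟨i', hi'⟩
        simp only [Nm.var.injEq] at hi'
        obtain ⟨rfl, rfl⟩ := hi'
        rfl
      · rintro rfl
        exact ⟨i, rfl⟩
    refine ⟨val, hv, ?_, ?_⟩
    · intro g hg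
      rw [out_root hg]
      refine (gate_sem hv hα' s [] ⟨trivial, Nat.zero_le _⟩ (by simp)).2 ?_
      rw [sem_even (by simp)]
      exact hα
    · let φ : Fin k → {g // (srcC K k z).isVar g ∧ val g} :=
        fun i => ⟨⟨Nm.var i (α i), trivial⟩, trivial, (hα' _ _).2 rfl⟩
      have hbij : Function.Bijective φ := by
        constructor
        · intro i i' h
          have h2 := congrArg (fun x => x.1.1) h
          simp only [φ, Nm.var.injEq] at h2
          exact h2.1
        · rintro ⟨⟨x, hx⟩, h1, h2⟩
          change kVar K x at h1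
          cases x <;> simp only [kVar] at h1
          case var i a =>
            have h3 := (hα' _ _).1 h2
            subst h3
            exact ⟨i, rfl⟩
      rw [← Nat.card_congr (Equiv.ofBijective φ hbij), Nat.card_fin]

theorem ev_zero (y : List B) : K.ev 0 y = 0 := by
  have h := K.ev_add 0 0 y
  rw [add_zero] at h
  exact left_eq_add.1 h

theorem ev_sum {ι : Type} (S : Finset ι) (α : ι → K.A) (y : List B) :
    K.ev (∑ i ∈ S, α i) y = ∑ i ∈ S, K.ev (α i) y := by
  classical
  induction S using Finset.induction_on with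
  | empty => simp [ev_zero]
  | insert a S ha ih => rw [Finset.sum_insert ha, Finset.sum_insert ha, K.ev_add, ih]

/-- weighted satisfiability is a parity -/
theorem src_wsat_parity (hk : 1 ≤ k) : (srcC K k z).WSat k ↔ bp z (s + 1) [] = 0 := by
  rw [src_wsat]
  constructor
  · rintro ⟨α, hα⟩
    have h1 : bp (shf K z α) (s + 1) [] = 0 := by
      show ∑ j, bp (shf K z α) s [j] = 0
      exact Finset.sum_eq_zero fun j _ => hα j
    have h2 : bp (shf K z α) (s + 1) [] = bp z (s + 1) [] + bp (K.ev (∑ i, α i)) (s + 1) [] := by
      rw [← bp_add]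
      congr 1
      funext y
      rw [ev_sum]
      rfl
    rw [h2, K.even, add_zero] at h1
    exact h1
  · intro h
    obtain ⟨a, ha⟩ := K.reach (fun j => bp z s [j]) h
    refine ⟨fun i => if i = ⟨0, hk⟩ then a else 0, ?_⟩
    intro j
    have h2 : shf K z (fun i : Fin k => if i = ⟨0, hk⟩ then a else 0) =
        fun y => z y + K.ev a y := by
      funext y
      show z y + ∑ i : Fin k, K.ev (if i = ⟨0, hk⟩ then a else 0) y = _
      rw [Finset.sum_eq_single ⟨0, hk⟩]
      · simp
      · intro i _ hi
        rw [if_neg hi, ev_zero]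
      · intro h
        exact absurd (Finset.mem_univ _) h
    rw [h2, bp_add, ha]
    exact CharTwo.add_self_eq_zero _

end src

end Pool.Agent.WSatCount
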