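import Pool.Agent.WSatCount.Src2
import Pool.Agent.WSatCount.Game

/-! Shifts and the bijective game on the source circuits. -/

namespace Pool.Agent.WSatCount

open Pool.Agent.WSatChain Pool.Agent.ParityAC Finset

section sys

variable {B : Type} [Fintype B] {s c D k : ℕ} (K : Code B s c D)

/-- the shift -/
def sh (β : Fin k → K.A) (τ : List B → Fin k → ZMod 2) : Nm k B K.A → Nm k B K.A
  | .var i α => .var i (α + β i)
  | .grp i => .grp i
  | .gate L => .gate L
  | .leaf L j σ => .leaf L j (fun i => σ i + τ (j :: pth L) i)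
  | .nt L j σ i α => .nt L j (fun i => σ i + τ (j :: pth L) i) i (α + β i)

/-- the group touched by a node -/
def tg {A : Type} : Nm k B A → Option (Fin k)
  | .var i _ => some i
  | .nt _ _ _ i _ => some i
  | _ => none

/-- the base touched by a node -/
def tb {A : Type} : Nm k B A → Option (List B)
  | .leaf L j _ => some (j :: pth L)
  | .nt L j _ _ _ => some (j :: pth L)
  | _ => none

/-- the shift is consistent on `E` -/
def Con (z z' : List B → ZMod 2) (β : Fin k → K.A) (τ : List B → Fin k → ZMod 2)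
    (E : Nm k B K.A → Prop) : Prop :=
  (∀ e y, E e → tb e = some y → ∑ i, τ y i = z y + z' y) ∧
  (∀ e e' i y, E e → E e' → tg e = some i → tb e' = some y → K.ev (β i) y = τ y i)

variable {K} {z z' : List B → ZMod 2} {β β' : Fin k → K.A} {τ τ' : List B → Fin k → ZMod 2}
  {E : Nm k B K.A → Prop}

theorem zz (a b : ZMod 2) : a + b + b = a := by
  revert a b
  decide

theorem aa (a b : K.A) : a + b + b = a := by
  rw [add_assoc, K.char2, add_zero]

theorem sh_sh (e : Nm k B K.A) : sh K β τ (sh K β τ e) = e := by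
  cases e with
  | var i α => simp only [sh, aa]
  | grp i => rfl
  | gate L => rfl
  | leaf L j σ => simp only [sh, zz]
  | nt L j σ i α => simp only [sh, zz, aa]

theorem tg_sh (e : Nm k B K.A) : tg (sh K β τ e) = tg e := by
  cases e <;> rfl

theorem tb_sh (e : Nm k B K.A) : tb (sh K β τ e) = tb e := by
  cases e <;> rfl

theorem sh_congr (e : Nm k B K.A) (h1 : ∀ i, tg e = some i → β i = β' i)
    (h2 : ∀ y, tb e = some y → τ y = τ' y) : sh K β τ e = sh K β' τ' e := by
  cases e with
  | var i α => simp only [sh, h1 i rfl]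
  | grp i => rfl
  | gate L => rfl
  | leaf L j σ => simp only [sh, h2 _ rfl]
  | nt L j σ i α => simp only [sh, h1 i rfl, h2 _ rfl]

theorem sh_inj {e e' : Nm k B K.A} (h : sh K β τ e = sh K β τ e') : e = e' := by
  rw [← sh_sh (β := β) (τ := τ) e, h, sh_sh]

theorem Con.mono {E' : Nm k B K.A → Prop} (h : Con K z z' β τ E) (hE : ∀ e, E' e → E e) :
    Con K z z' β τ E' :=
  ⟨fun e y he => h.1 e y (hE e he), fun e e' i y he he' => h.2 e e' i y (hE e he) (hE e' he')⟩

theorem Con.symm (h : Con K z z' β τ E) : Con K z' z β τ (fun e => E (sh K β τ e)) := by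
  refine ⟨?_, ?_⟩
  · intro e y he hy
    rw [h.1 _ y he (by rw [tb_sh]; exact hy)]
    exact add_comm _ _
  · intro e e' i y he he' hi hy
    exact h.2 _ _ i y he he' (by rw [tg_sh]; exact hi) (by rw [tb_sh]; exact hy)

theorem z5 {a b x y t : ZMod 2} (h : t = x + y) : (a = x + b + 1) ↔ (a + t = y + b + 1) := by
  subst h
  revert a b x y
  decide

theorem z6 {a b t : ZMod 2} : a + t = b + t ↔ a = b := by
  revert a b t
  decide

theorem sh_valid (h : Con K z z' β τ E) {e : Nm k B K.A} (he : E e) :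
    valid K z e ↔ valid K z' (sh K β τ e) := by
  cases e with
  | var i α => exact Iff.rfl
  | grp i => exact Iff.rfl
  | gate L => exact Iff.rfl
  | leaf L j σ =>
    have h1 := h.1 _ _ he rfl
    simp only [valid, sh, Finset.sum_add_distrib]
    rw [← z5 h1]
  | nt L j σ i α =>
    have h1 := h.1 _ _ he rfl
    have h2 := h.2 _ _ _ _ he he rfl rfl
    simp only [valid, sh, Finset.sum_add_distrib, K.ev_add, ne_eq]
    rw [← z5 h1, h2, z6]

theorem sh_wr (h : Con K z z' β τ E) {e e' : Nm k B K.A} (he : E e) (he' : E e') :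
    wr K e e' ↔ wr K (sh K β τ e) (sh K β τ e') := by
  cases e <;> cases e' <;> simp only [wr, sh]
  case leaf.var L j σ i α =>
    have h2 := h.2 _ _ _ _ he' he rfl rfl
    simp only [K.ev_add, h2, ne_eq, z6]
  case leaf.nt L j σ L' j' σ' i α =>
    constructor
    · rintro ⟨rfl, rfl, rfl⟩
      exact ⟨rfl, rfl, rfl⟩
    · rintro ⟨rfl, rfl, h3⟩
      refine ⟨rfl, rfl, ?_⟩
      funext i
      have := congrFun h3 i
      exact z6.1 this
  case nt.var L j σ i α i' α' =>
    constructor
    · rintro ⟨rfl, rfl⟩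
      exact ⟨rfl, rfl⟩
    · rintro ⟨rfl, h3⟩
      exact ⟨rfl, add_right_cancel h3⟩

/-- the range of a tuple -/
def rng {n : ℕ} (v : Fin n → UU K k z) : Nm k B K.A → Prop := fun e => ∃ j, (v j).1 = e

variable (K z z') in
/-- the positions -/
def RR (n : ℕ) (v : Fin n → UU K k z) (v' : Fin n → UU K k z') : Prop :=
  ∃ β τ, Con K z z' β τ (rng v) ∧ ∀ j, (v' j).1 = sh K β τ (v j).1

theorem tb_length {e : Nm k B K.A} (he : valid K z e) {y : List B} (hy : tb e = some y) :
    y.length = s + 1 := by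
  cases e <;> simp only [tb, Option.some.injEq, reduceCtorEq] at hy
  case leaf L j σ =>
    subst hy
    rw [List.length_cons, pth, List.length_map, he.2.1]
  case nt L j σ i α =>
    subst hy
    rw [List.length_cons, pth, List.length_map, he.2.1]

theorem RR_ext {n : ℕ} (hn : n < k) (hc : n ≤ c) {v : Fin n → UU K k z} {v' : Fin n → UU K k z'}
    (h : RR K z z' n v v') (i0 : Fin n) : ∃ f : UU K k z ≃ UU K k z', ∀ x,
      RR K z z' n (Function.update v i0 x) (Function.update v' i0 (f x)) := by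
  classical
  obtain ⟨β, τ, hC, hv'⟩ := h
  let T : Finset (Fin k) := (univ.erase i0).biUnion fun j => (tg (v j).1).toFinset
  have hT : T.card ≤ n - 1 := by
    refine (Finset.card_biUnion_le_card_mul _ _ 1 ?_).trans ?_
    · intro j _
      rw [Option.card_toFinset]
      cases tg (v j).1 <;> simp
    · rw [mul_one, Finset.card_erase_of_mem (Finset.mem_univ _), Finset.card_univ, Fintype.card_fin]
  let Y0 : List (List B) := (List.finRange n).filterMap fun j => if j = i0 then none else tb (v j).1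
  have hY0 : Y0.length ≤ c := by
    refine (List.length_filterMap_le _ _).trans ?_
    rw [List.length_finRange]
    exact hc
  have hY0m : ∀ y, y ∈ Y0 ↔ ∃ j, j ≠ i0 ∧ tb (v j).1 = some y := by
    intro y
    simp only [Y0, List.mem_filterMap, List.mem_finRange, true_and]
    constructor
    · rintro ⟨j, hj⟩
      by_cases hji : j = i0
      · rw [if_pos hji] at hj
        exact absurd hj (by simp)
      · rw [if_neg hji] at hj
        exact ⟨j, hji, hj⟩
    · rintro ⟨j, hji, hj⟩
      exact ⟨j, by rw [if_neg hji]; exact hj⟩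
  have hY0l : ∀ y ∈ Y0, y.length = s + 1 := by
    intro y hy
    obtain ⟨j, _, hj⟩ := (hY0m y).1 hy
    exact tb_length (v j).2 hj
  have hTm : ∀ i, i ∈ T ↔ ∃ j, j ≠ i0 ∧ tg (v j).1 = some i := by
    intro i
    simp only [T, Finset.mem_biUnion, Finset.mem_erase, Finset.mem_univ, and_true,
      Option.mem_toFinset, Option.mem_def]
  choose βn hβn using fun i : Fin k => K.indep Y0 hY0 hY0l (fun y => τ y i)
  let β1 : Fin k → K.A := fun i => if i ∈ T then β i else βn i
  have hβ1 : ∀ i, ∀ y ∈ Y0, K.ev (β1 i) y = τ y i := by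
    intro i y hy
    by_cases hi : i ∈ T
    · simp only [β1, if_pos hi]
      obtain ⟨j, _, hj⟩ := (hTm i).1 hi
      obtain ⟨j', _, hj'⟩ := (hY0m y).1 hy
      exact hC.2 _ _ i y ⟨j, rfl⟩ ⟨j', rfl⟩ hj hj'
    · simp only [β1, if_neg hi]
      exact hβn i y hy
  have hfr : ∀ o : Option (Fin k), ∃ i, i ∉ T ∧ o ≠ some i := by
    intro o
    by_contra hcon
    push Not at hcon
    have h1 : (univ : Finset (Fin k)) ⊆ T ∪ o.toFinset := by
      intro i _
      rw [Finset.mem_union]
      by_cases hi : i ∈ T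
      · exact Or.inl hi
      · right
        rw [Option.mem_toFinset]
        exact hcon i hi
    have h2 := (Finset.card_le_card h1).trans (Finset.card_union_le _ _)
    rw [Finset.card_univ, Fintype.card_fin] at h2
    have h3 : o.toFinset.card ≤ 1 := by
      rw [Option.card_toFinset]
      cases o <;> simp
    have h4 : 0 < n := i0.pos
    omega
  choose fr hfr1 hfr2 using hfr
  let τ1 : Option (Fin k) → List B → Fin k → ZMod 2 := fun o y i =>
    if y ∈ Y0 then τ y i else K.ev (β1 i) y +
      (if i = fr o then (∑ i', K.ev (β1 i') y + (z y + z' y)) else 0)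
  have hτ1 : ∀ o y, y ∉ Y0 → ∑ i, τ1 o y i = z y + z' y := by
    intro o y hy
    simp only [τ1, if_neg hy, Finset.sum_add_distrib, Finset.sum_ite_eq', Finset.mem_univ, if_true]
    rw [← add_assoc, CharTwo.add_self_eq_zero, zero_add]
  have hτY : ∀ o y, y ∈ Y0 → τ1 o y = τ y := by
    intro o y hy
    funext i
    simp only [τ1, if_pos hy]
  have hsumY : ∀ y ∈ Y0, ∑ i, τ y i = z y + z' y := by
    intro y hy
    obtain ⟨j, _, hj⟩ := (hY0m y).1 hy
    exact hC.1 _ y ⟨j, rfl⟩ hj
  have hsum : ∀ o y, ∑ i, τ1 o y i = z y + z' y := by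
    intro o y
    by_cases hy : y ∈ Y0
    · rw [hτY o y hy]
      exact hsumY y hy
    · exact hτ1 o y hy
  -- consistency for the remaining nodes and the new one
  have hcon : ∀ (o : Option (Fin k)) (E : Nm k B K.A → Prop),
      (∀ e, E e → (∃ j, j ≠ i0 ∧ (v j).1 = e) ∨ (tg e = o)) →
      Con K z z' β1 (τ1 o) E := by
    intro o E hE
    refine ⟨fun e y _ _ => hsum o y, ?_⟩
    intro e e' i y he _ hi _
    by_cases hy : y ∈ Y0
    · rw [hτY o y hy]
      exact hβ1 i y hy
    · have hi' : i ≠ fr o := by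
        rintro rfl
        rcases hE e he with ⟨j, hj, rfl⟩ | h1
        · exact hfr1 o ((hTm _).2 ⟨j, hj, hi⟩)
        · exact hfr2 o (h1.symm.trans hi)
      simp only [τ1, if_neg hy, if_neg hi', add_zero]
  have hcon' : ∀ (o : Option (Fin k)) (E : Nm k B K.A → Prop),
      (∀ e, E e → (tg e = o)) →
      Con K z' z β1 (τ1 o) E := by
    intro o E hE
    have h1 := hcon o E (fun e he => Or.inr (hE e he))
    refine ⟨fun e y he hy => ?_, h1.2⟩
    rw [h1.1 e y he hy]
    exact add_comm _ _
  let f : UU K k z → UU K k z' := fun x => ⟨sh K β1 (τ1 (tg x.1)) x.1,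
    (sh_valid (hcon (tg x.1) (fun e => e = x.1) (fun e he => Or.inr (by rw [he]))) rfl).1 x.2⟩
  let g : UU K k z' → UU K k z := fun x => ⟨sh K β1 (τ1 (tg x.1)) x.1,
    (sh_valid (hcon' (tg x.1) (fun e => e = x.1) (fun e he => by rw [he])) rfl).1 x.2⟩
  refine ⟨⟨f, g, ?_, ?_⟩, ?_⟩
  · intro x
    apply Subtype.ext
    show sh K β1 (τ1 (tg (sh K β1 (τ1 (tg x.1)) x.1))) (sh K β1 (τ1 (tg x.1)) x.1) = x.1
    rw [tg_sh, sh_sh]
  · intro x
    apply Subtype.ext
    show sh K β1 (τ1 (tg (sh K β1 (τ1 (tg x.1)) x.1))) (sh K β1 (τ1 (tg x.1)) x.1) = x.1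
    rw [tg_sh, sh_sh]
  · intro x
    refine ⟨β1, τ1 (tg x.1), hcon _ _ ?_, ?_⟩
    · rintro e ⟨j, hj⟩
      by_cases hji : j = i0
      · subst hji
        rw [Function.update_self] at hj
        exact Or.inr (by rw [hj])
      · rw [Function.update_of_ne hji] at hj
        exact Or.inl ⟨j, hji, hj⟩
    · intro j
      by_cases hji : j = i0
      · subst hji
        rw [Function.update_self, Function.update_self]
        rfl
      · rw [Function.update_of_ne hji, Function.update_of_ne hji, hv' j]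
        apply sh_congr
        · intro i hi
          have : i ∈ T := (hTm i).2 ⟨j, hji, hi⟩
          simp only [β1, if_pos this]
        · intro y hy
          exact (hτY _ y ((hY0m y).2 ⟨j, hji, hy⟩)).symm

variable (K) in
/-- the game can be played for ever -/
theorem game {n : ℕ} (hn : n < k) (hc : n ≤ c) (z z' : List B → ZMod 2) :
    GameSys (srcC K k z) (srcC K k z') n (RR K z z' n) where
  eq v v' h i j := by
    obtain ⟨β, τ, hC, hv'⟩ := h
    constructor
    · intro h1
      apply Subtype.ext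
      rw [hv' i, hv' j, h1]
    · intro h1
      apply Subtype.ext
      have h2 : (v' i).1 = (v' j).1 := by rw [h1]
      rw [hv' i, hv' j] at h2
      exact sh_inj h2
  isVar v v' h i := by
    obtain ⟨β, τ, hC, hv'⟩ := h
    show kVar K (v i).1 ↔ kVar K (v' i).1
    rw [hv' i]
    cases (v i).1 <;> exact Iff.rfl
  isAnd v v' h i := by
    obtain ⟨β, τ, hC, hv'⟩ := h
    show kAnd s (v i).1 ↔ kAnd s (v' i).1
    rw [hv' i]
    cases (v i).1 <;> exact Iff.rfl
  isOr v v' h i := by
    obtain ⟨β, τ, hC, hv'⟩ := h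
    show kOr s (v i).1 ↔ kOr s (v' i).1
    rw [hv' i]
    cases (v i).1 <;> exact Iff.rfl
  isNot v v' h i := by
    obtain ⟨β, τ, hC, hv'⟩ := h
    show kNot (v i).1 ↔ kNot (v' i).1
    rw [hv' i]
    cases (v i).1 <;> exact Iff.rfl
  isOut v v' h i := by
    obtain ⟨β, τ, hC, hv'⟩ := h
    show kOut (v i).1 ↔ kOut (v' i).1
    rw [hv' i]
    cases (v i).1 <;> exact Iff.rfl
  wire v v' h i j := by
    obtain ⟨β, τ, hC, hv'⟩ := h
    show wr K (v i).1 (v j).1 ↔ wr K (v' i).1 (v' j).1
    rw [hv' i, hv' j]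
    exact sh_wr hC ⟨i, rfl⟩ ⟨j, rfl⟩
  ext _ _ h i := RR_ext hn hc h i

/-- a starting position -/
theorem RR_start {n : ℕ} : RR K z z' n (fun _ => root (k := k)) (fun _ => root) := by
  refine ⟨0, fun _ _ => 0, ⟨?_, ?_⟩, ?_⟩
  · rintro e y ⟨j, rfl⟩ hy
    simp [root, tb] at hy
  · rintro e e' i y ⟨j, rfl⟩ _ hi _
    simp [root, tg] at hi
  · intro j
    rfl

variable (K k z z') in
theorem card_eq_card (hk : 1 < k) (hc : 1 ≤ c) : Nat.card (UU K k z) = Nat.card (UU K k z') := by
  obtain ⟨f, _⟩ := (game K hk hc z z').ext _ _ RR_start 0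
  exact Nat.card_congr f

end sys

end Pool.Agent.WSatCount
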