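import Pool.Agent.WSatCount.Sys

/-! Interpretations of the source circuits: transfer along shifts. -/

namespace Pool.Agent.WSatCount

open Pool.Agent.WSatChain Pool.Agent.ParityAC Finset

section trans

variable {B : Type} [Fintype B] {s c D k : ℕ} {K : Code B s c D} {n N : ℕ}
  {z z' : List B → ZMod 2} {β : Fin k → K.A} {τ : List B → Fin k → ZMod 2}

/-- names of the nodes of the interpreted circuit -/
abbrev NP (K : Code B s c D) (k : ℕ) (F : Interp n N) : Type := Fin F.M × (Fin F.a → Nm k B K.A)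

variable {F : Interp n N}

/-- the name -/
def nm (q : F.Univ (srcC K k z)) : NP K k F := (q.1.1, fun j => (q.1.2 j).1)

theorem nm_inj {q r : F.Univ (srcC K k z)} (h : nm q = nm r) : q = r := by
  have h1 : (nm q).1 = (nm r).1 := by rw [h]
  have h2 : ∀ j, (nm q).2 j = (nm r).2 j := by
    intro j
    rw [h]
  apply Subtype.ext
  apply Prod.ext
  · exact h1
  · funext j
    apply Subtype.ext
    exact h2 j

/-- the shift of a name -/
def shP (β : Fin k → K.A) (τ : List B → Fin k → ZMod 2) (p : NP K k F) : NP K k F :=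
  (p.1, fun j => sh K β τ (p.2 j))

theorem shP_shP (p : NP K k F) : shP β τ (shP β τ p) = p := by
  apply Prod.ext
  · rfl
  · funext j
    exact sh_sh _

/-- the components -/
def cmp (p : NP K k F) : Nm k B K.A → Prop := fun e => ∃ j, p.2 j = e

theorem RR_one {u : Fin F.a → UU K k z} {u' : Fin F.a → UU K k z'}
    (h : Con K z z' β τ (rng u)) (hu : ∀ j, (u' j).1 = sh K β τ (u j).1) :
    RR K z z' n (F.one u) (F.one u') := by
  refine ⟨β, τ, h.mono ?_, ?_⟩
  · rintro e ⟨j, rfl⟩
    unfold Interp.one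
    split
    · exact ⟨_, rfl⟩
    · exact ⟨_, rfl⟩
  · intro j
    unfold Interp.one
    split
    · exact hu _
    · exact hu _

theorem RR_two {u w : Fin F.a → UU K k z} {u' w' : Fin F.a → UU K k z'}
    (h : Con K z z' β τ (fun e => rng u e ∨ rng w e)) (hu : ∀ j, (u' j).1 = sh K β τ (u j).1)
    (hw : ∀ j, (w' j).1 = sh K β τ (w j).1) :
    RR K z z' n (F.two u w) (F.two u' w') := by
  refine ⟨β, τ, h.mono ?_, ?_⟩
  · rintro e ⟨j, rfl⟩
    unfold Interp.two
    split
    · exact Or.inl ⟨_, rfl⟩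
    · split
      · exact Or.inr ⟨_, rfl⟩
      · exact Or.inl ⟨_, rfl⟩
  · intro j
    unfold Interp.two
    split
    · exact hu _
    · split
      · exact hw _
      · exact hu _

theorem nm_shP {q : F.Univ (srcC K k z)} {q' : F.Univ (srcC K k z')}
    (h : nm q' = shP β τ (nm q)) : q'.1.1 = q.1.1 ∧ ∀ j, (q'.1.2 j).1 = sh K β τ (q.1.2 j).1 :=
  ⟨congrArg Prod.fst h, fun j => congrFun (congrArg Prod.snd h) j⟩

/-- lifting a node -/
theorem lift (hn : n < k) (hc : n ≤ c) (q : F.Univ (srcC K k z))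
    (h : Con K z z' β τ (cmp (nm q))) :
    ∃ q' : F.Univ (srcC K k z'), nm q' = shP β τ (nm q) := by
  obtain ⟨⟨m, u⟩, hq⟩ := q
  have hval : ∀ j, valid K z' (sh K β τ (u j).1) := fun j => (sh_valid h ⟨j, rfl⟩).1 (u j).2
  let u' : Fin F.a → UU K k z' := fun j => ⟨sh K β τ (u j).1, hval j⟩
  have hR : RR K z z' n (F.one u) (F.one u') := RR_one h fun j => rfl
  exact ⟨⟨(m, u'), ((game K hn hc z z').sat _ _ _ hR).1 hq⟩, rfl⟩

theorem tr_var (hn : n < k) (hc : n ≤ c) {q : F.Univ (srcC K k z)} {q' : F.Univ (srcC K k z')}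
    (h : Con K z z' β τ (cmp (nm q))) (hq : nm q' = shP β τ (nm q)) :
    (F.apply (srcC K k z)).isVar q ↔ (F.apply (srcC K k z')).isVar q' := by
  obtain ⟨h1, h2⟩ := nm_shP hq
  have hR := RR_one (u := q.1.2) (u' := q'.1.2) h h2
  have := (game K hn hc z z').sat (F.isVar q.1.1) _ _ hR
  show (srcC K k z).Sat _ _ ↔ (srcC K k z').Sat (F.isVar q'.1.1) _
  rw [h1]
  exact this

theorem tr_and (hn : n < k) (hc : n ≤ c) {q : F.Univ (srcC K k z)} {q' : F.Univ (srcC K k z')}
    (h : Con K z z' β τ (cmp (nm q))) (hq : nm q' = shP β τ (nm q)) :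
    (F.apply (srcC K k z)).isAnd q ↔ (F.apply (srcC K k z')).isAnd q' := by
  obtain ⟨h1, h2⟩ := nm_shP hq
  have hR := RR_one (u := q.1.2) (u' := q'.1.2) h h2
  have := (game K hn hc z z').sat (F.isAnd q.1.1) _ _ hR
  show (srcC K k z).Sat _ _ ↔ (srcC K k z').Sat (F.isAnd q'.1.1) _
  rw [h1]
  exact this

theorem tr_or (hn : n < k) (hc : n ≤ c) {q : F.Univ (srcC K k z)} {q' : F.Univ (srcC K k z')}
    (h : Con K z z' β τ (cmp (nm q))) (hq : nm q' = shP β τ (nm q)) :
    (F.apply (srcC K k z)).isOr q ↔ (F.apply (srcC K k z')).isOr q' := by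
  obtain ⟨h1, h2⟩ := nm_shP hq
  have hR := RR_one (u := q.1.2) (u' := q'.1.2) h h2
  have := (game K hn hc z z').sat (F.isOr q.1.1) _ _ hR
  show (srcC K k z).Sat _ _ ↔ (srcC K k z').Sat (F.isOr q'.1.1) _
  rw [h1]
  exact this

theorem tr_not (hn : n < k) (hc : n ≤ c) {q : F.Univ (srcC K k z)} {q' : F.Univ (srcC K k z')}
    (h : Con K z z' β τ (cmp (nm q))) (hq : nm q' = shP β τ (nm q)) :
    (F.apply (srcC K k z)).isNot q ↔ (F.apply (srcC K k z')).isNot q' := by
  obtain ⟨h1, h2⟩ := nm_shP hq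
  have hR := RR_one (u := q.1.2) (u' := q'.1.2) h h2
  have := (game K hn hc z z').sat (F.isNot q.1.1) _ _ hR
  show (srcC K k z).Sat _ _ ↔ (srcC K k z').Sat (F.isNot q'.1.1) _
  rw [h1]
  exact this

theorem tr_out (hn : n < k) (hc : n ≤ c) {q : F.Univ (srcC K k z)} {q' : F.Univ (srcC K k z')}
    (h : Con K z z' β τ (cmp (nm q))) (hq : nm q' = shP β τ (nm q)) :
    (F.apply (srcC K k z)).isOut q ↔ (F.apply (srcC K k z')).isOut q' := by
  obtain ⟨h1, h2⟩ := nm_shP hq
  have hR := RR_one (u := q.1.2) (u' := q'.1.2) h h2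
  have := (game K hn hc z z').sat (F.isOut q.1.1) _ _ hR
  show (srcC K k z).Sat _ _ ↔ (srcC K k z').Sat (F.isOut q'.1.1) _
  rw [h1]
  exact this

theorem tr_gate (hn : n < k) (hc : n ≤ c) {q : F.Univ (srcC K k z)} {q' : F.Univ (srcC K k z')}
    (h : Con K z z' β τ (cmp (nm q))) (hq : nm q' = shP β τ (nm q)) (b : Bool) :
    (F.apply (srcC K k z)).gate b q ↔ (F.apply (srcC K k z')).gate b q' := by
  cases b
  · exact tr_or hn hc h hq
  · exact tr_and hn hc h hq

theorem tr_wire (hn : n < k) (hc : n ≤ c) {q r : F.Univ (srcC K k z)}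
    {q' r' : F.Univ (srcC K k z')} (h : Con K z z' β τ (fun e => cmp (nm q) e ∨ cmp (nm r) e))
    (hq : nm q' = shP β τ (nm q)) (hr : nm r' = shP β τ (nm r)) :
    (F.apply (srcC K k z)).wire q r ↔ (F.apply (srcC K k z')).wire q' r' := by
  obtain ⟨h1, h2⟩ := nm_shP hq
  obtain ⟨h3, h4⟩ := nm_shP hr
  have hR := RR_two (u := q.1.2) (u' := q'.1.2) (w := r.1.2) (w' := r'.1.2) h h2 h4
  have := (game K hn hc z z').sat (F.wire q.1.1 r.1.1) _ _ hR
  show (srcC K k z).Sat _ _ ↔ (srcC K k z').Sat (F.wire q'.1.1 r'.1.1) _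
  rw [h1, h3]
  exact this

/-- the groups touched -/
def tgP (p : NP K k F) (i : Fin k) : Prop := ∃ j, tg (p.2 j) = some i

/-- the bases touched -/
def tbP (p : NP K k F) (y : List B) : Prop := ∃ j, tb (p.2 j) = some y

theorem sh_id {e : Nm k B K.A} (h1 : ∀ i, tg e = some i → β i = 0)
    (h2 : ∀ y, tb e = some y → τ y = 0) : sh K β τ e = e := by
  cases e with
  | var i α => simp only [sh, h1 i rfl, add_zero]
  | grp i => rfl
  | gate L => rfl
  | leaf L j σ => simp only [sh, h2 _ rfl, Pi.zero_apply, add_zero]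
  | nt L j σ i α => simp only [sh, h1 i rfl, h2 _ rfl, Pi.zero_apply, add_zero]

theorem shP_id {p : NP K k F} (h1 : ∀ i, tgP p i → β i = 0)
    (h2 : ∀ y, tbP p y → τ y = 0) : shP β τ p = p := by
  apply Prod.ext
  · rfl
  · funext j
    exact sh_id (fun i hi => h1 i ⟨j, hi⟩) (fun y hy => h2 y ⟨j, hy⟩)

theorem tgP_shP {p : NP K k F} {i : Fin k} : tgP (shP β τ p) i ↔ tgP p i := by
  unfold tgP
  simp only [shP, tg_sh]

theorem tbP_shP {p : NP K k F} {y : List B} : tbP (shP β τ p) y ↔ tbP p y := by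
  unfold tbP
  simp only [shP, tb_sh]

/-- children of nodes of small fan-in touch no new group -/
theorem no_new_group (hn : n < k) (hc : n ≤ c) {q r : F.Univ (srcC K k z)}
    (hw : (F.apply (srcC K k z)).wire q r)
    (hcard : Nat.card {r // (F.apply (srcC K k z)).wire q r} ≤ D) [Finite (F.Univ (srcC K k z))] :
    ∀ i, tgP (nm r) i → tgP (nm q) i := by
  classical
  intro i hi
  by_contra hq
  obtain ⟨g, hg1, hg2⟩ := K.null
  let βx : Fin (D + 1) → Fin k → K.A := fun x i' => if i' = i then g x else 0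
  have hcon : ∀ x (E : Nm k B K.A → Prop), Con K z z (βx x) (fun _ => 0) E := by
    intro x E
    refine ⟨?_, ?_⟩
    · intro e y _ _
      simp only [Pi.zero_apply, Finset.sum_const_zero]
      exact (CharTwo.add_self_eq_zero _).symm
    · intro e e' i' y _ _ _ _
      simp only [βx, Pi.zero_apply]
      split
      · exact hg2 x y
      · exact ev_zero y
  choose rx hrx using fun x => lift hn hc r (hcon x (cmp (nm r)))
  have hqx : ∀ x, nm q = shP (βx x) (fun _ => 0) (nm q) := by
    intro x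
    rw [shP_id]
    · intro i' hi'
      have : i' ≠ i := by
        rintro rfl
        exact hq hi'
      simp only [βx, if_neg this]
    · intro y _
      rfl
  have hwx : ∀ x, (F.apply (srcC K k z)).wire q (rx x) := fun x =>
    (tr_wire hn hc (hcon x _) (hqx x) (hrx x)).1 hw
  let φ : Fin (D + 1) → {r // (F.apply (srcC K k z)).wire q r} := fun x => ⟨rx x, hwx x⟩
  have hφ : Function.Injective φ := by
    intro x x' h
    have h1 : rx x = rx x' := congrArg Subtype.val h
    have h2 : shP (βx x) (fun _ => 0) (nm r) = shP (βx x') (fun _ => 0) (nm r) := by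
      rw [← hrx, ← hrx, h1]
    obtain ⟨j, hj⟩ := hi
    have h3 : sh K (βx x) (fun _ => 0) ((nm r).2 j) = sh K (βx x') (fun _ => 0) ((nm r).2 j) :=
      congrFun (congrArg Prod.snd h2) j
    apply hg1
    revert h3 hj
    cases (nm r).2 j with
    | var i' α =>
      intro hj h3
      simp only [tg, Option.some.injEq] at hj
      subst hj
      simp only [sh, Nm.var.injEq, true_and, βx, if_true] at h3
      exact add_left_cancel h3
    | grp i' => intro hj; simp [tg] at hj
    | gate L => intro hj; simp [tg] at hj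
    | leaf L j σ => intro hj; simp [tg] at hj
    | nt L j σ i' α =>
      intro hj h3
      simp only [tg, Option.some.injEq] at hj
      subst hj
      simp only [sh, Nm.nt.injEq, true_and, βx, if_true] at h3
      exact add_left_cancel h3
  have h4 := Nat.card_le_card_of_injective φ hφ
  rw [Nat.card_fin] at h4
  omega

end trans

end Pool.Agent.WSatCount
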